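import Pool.Agent.Q138.LO.Seif
import Pool.Agent.TH744.Tree.Caps

set_option autoImplicit false

/-!
# Good pieces cap the cusps of chain links
-/

namespace Pool.Agent.Q138.LO

open Pool.Agent.TH744.Tree (Cp CpS Dm DmS)

/-- A pair that caps a cusp of a chain link with slopes of sign `s`. -/
def Caps (s : Bool) {G : Type} [Group G] (μ l : G) : Prop :=
  ∀ (X : Type) [CompleteLinearOrder X] (ρ : G →* (X ≃o X)), Cp X s (ρ μ) (ρ l) ∧
    CpS X s (ρ μ) (ρ l) ∧ ∀ x, ρ μ x = x → ∀ g, ρ g x = x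

variable {G : Type} [Group G] {μ l v : G}

theorem Caps.of_good {s : Bool} (hg : Good μ v) (h : l = if s then (μ ^ 2 * v)⁻¹ else μ ^ 2 * v) :
    Caps s μ l := by
  intro X _ ρ
  obtain ⟨M, hM, hM2⟩ : ∃ M : G, M = (μ ^ 2 * v)⁻¹ ∧ (if s then ρ l else (ρ l)⁻¹) = ρ M := by
    refine ⟨_, rfl, ?_⟩
    rw [h]
    cases s
    · simp only [Bool.false_eq_true, if_false]
      rw [map_inv]
    · simp only [if_true]
  have hmu : ∀ p : X, (ρ μ)⁻¹ ((ρ μ)⁻¹ p) = (ρ μ ^ 2)⁻¹ p := by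
    intro p
    rw [← mul_ap, ← mul_inv_rev, pow_two]
  -- `M` in terms of `v`
  have key1 : ∀ p : X, p < (ρ μ)⁻¹ p → (ρ μ)⁻¹ ((ρ μ)⁻¹ p) < ρ M p := by
    intro p hp
    set q := (ρ μ)⁻¹ ((ρ μ)⁻¹ p) with hq
    have e1 : ρ μ q < q := by
      have h1 : (ρ μ)⁻¹ p < q := ((ρ μ)⁻¹ : X ≃o X).strictMono hp
      have h2 : ρ μ q = (ρ μ)⁻¹ p := by rw [hq, self_inv']
      rw [h2]; exact h1
    have e2 : ρ v q < q := by
      by_contra hcon
      rw [not_lt] at hcon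
      exact absurd ((hg X ρ q).2.1.mpr hcon) (not_le.mpr e1)
    have e3 : ρ (μ ^ 2 * v) q < p := by
      rw [map_mul, mul_ap]
      have h3 := (ρ (μ ^ 2)).strictMono e2
      have h4 : ρ (μ ^ 2) q = p := by
        rw [map_pow, pow_two, mul_ap, hq, self_inv', self_inv']
      rwa [h4] at h3
    have e4 := ((ρ (μ ^ 2 * v))⁻¹ : X ≃o X).strictMono e3
    rw [inv_self'] at e4
    rw [hM, map_inv]
    exact e4
  have key2 : ∀ p : X, (ρ μ)⁻¹ p < p → ρ M p < (ρ μ)⁻¹ ((ρ μ)⁻¹ p) := by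
    intro p hp
    set q := (ρ μ)⁻¹ ((ρ μ)⁻¹ p) with hq
    have e1 : q < ρ μ q := by
      have h1 : q < (ρ μ)⁻¹ p := ((ρ μ)⁻¹ : X ≃o X).strictMono hp
      have h2 : ρ μ q = (ρ μ)⁻¹ p := by rw [hq, self_inv']
      rw [h2]; exact h1
    have e2 : q < ρ v q := by
      by_contra hcon
      rw [not_lt] at hcon
      exact absurd ((hg X ρ q).1.mpr hcon) (not_le.mpr e1)
    have e3 : p < ρ (μ ^ 2 * v) q := by
      rw [map_mul, mul_ap]
      have h3 := (ρ (μ ^ 2)).strictMono e2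
      have h4 : ρ (μ ^ 2) q = p := by
        rw [map_pow, pow_two, mul_ap, hq, self_inv', self_inv']
      rwa [h4] at h3
    have e4 := ((ρ (μ ^ 2 * v))⁻¹ : X ≃o X).strictMono e3
    rw [inv_self'] at e4
    rw [hM, map_inv]
    exact e4
  have fix : ∀ x, ρ μ x = x → ∀ g, ρ g x = x := fun x => (hg X ρ x).2.2
  have fixi : ∀ p : X, (ρ μ)⁻¹ p = p → ρ μ p = p := by
    intro p hp
    have := congrArg (ρ μ) hp
    rwa [self_inv', eq_comm] at this
  have hs : DmS X (ρ μ)⁻¹ (ρ M) := ⟨key1, key2⟩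
  have hd : Dm X (ρ μ)⁻¹ (ρ M) := by
    refine ⟨fun p hp => ?_, fun p hp => ?_⟩
    · rcases eq_or_lt_of_le hp with h1 | h1
      · have h2 := fix p (fixi p h1.symm)
        have h3 : (ρ μ)⁻¹ p = p := h1.symm
        show (ρ μ)⁻¹ ((ρ μ)⁻¹ p) ≤ ρ M p
        rw [h3, h3, h2 M]
      · exact (key1 p h1).le
    · rcases eq_or_lt_of_le hp with h1 | h1
      · have h2 := fix p (fixi p h1)
        have h3 : (ρ μ)⁻¹ p = p := h1
        show ρ M p ≤ (ρ μ)⁻¹ ((ρ μ)⁻¹ p)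
        rw [h3, h3, h2 M]
      · exact (key2 p h1).le
  refine ⟨?_, ?_, fix⟩
  · unfold Cp; rw [hM2]; exact hd
  · unfold CpS; rw [hM2]; exact hs

end Pool.Agent.Q138.LO
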