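import Pool.Agent.Q138.LO.Mark
import Pool.Agent.TH49.FC.Grp

set_option autoImplicit false

/-!
# Actions of the group of the five chain link with one-sided cusps
-/

namespace Pool.Agent.Q138.LO.Five

open Pool.Agent.Q138.LO Pool.Agent.TH49.FC

section

variable {X : Type} [CompleteLinearOrder X]

/-- `g` moves no point in the direction opposite to `f`, and fixes the fixed points of `f`. -/
def Wk (f g : X ≃o X) : Prop := ∀ x, (x < f x → x ≤ g x) ∧ (f x < x → g x ≤ x) ∧ (f x = x → g x = x)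

/-- `g` moves each point that is moved by `f` in the direction of `f`, and fixes the fixed points of
`f`. -/
def St (f g : X ≃o X) : Prop := ∀ x, (x < f x → x < g x) ∧ (f x < x → g x < x) ∧ (f x = x → g x = x)

theorem Wk.conj {f g : X ≃o X} (h : Wk f g) (w : X ≃o X) : Wk (w * f * w⁻¹) (w * g * w⁻¹) := by
  intro x
  obtain ⟨h1, h2, h3⟩ := h (w⁻¹ x)
  have key : ∀ k : X ≃o X, (w * k * w⁻¹) x = w (k (w⁻¹ x)) := fun _ => rfl
  have e : x = w (w⁻¹ x) := (self_inv' w x).symm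
  rw [key, key]
  set y := w⁻¹ x with hy
  rw [e]
  exact ⟨fun h => w.monotone (h1 (w.lt_iff_lt.mp h)), fun h => w.monotone (h2 (w.lt_iff_lt.mp h)),
    fun h => congrArg w (h3 (w.injective h))⟩

theorem Wk.inv {f g : X ≃o X} (h : Wk f g) : Wk f⁻¹ g⁻¹ := by
  have key : ∀ (k : X ≃o X) x, (x < k⁻¹ x ↔ k x < x) ∧ (k⁻¹ x < x ↔ x < k x) ∧
      (x ≤ k⁻¹ x ↔ k x ≤ x) ∧ (k⁻¹ x ≤ x ↔ x ≤ k x) ∧ (k⁻¹ x = x ↔ k x = x) := by
    intro k x
    have e : k (k⁻¹ x) = x := self_inv' k x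
    refine ⟨?_, ?_, ?_, ?_, ?_⟩
    · rw [← k.lt_iff_lt, e]
    · rw [← k.lt_iff_lt, e]
    · rw [← k.le_iff_le, e]
    · rw [← k.le_iff_le, e]
    · rw [← k.injective.eq_iff, e, eq_comm]
  intro x
  obtain ⟨h1, h2, h3⟩ := h x
  refine ⟨fun h => ?_, fun h => ?_, fun h => ?_⟩
  · exact (key g x).2.2.1.mpr (h2 ((key f x).1.mp h))
  · exact (key g x).2.2.2.1.mpr (h1 ((key f x).2.1.mp h))
  · exact (key g x).2.2.2.2.mpr (h3 ((key f x).2.2.2.2.mp h))

/-- The relations of the exterior of the five chain link and the conditions at the five cusps. -/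
structure Cusps (m k : ℕ) (x y c e g : X ≃o X) : Prop where
  hk : 1 ≤ k
  cx : x * (c * g) = c * g * x
  cc : c * (g * x * g⁻¹ * y) = g * x * g⁻¹ * y * c
  cy : y * (e⁻¹ * c) = e⁻¹ * c * y
  ce : e * (y⁻¹ * g) = y⁻¹ * g * e
  cg : g * (x * e) = x * e * g
  /-- `x ^ m ≤ ((c g)⁻¹) ^ k` -/
  wx : Wk x (x ^ (-(m : ℤ)) * ((c * g)⁻¹) ^ (k : ℤ))
  sc : St c (g * x * g⁻¹ * y)
  wc : Wk c (c * (g * x * g⁻¹ * y)⁻¹)
  wy : Wk y (y * (e⁻¹ * c)⁻¹)
  we : Wk e (e⁻¹ * (y⁻¹ * g))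
  we' : Wk e (e ^ ((m : ℤ) + k) * (y⁻¹ * g) ^ (-(k : ℤ)))
  wg : Wk g (g⁻¹ * (x * e))

theorem pow_le_of {f : X ≃o X} {v : X} {k : ℕ} (hk : 1 ≤ k) (h : v ≤ (f ^ k) v) : v ≤ f v := by
  by_contra hcon
  exact absurd h (not_le.mpr (pow_lt' (not_le.mp hcon) hk))

theorem le_pow_of {f : X ≃o X} {v : X} {k : ℕ} (hk : 1 ≤ k) (h : (f ^ k) v ≤ v) : f v ≤ v := by
  by_contra hcon
  exact absurd h (not_le.mpr (lt_pow' (not_le.mp hcon) hk))

variable {m k : ℕ} {x y c e g : X ≃o X}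

theorem toSys (h : Cusps m k x y c e g) :
    Sys x y c e g (g * x * g⁻¹) (c * y * c⁻¹) (y⁻¹ * g) := by
  obtain ⟨hk, cx, cc, cy, ce, cg, wx, st, wc, wy, we, we', wg⟩ := h
  have mul : ∀ (a b : X ≃o X) v, a (b v) = (a * b) v := fun a b v => rfl
  have hY : c * y * c⁻¹ = e * y * e⁻¹ := by
    have h2 : c * y = e * y * e⁻¹ * c := by
      calc c * y = e * (e⁻¹ * c * y) := by group
        _ = e * (y * (e⁻¹ * c)) := by rw [← cy]
        _ = _ := by group
    rw [h2]; group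
  have hX : c * (g * x * g⁻¹) * c⁻¹ = x := by
    have h2 : c * g * x = x * c * g := by rw [← cx]; group
    calc c * (g * x * g⁻¹) * c⁻¹ = (c * g * x) * g⁻¹ * c⁻¹ := by group
      _ = x := by rw [h2]; group
  have hh : g * x * g⁻¹ * y = x * (c * y * c⁻¹) := by
    calc g * x * g⁻¹ * y = (g * x * g⁻¹ * y * c) * c⁻¹ := by group
      _ = c * (g * x * g⁻¹ * y) * c⁻¹ := by rw [← cc]
      _ = (c * (g * x * g⁻¹) * c⁻¹) * (c * y * c⁻¹) := by group
      _ = x * (c * y * c⁻¹) := by rw [hX]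
  -- the cusp of `x`
  have X0 : ∀ v, x ^ (-(m : ℤ)) * ((c * g)⁻¹) ^ (k : ℤ) = (x ^ m)⁻¹ * (((c * g)⁻¹) ^ k) →
      (v < x v → c (g v) ≤ v) ∧ (x v < v → v ≤ c (g v)) ∧ (x v = v → c (g v) = v) := by
    intro v hv
    obtain ⟨h1, h2, h3⟩ := wx v
    rw [hv] at h1 h2 h3
    have e1 : ((x ^ m)⁻¹ * ((c * g)⁻¹) ^ k) v = (x ^ m)⁻¹ ((((c * g)⁻¹) ^ k) v) := rfl
    rw [e1] at h1 h2 h3
    have i1 : ∀ w, (x ^ m) ((x ^ m)⁻¹ w) = w := self_inv' _
    have j1 : v ≤ (c * g)⁻¹ v → c (g v) ≤ v := by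
      intro hw
      have := (c * g).monotone hw
      rwa [self_inv'] at this
    have j2 : (c * g)⁻¹ v ≤ v → v ≤ c (g v) := by
      intro hw
      have := (c * g).monotone hw
      rwa [self_inv'] at this
    refine ⟨fun hv => ?_, fun hv => ?_, fun hv => ?_⟩
    · have h4 := (x ^ m).monotone (h1 hv)
      rw [i1] at h4
      exact j1 (pow_le_of hk ((le_pow' hv.le m).trans h4))
    · have h4 := (x ^ m).monotone (h2 hv)
      rw [i1] at h4
      exact j2 (le_pow_of hk (h4.trans (pow_le' hv.le m)))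
    · have h4 := congrArg (x ^ m) (h3 hv)
      rw [i1, pow_fix hv] at h4
      exact le_antisymm (j1 (pow_le_of hk h4.ge)) (j2 (le_pow_of hk h4.le))
  have X1 := fun v => X0 v (by rw [zpow_neg, zpow_natCast, zpow_natCast])
  -- the cusp of `c`
  set w := g * x * g⁻¹ * y with hw
  have wcm : Commute c w := cc
  have C1 : ∀ v, (c * w⁻¹) v = w⁻¹ (c v) := by
    intro v
    rw [wcm.inv_right.eq]; rfl
  -- the cusp of `e`
  set l := y⁻¹ * g with hl
  have elm : Commute e l := ce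
  have E1 : ∀ v, (v < e v → e v ≤ l v) ∧ (e v < v → l v ≤ e v) ∧ (e v = v → l v = v) := by
    intro v
    obtain ⟨h1, h2, h3⟩ := we v
    have e1 : (e⁻¹ * l) v = e⁻¹ (l v) := rfl
    rw [e1] at h1 h2 h3
    refine ⟨fun hv => ?_, fun hv => ?_, fun hv => ?_⟩
    · have := e.monotone (h1 hv); rwa [self_inv'] at this
    · have := e.monotone (h2 hv); rwa [self_inv'] at this
    · have := congrArg e (h3 hv); rwa [self_inv', hv] at this
  constructor
  · intro v; rw [mul, mul]; congr 1; group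
  · intro v; rw [mul, mul]; congr 1; group
  · intro v; rw [mul, mul, hY]; congr 1; group
  · intro v
    show (g * x * g⁻¹ * y) v = (x * (c * y * c⁻¹)) v
    rw [← hh]
  · intro v; rw [mul, hl]; congr 1; group
  · intro v; rw [mul, mul, ce]
  · intro v
    show (g * (x * e)) v = (x * e * g) v
    rw [cg]
  · exact fun v => (X1 v).1
  · exact fun v => (X1 v).2.1
  · exact fun v => (X1 v).2.2
  · intro v hv
    refine ⟨(st v).1 hv, ?_⟩
    have h1 := (wc v).1 hv
    rw [C1] at h1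
    have := w.monotone h1
    rwa [self_inv'] at this
  · intro v hv
    refine ⟨(st v).2.1 hv, ?_⟩
    have h1 := (wc v).2.1 hv
    rw [C1] at h1
    have := w.monotone h1
    rwa [self_inv'] at this
  · exact fun v hv => (st v).2.2 hv
  · intro v hv
    have h1 := (wy v).1 hv
    have cy' : Commute y (e⁻¹ * c) := cy
    have e1 : (y * (e⁻¹ * c)⁻¹) v = (e⁻¹ * c)⁻¹ (y v) := by
      rw [cy'.inv_right.eq]; rfl
    rw [e1] at h1
    have h2 := (e⁻¹ * c).monotone h1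
    rw [self_inv'] at h2
    have h3 := e.monotone h2
    have e2 : e ((e⁻¹ * c) v) = c v := self_inv' e (c v)
    rwa [e2] at h3
  · intro v hv
    have h1 := (wy v).2.1 hv
    have cy' : Commute y (e⁻¹ * c) := cy
    have e1 : (y * (e⁻¹ * c)⁻¹) v = (e⁻¹ * c)⁻¹ (y v) := by
      rw [cy'.inv_right.eq]; rfl
    rw [e1] at h1
    have h2 := (e⁻¹ * c).monotone h1
    rw [self_inv'] at h2
    have h3 := e.monotone h2
    have e2 : e ((e⁻¹ * c) v) = c v := self_inv' e (c v)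
    rwa [e2] at h3
  · intro v hv
    have h1 := (wy v).2.2 hv
    have cy' : Commute y (e⁻¹ * c) := cy
    have e1 : (y * (e⁻¹ * c)⁻¹) v = (e⁻¹ * c)⁻¹ (y v) := by
      rw [cy'.inv_right.eq]; rfl
    rw [e1, hv] at h1
    have h2 := congrArg (e⁻¹ * c) h1
    rw [self_inv'] at h2
    have h3 := congrArg e h2
    have e2 : e ((e⁻¹ * c) v) = c v := self_inv' e (c v)
    rw [e2] at h3
    exact h3.symm
  · exact fun v => (E1 v).1
  · exact fun v => (E1 v).2.1
  · exact fun v => (E1 v).2.2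
  · intro v hv
    have := g.monotone ((wg v).1 hv)
    rwa [show (g⁻¹ * (x * e)) v = g⁻¹ (x (e v)) from rfl, self_inv'] at this
  · intro v hv
    have := g.monotone ((wg v).2.1 hv)
    rwa [show (g⁻¹ * (x * e)) v = g⁻¹ (x (e v)) from rfl, self_inv'] at this
  · intro v hv
    have := congrArg g ((wg v).2.2 hv)
    rwa [show (g⁻¹ * (x * e)) v = g⁻¹ (x (e v)) from rfl, self_inv', hv] at this

/-- `g` moves no point up. -/
theorem no_up (h : Cusps m k x y c e g) (s : X) : ¬ s < g s := by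
  intro hs
  obtain ⟨J, sJ, hJ, xup, eup, hd, hX⟩ := step1 (toSys h) hs
  obtain ⟨hk, cx, cc, cy, ce, cg, wx, st, wc, wy, we, we', wg⟩ := h
  -- the stabiliser of `J`
  let K : Subgroup (X ≃o X) :=
    { carrier := {a | ∀ v, a v ∈ J ↔ v ∈ J}
      mul_mem' := by
        intro a b ha hb v
        show a (b v) ∈ J ↔ v ∈ J
        rw [ha, hb]
      one_mem' := by
        intro v
        rfl
      inv_mem' := by
        intro a ha v
        have := ha (a⁻¹ v)
        rw [self_inv'] at this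
        exact this.symm }
  let xK : K := ⟨x, hJ.mx⟩
  let yK : K := ⟨y, hJ.my⟩
  let cK : K := ⟨c, hJ.mc⟩
  let eK : K := ⟨e, hJ.me⟩
  let gK : K := ⟨g, hJ.mg⟩
  let ρK : K → J → J := fun a v => ⟨a.1 v.1, (a.2 v.1).mpr v.2⟩
  have AK : Act ρK := by
    refine ⟨?_, ?_, ?_⟩
    · intro a b t; exact Subtype.ext rfl
    · intro t; exact Subtype.ext rfl
    · intro a u v huv
      exact a.1.lt_iff_lt.mpr huv
  have : Nonempty J := ⟨⟨s, sJ⟩⟩
  have ltK : ∀ a b : K, (∀ v ∈ J, a.1 v < b.1 v) → Lt ρK a b := fun a b hab t => hab t.1 t.2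
  have leK : ∀ a b : K, (∀ v ∈ J, a.1 v ≤ b.1 v) → Le ρK a b := fun a b hab t => hab t.1 t.2
  set XK : K := gK * xK * gK⁻¹ with hXdef
  set χ : K := (gK * cK)⁻¹ with hχ
  set l : K := yK⁻¹ * gK with hl
  set ε : K := eK⁻¹ * l with hε
  have gup : Lt ρK 1 gK := ltK _ _ (fun v hv => hJ.up v hv)
  have eup' : Lt ρK 1 eK := ltK _ _ (fun v hv => eup v hv)
  have xup' : Lt ρK 1 xK := ltK _ _ (fun v hv => xup v hv)
  have eX : Le ρK eK XK := leK _ _ (fun v hv => hX v hv)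
  have cε : Commute eK ε := by
    have ce' : Commute eK l := Subtype.ext ce
    exact (Commute.refl eK).inv_right.mul_right ce'
  have d : Le ρK (χ * gK * eK * gK) (eK * ε) := by
    have h1 : Le ρK (eK * gK) (cK * l) := leK _ _ (fun v hv => hd v hv)
    have h2 := AK.le_left (χ * gK) h1
    refine ((Le.of_eq ?_).tr h2).tr (Le.of_eq ?_)
    · group
    · rw [hχ, hε]; group
  -- `x ^ m ≤ ((c g)⁻¹) ^ k`
  have k1 : Le ρK (xK ^ m) (((cK * gK)⁻¹) ^ k) := by
    have h1 : Le ρK 1 (xK ^ (-(m : ℤ)) * ((cK * gK)⁻¹) ^ (k : ℤ)) := leK _ _ fun v hv =>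
      (wx v).1 (xup v hv)
    have h2 := AK.le_left (xK ^ (m : ℤ)) h1
    rw [mul_one, ← mul_assoc, ← zpow_add, add_neg_cancel, zpow_zero, one_mul, zpow_natCast,
      zpow_natCast] at h2
    exact h2
  have k2 : Le ρK (XK ^ m) (χ ^ k) := by
    have h1 : χ = gK * (cK * gK)⁻¹ * gK⁻¹ := by rw [hχ]; group
    have h2 : ∀ (a : K) (n : ℕ), (gK * a * gK⁻¹) ^ n = gK * a ^ n * gK⁻¹ := by
      intro a n; rw [conj_pow]
    rw [hXdef, h1, h2, h2]
    exact AK.le_right _ (AK.le_left _ k1)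
  have k3 : Le ρK (ε ^ k) (eK ^ m) := by
    have h1 : Le ρK 1 (eK ^ ((m : ℤ) + k) * l ^ (-(k : ℤ))) := leK _ _ fun v hv =>
      (we' v).1 (eup v hv)
    have ce' : Commute eK l := Subtype.ext ce
    have h2 : eK ^ ((m : ℤ) + k) * l ^ (-(k : ℤ)) = eK ^ m * (ε ^ k)⁻¹ := by
      rw [hε, ce'.inv_left.mul_pow, mul_inv_rev, inv_pow, inv_inv, zpow_add, zpow_neg,
        zpow_natCast, zpow_natCast, zpow_natCast, mul_assoc]
      congr 1
      exact ((ce'.pow_pow k k).inv_right).eq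
    rw [h2] at h1
    have h3 := AK.le_right (ε ^ k) h1
    rwa [one_mul, inv_mul_cancel_right] at h3
  exact AK.contra_ge gup cε eX (m := m) (k := k) hk k2 k3 d

/-- The order automorphisms of the reversed order. -/
def dualEquiv : (X ≃o X) →* (Xᵒᵈ ≃o Xᵒᵈ) := dualHom (MonoidHom.id (X ≃o X))

theorem Wk.dual {f g : X ≃o X} (h : Wk f g) : Wk (X := Xᵒᵈ) (dualEquiv f) (dualEquiv g) :=
  fun v => ⟨(h v).2.1, (h v).1, (h v).2.2⟩

theorem St.dual {f g : X ≃o X} (h : St f g) : St (X := Xᵒᵈ) (dualEquiv f) (dualEquiv g) :=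
  fun v => ⟨(h v).2.1, (h v).1, (h v).2.2⟩

theorem Cusps.dual (h : Cusps m k x y c e g) : Cusps (X := Xᵒᵈ) m k (dualEquiv x) (dualEquiv y)
    (dualEquiv c) (dualEquiv e) (dualEquiv g) := by
  obtain ⟨hk, cx, cc, cy, ce, cg, wx, st, wc, wy, we, we', wg⟩ := h
  refine ⟨hk, ?_, ?_, ?_, ?_, ?_, ?_, ?_, ?_, ?_, ?_, ?_, ?_⟩
  · simpa only [map_mul, map_inv] using congrArg dualEquiv cx
  · simpa only [map_mul, map_inv] using congrArg dualEquiv cc
  · simpa only [map_mul, map_inv] using congrArg dualEquiv cy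
  · simpa only [map_mul, map_inv] using congrArg dualEquiv ce
  · simpa only [map_mul, map_inv] using congrArg dualEquiv cg
  · simpa only [map_mul, map_inv, map_zpow] using wx.dual
  · simpa only [map_mul, map_inv] using st.dual
  · simpa only [map_mul, map_inv] using wc.dual
  · simpa only [map_mul, map_inv] using wy.dual
  · simpa only [map_mul, map_inv] using we.dual
  · simpa only [map_mul, map_inv, map_zpow] using we'.dual
  · simpa only [map_mul, map_inv] using wg.dual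

theorem trivial (h : Cusps m k x y c e g) (v : X) :
    x v = v ∧ y v = v ∧ c v = v ∧ e v = v ∧ g v = v := by
  have hg : g v = v := by
    rcases lt_trichotomy (g v) v with h1 | h1 | h1
    · exact (no_up h.dual (OrderDual.toDual v) h1).elim
    · exact h1
    · exact (no_up h v h1).elim
  obtain ⟨h1, h2, h3, h4⟩ := step2 (toSys h) hg
  exact ⟨h1, h2, h3, h4, hg⟩

end

end Pool.Agent.Q138.LO.Five
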