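import Pool.Agent.Q138.LO.Mark
import Pool.Agent.TH744.LS.Sym

set_option autoImplicit false

/-!
# Actions of the group of the 4-chain link with one-sided cusps
-/

set_option linter.unusedSectionVars false

namespace Pool.Agent.Q138.LO.Four

open Pool.Agent.TH744.LS

/-- The relations of the link. -/
abbrev Lnk {K : Type*} [Group K] (x T y S : K) : Prop := Rel x T y S (fun _ => 0) (fun _ => 0)

section conds

variable {K : Type*} [Group K]

/-- The conditions on the cusps; `W μ w` means that `w` moves nothing in the direction opposite to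
`μ`. -/
inductive Alt (W : K → K → Prop) (x T y S : K) : Prop
  | a (h0 : W x (y * T * y⁻¹ * S)⁻¹) (h2 : W y (T * S⁻¹)⁻¹)
  | b (P Q : ℤ) (hP : 0 ≤ P) (hQ : 1 ≤ Q) (h0 : W x (x ^ P * (y * T * y⁻¹ * S) ^ (-(P + Q))))
      (h1 : W T (T * (x * y)⁻¹)) (h2 : W y (y ^ (-P) * (T * S⁻¹) ^ (-Q)))
  | c (h1 : W T (T * (x * y)⁻¹)) (h3 : W S (S * (T⁻¹ * y⁻¹ * T * x)⁻¹))
  | d (n : ℤ) (hn : 2 ≤ n) (h1 : W T (T * (x * y)⁻¹)) (h2 : W y (y ^ (-(n - 2)) * (T * S⁻¹)⁻¹))
      (h3 : W S (S ^ n * (T⁻¹ * y⁻¹ * T * x)⁻¹))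

/-- All conditions. `V μ w` means that `μ` and `w` move in the same direction. -/
structure Conds (W V : K → K → Prop) (x T y S : K) : Prop where
  lnk : Lnk x T y S
  wx : W x (x * (y * T * y⁻¹ * S)⁻¹)
  wy : W y (y * (T * S⁻¹)⁻¹)
  sT : V T (x * y)
  sS : V S (T⁻¹ * y⁻¹ * T * x)
  alt : Alt W x T y S

/-- The part needed for the fixed points. -/
structure FConds (W V : K → K → Prop) (x T y S : K) : Prop where
  lnk : Lnk x T y S
  wx : W x (x * (y * T * y⁻¹ * S)⁻¹)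
  wy : W y (y * (T * S⁻¹)⁻¹)
  sT : V T (x * y)
  sS : V S (T⁻¹ * y⁻¹ * T * x)
  alt : (W x (y * T * y⁻¹ * S)⁻¹ ∧ W y (T * S⁻¹)⁻¹) ∨ W T (T * (x * y)⁻¹)

theorem Conds.f {W V : K → K → Prop} {x T y S : K} (c : Conds W V x T y S) :
    FConds W V x T y S := by
  refine ⟨c.lnk, c.wx, c.wy, c.sT, c.sS, ?_⟩
  rcases c.alt with ⟨h0, h2⟩ | ⟨P, Q, hP, hQ, h0, h1, h2⟩ | ⟨h1, h3⟩ | ⟨n, hn, h1, h2, h3⟩
  · exact Or.inl ⟨h0, h2⟩
  · exact Or.inr h1
  · exact Or.inr h1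
  · exact Or.inr h1

end conds

section main
variable {K : Type*} [Group K] [Preorder K] [MulLeftMono K] [MulRightMono K]

/-- `w` is at least one if `μ` is, and at most one if `μ` is. -/
def WK (μ w : K) : Prop := (1 ≤ μ → 1 ≤ w) ∧ (μ ≤ 1 → w ≤ 1)

/-- `w` is at least one if and only if `μ` is, and at most one if and only if `μ` is. -/
def VK (μ w : K) : Prop := (1 ≤ μ ↔ 1 ≤ w) ∧ (μ ≤ 1 ↔ w ≤ 1)

theorem le_of_one_le {a b : K} (h : 1 ≤ a * b⁻¹) : b ≤ a := by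
  calc b = 1 * b := by group
    _ ≤ a * b⁻¹ * b := mul_le_mul' h le_rfl
    _ = a := by group

theorem le_of_le_one {a b : K} (h : a * b⁻¹ ≤ 1) : a ≤ b := by
  calc a = a * b⁻¹ * b := by group
    _ ≤ 1 * b := mul_le_mul' h le_rfl
    _ = b := by group

variable {x T y S : K}

/-- `x` and `y` do not both move up. -/
theorem upup (c : Conds WK VK x T y S) (hx : 1 ≤ x) (hy : 1 ≤ y)
    (hx' : ¬ x ≤ 1) (hy' : ¬ y ≤ 1) : False := by
  have hz : 1 ≤ x * y := by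
    calc (1 : K) = 1 * 1 := by group
      _ ≤ x * y := mul_le_mul' hx hy
  have hT : 1 ≤ T := c.sT.1.mpr hz
  rcases c.f.alt with ⟨c0, c2⟩ | c1
  · have hl : y * T * y⁻¹ * S ≤ 1 := by
      have := inv_le (c0.1 hx); rwa [inv_inv] at this
    have hm : T * S⁻¹ ≤ 1 := by
      have := inv_le (c2.1 hy); rwa [inv_inv] at this
    have h1 : T ≤ S := by
      calc T = T * S⁻¹ * S := by group
        _ ≤ 1 * S := mul_le_mul' hm le_rfl
        _ = S := by group
    have h2 : S ≤ (y * T * y⁻¹)⁻¹ := by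
      calc S = (y * T * y⁻¹)⁻¹ * (y * T * y⁻¹ * S) := by group
        _ ≤ (y * T * y⁻¹)⁻¹ * 1 := mul_le_mul' le_rfl hl
        _ = (y * T * y⁻¹)⁻¹ := by group
    have h3 : (y * T * y⁻¹)⁻¹ ≤ 1 := inv_le (conj_ge y hT)
    have h4 : T ≤ 1 := h1.trans (h2.trans h3)
    have h5 : x * y ≤ 1 := c.sT.2.mp h4
    refine hx' ?_
    calc x = x * 1 := by group
      _ ≤ x * y := mul_le_mul' le_rfl hy
      _ ≤ 1 := h5
  · have hl : y * T * y⁻¹ * S ≤ x := le_of_one_le (c.wx.1 hx)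
    have hm : T * S⁻¹ ≤ y := le_of_one_le (c.wy.1 hy)
    have hzT : x * y ≤ T := le_of_one_le (c1.1 hT)
    have h1 : y * x ≤ y * T * y⁻¹ := by
      calc y * x = y * (x * y) * y⁻¹ := by group
        _ ≤ y * T * y⁻¹ := mul_le_mul' (mul_le_mul' le_rfl hzT) le_rfl
    have h2 : S ≤ x⁻¹ * y⁻¹ * x := by
      calc S = (x⁻¹ * y⁻¹) * ((y * x) * S) := by group
        _ ≤ (x⁻¹ * y⁻¹) * ((y * T * y⁻¹) * S) :=
          mul_le_mul' le_rfl (mul_le_mul' h1 le_rfl)
        _ ≤ (x⁻¹ * y⁻¹) * x := mul_le_mul' le_rfl hl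
    have h3 : S⁻¹ ≤ y⁻¹ * x⁻¹ * y := by
      calc S⁻¹ = (y⁻¹ * x⁻¹) * ((x * y) * S⁻¹) := by group
        _ ≤ (y⁻¹ * x⁻¹) * (T * S⁻¹) := mul_le_mul' le_rfl (mul_le_mul' hzT le_rfl)
        _ ≤ (y⁻¹ * x⁻¹) * y := mul_le_mul' le_rfl hm
    have h4 : S⁻¹ ≤ 1 := by
      refine h3.trans ?_
      calc y⁻¹ * x⁻¹ * y ≤ y⁻¹ * 1 * y := mul_le_mul' (mul_le_mul' le_rfl (inv_le hx)) le_rfl
        _ = 1 := by group
    have h5 : 1 ≤ x⁻¹ * y⁻¹ * x := by
      refine le_trans ?_ h2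
      have := inv_ge h4
      rwa [inv_inv] at this
    refine hy' ?_
    calc y = x * 1 * x⁻¹ * y := by group
      _ ≤ x * (x⁻¹ * y⁻¹ * x) * x⁻¹ * y :=
        mul_le_mul' (mul_le_mul' (mul_le_mul' le_rfl h5) le_rfl) le_rfl
      _ = 1 := by group

/-- If `x` moves up and `y` moves down then `S ≤ 1` is impossible. -/
theorem updown_aux (c : Conds WK VK x T y S) (hy : y ≤ 1)
    (hx' : ¬ x ≤ 1) (hS : S ≤ 1) : False := by
  have h5 : T⁻¹ * y⁻¹ * T * x ≤ 1 := c.sS.2.mp hS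
  refine hx' ?_
  calc x = T⁻¹ * 1 * T * x := by group
    _ ≤ T⁻¹ * y⁻¹ * T * x :=
      mul_le_mul' (mul_le_mul' (mul_le_mul' le_rfl (inv_ge hy)) le_rfl) le_rfl
    _ ≤ 1 := h5

/-- `x` does not move up while `y` moves down. -/
theorem updown (hR : Root K) (c : Conds WK VK x T y S) (hx : 1 ≤ x) (hy : y ≤ 1)
    (hx' : ¬ x ≤ 1) : False := by
  have h := c.lnk
  have hY : 1 ≤ y⁻¹ := inv_ge hy
  have hxD : x ≤ T⁻¹ * y⁻¹ * T * x := by
    calc x = T⁻¹ * 1 * T * x := by group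
      _ ≤ T⁻¹ * y⁻¹ * T * x := mul_le_mul' (mul_le_mul' (mul_le_mul' le_rfl hY) le_rfl) le_rfl
  have hS : 1 ≤ S := c.sS.1.mpr (hx.trans hxD)
  have hS1 : 1 ≤ x * S * x⁻¹ := conj_ge x hS
  have hlx := h.lx
  have hl : y * T * y⁻¹ * S ≤ x := le_of_one_le (c.wx.1 hx)
  refine updown_aux c hy hx' ?_
  rcases c.alt with ⟨c0, c2⟩ | ⟨P, Q, hP, hQ, c0, c1, c2⟩ | ⟨c1, c3⟩ | ⟨n, hn, c1, c2, c3⟩
  · -- case A
    have hl : y * T * y⁻¹ * S ≤ 1 := by
      have := inv_le (c0.1 hx); rwa [inv_inv] at this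
    have hm : 1 ≤ T * S⁻¹ := by
      have := inv_ge (c2.2 hy); rwa [inv_inv] at this
    have h1 : S ≤ T := by
      calc S = 1 * S := by group
        _ ≤ T * S⁻¹ * S := mul_le_mul' hm le_rfl
        _ = T := by group
    calc S = 1 * S := by group
      _ ≤ y * T * y⁻¹ * S := mul_le_mul' (conj_ge y (hS.trans h1)) le_rfl
      _ ≤ 1 := hl
  · -- case B
    have hmY : y⁻¹ ^ P ≤ (T * S⁻¹) ^ Q := by
      have h1 := c2.2 hy
      rw [zpow_neg (T * S⁻¹)] at h1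
      have := le_of_le_one h1
      rwa [zpow_neg, ← inv_zpow] at this
    have hm : 1 ≤ T * S⁻¹ := hR.z hQ ((zpow_ge hY hP).trans hmY)
    have h1 : S ≤ T := by
      calc S = 1 * S := by group
        _ ≤ T * S⁻¹ * S := mul_le_mul' hm le_rfl
        _ = T := by group
    have hT : 1 ≤ T := hS.trans h1
    have hzT : x * y ≤ T := le_of_one_le (c1.1 hT)
    have hTl : T ≤ y * T * y⁻¹ * S := by
      calc T = T * 1 := by group
        _ ≤ T * (x * S * x⁻¹) := mul_le_mul' le_rfl hS1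
        _ = y * T * y⁻¹ * S := hlx
    have hcx : Commute x (y * T * y⁻¹ * S) := h.cx
    have hme : T * S⁻¹ * (S * (x * S * x⁻¹)) = y * T * y⁻¹ * S := by
      rw [← hlx]; group
    have he : 1 ≤ S * (x * S * x⁻¹) := by
      calc (1 : K) = 1 * 1 := by group
        _ ≤ S * (x * S * x⁻¹) := mul_le_mul' hS hS1
    have hSe : S ≤ S * (x * S * x⁻¹) := by
      calc S = S * 1 := by group
        _ ≤ S * (x * S * x⁻¹) := mul_le_mul' le_rfl hS1
    refine hSe.trans ?_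
    have hw0 := c0.1 hx
    generalize S * (x * S * x⁻¹) = e at he hme
    generalize y * T * y⁻¹ * S = l at hTl hcx hme hw0
    generalize T * S⁻¹ = m at hme hmY
    have hv : x * l⁻¹ ≤ y⁻¹ := by
      calc x * l⁻¹ = l⁻¹ * x := hcx.inv_right.eq
        _ = l⁻¹ * (x * y) * y⁻¹ := by group
        _ ≤ l⁻¹ * l * y⁻¹ := mul_le_mul' (mul_le_mul' le_rfl (hzT.trans hTl)) le_rfl
        _ = y⁻¹ := by group
    have hml : m ≤ l := by
      calc m = m * 1 := by group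
        _ ≤ m * e := mul_le_mul' le_rfl he
        _ = l := hme
    have hmt : m ^ Q ≤ l ^ Q * e⁻¹ := by
      have e1 : m ^ Q = m ^ (Q - 1) * m := by
        rw [← zpow_add_one]; congr 1; ring
      have e2 : l ^ Q = l ^ (Q - 1) * l := by
        rw [← zpow_add_one]; congr 1; ring
      calc m ^ Q = m ^ (Q - 1) * m := e1
        _ ≤ l ^ (Q - 1) * m := mul_le_mul' (zpow_mono' hml (by omega)) le_rfl
        _ = l ^ (Q - 1) * (m * e) * e⁻¹ := by group
        _ = l ^ Q * e⁻¹ := by rw [hme, e2]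
    have hvs : (x * l⁻¹) ^ P ≤ l ^ Q * e⁻¹ := by
      calc (x * l⁻¹) ^ P ≤ y⁻¹ ^ P := zpow_mono' hv hP
        _ ≤ m ^ Q := hmY
        _ ≤ l ^ Q * e⁻¹ := hmt
    have hew : e ≤ (x * l⁻¹) ^ (- P) * l ^ Q := by
      calc e = (x * l⁻¹) ^ (- P) * ((x * l⁻¹) ^ P) * e := by
            rw [← zpow_add, neg_add_cancel, zpow_zero, one_mul]
        _ ≤ (x * l⁻¹) ^ (- P) * (l ^ Q * e⁻¹) * e :=
          mul_le_mul' (mul_le_mul' le_rfl hvs) le_rfl
        _ = (x * l⁻¹) ^ (- P) * l ^ Q := by group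
    refine hew.trans ?_
    have hw : 1 ≤ ((x * l⁻¹) ^ (- P) * l ^ Q)⁻¹ := by
      have e1 : (x * l⁻¹) ^ (- P) * l ^ Q = x ^ (- P) * l ^ (P + Q) := by
        rw [hcx.inv_right.mul_zpow, inv_zpow, zpow_neg l, inv_inv, mul_assoc, ← zpow_add]
      have e2 : (x ^ (- P) * l ^ (P + Q))⁻¹ = x ^ P * l ^ (-(P + Q)) := by
        rw [mul_inv_rev, ← zpow_neg, ← zpow_neg, neg_neg]
        exact ((hcx.zpow_zpow P (-(P + Q))).eq).symm
      rw [e1, e2]
      exact hw0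
    have := inv_le hw
    rwa [inv_inv] at this
  · -- case C1
    have hDS : T⁻¹ * y⁻¹ * T * x ≤ S := le_of_one_le (c3.1 hS)
    have hm : y ≤ T * S⁻¹ := le_of_le_one (c.wy.2 hy)
    have h1 : y * T * y⁻¹ ≤ 1 := by
      calc y * T * y⁻¹ = y * T * y⁻¹ * S * S⁻¹ := by group
        _ ≤ x * S⁻¹ := mul_le_mul' hl le_rfl
        _ ≤ S * S⁻¹ := mul_le_mul' (hxD.trans hDS) le_rfl
        _ = 1 := by group
    have hT : T ≤ 1 := by
      calc T = y⁻¹ * (y * T * y⁻¹) * y := by group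
        _ ≤ y⁻¹ * 1 * y := mul_le_mul' (mul_le_mul' le_rfl h1) le_rfl
        _ = 1 := by group
    have hTz : T ≤ x * y := le_of_le_one (c1.2 hT)
    have hz : x * y ≤ 1 := c.sT.2.mp hT
    have h2 : y * S ≤ x * y := by
      calc y * S ≤ T * S⁻¹ * S := mul_le_mul' hm le_rfl
        _ = T := by group
        _ ≤ x * y := hTz
    have hDS' : S⁻¹ * y⁻¹ * S * x ≤ S := by rw [← h.conj]; exact hDS
    have h3 : S * x ≤ y * S * S := by
      calc S * x = y * S * (S⁻¹ * y⁻¹ * S * x) := by group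
        _ ≤ y * S * S := mul_le_mul' le_rfl hDS'
    have h4 : S * x ≤ x := by
      calc S * x ≤ y * S * S := h3
        _ ≤ x * y * S := mul_le_mul' h2 le_rfl
        _ = x * (y * S) := by group
        _ ≤ x * (x * y) := mul_le_mul' le_rfl h2
        _ ≤ x * 1 := mul_le_mul' le_rfl hz
        _ = x := by group
    calc S = S * x * x⁻¹ := by group
      _ ≤ x * x⁻¹ := mul_le_mul' h4 le_rfl
      _ = 1 := by group
  · -- case Cn
    have hm : y ^ (-(n - 2)) ≤ T * S⁻¹ := le_of_le_one (c2.2 hy)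
    have hYk : y ^ (-(n - 2)) = y⁻¹ ^ (n - 2) := by rw [inv_zpow, zpow_neg]
    have hY1 : 1 ≤ y⁻¹ ^ (n - 2) := zpow_ge hY (by omega)
    rw [hYk] at hm
    have h1 : y⁻¹ ^ (n - 2) * S ≤ T := by
      calc y⁻¹ ^ (n - 2) * S ≤ T * S⁻¹ * S := mul_le_mul' hm le_rfl
        _ = T := by group
    have hT : 1 ≤ T := by
      refine le_trans ?_ h1
      calc (1 : K) = 1 * 1 := by group
        _ ≤ y⁻¹ ^ (n - 2) * S := mul_le_mul' hY1 hS
    have hzT : x * y ≤ T := le_of_one_le (c1.1 hT)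
    rw [← hlx] at hl
    have hDS : T⁻¹ * y⁻¹ * T * x ≤ S ^ n := le_of_one_le (c3.1 hS)
    have h2 : x * S * x⁻¹ ≤ y⁻¹ := by
      calc x * S * x⁻¹ = y⁻¹ * x⁻¹ * (x * y * (x * S * x⁻¹)) := by group
        _ ≤ y⁻¹ * x⁻¹ * (T * (x * S * x⁻¹)) :=
          mul_le_mul' le_rfl (mul_le_mul' hzT le_rfl)
        _ ≤ y⁻¹ * x⁻¹ * x := mul_le_mul' le_rfl hl
        _ = y⁻¹ := by group
    have h3 : y⁻¹ ^ (n - 2) * S * (x * S * x⁻¹) ≤ x :=
      (mul_le_mul' h1 le_rfl).trans hl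
    have h4 : x ≤ S ^ n := hxD.trans hDS
    have h5 : x ≤ (x * S * x⁻¹) ^ n := by
      calc x = x * x * x⁻¹ := by group
        _ ≤ x * S ^ n * x⁻¹ := mul_le_mul' (mul_le_mul' le_rfl h4) le_rfl
        _ = (x * S * x⁻¹) ^ n := conj_zpow.symm
    have h6 : S ≤ x * S * x⁻¹ := by
      have e1 : (x * S * x⁻¹) ^ n
          = (x * S * x⁻¹) ^ (n - 2) * (x * S * x⁻¹) * (x * S * x⁻¹) := by
        rw [← zpow_add_one, ← zpow_add_one]; congr 1; ring
      have e2 : (x * S * x⁻¹) ^ (n - 2) * S * (x * S * x⁻¹)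
          ≤ (x * S * x⁻¹) ^ (n - 2) * (x * S * x⁻¹) * (x * S * x⁻¹) := by
        rw [← e1]
        refine le_trans ?_ (h3.trans h5)
        exact mul_le_mul' (mul_le_mul' (zpow_mono' h2 (by omega)) le_rfl) le_rfl
      generalize x * S * x⁻¹ = S1 at e2
      calc S = (S1 ^ (n - 2))⁻¹ * (S1 ^ (n - 2) * S * S1) * S1⁻¹ := by group
        _ ≤ (S1 ^ (n - 2))⁻¹ * (S1 ^ (n - 2) * S1 * S1) * S1⁻¹ :=
          mul_le_mul' (mul_le_mul' le_rfl e2) le_rfl
        _ = S1 := by group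
    have h7 : S ≤ y⁻¹ := h6.trans h2
    have hDS' : S⁻¹ * y⁻¹ * S * x ≤ S ^ n := by rw [← h.conj]; exact hDS
    have h8 : S * S * (S ^ (n - 2) * S * S) ≤ S * S ^ n := by
      calc S * S * (S ^ (n - 2) * S * S)
          ≤ y⁻¹ * S * (y⁻¹ ^ (n - 2) * S * (x * S * x⁻¹)) :=
            mul_le_mul' (mul_le_mul' h7 le_rfl)
              (mul_le_mul' (mul_le_mul' (zpow_mono' h7 (by omega)) le_rfl) h6)
        _ ≤ y⁻¹ * S * x := mul_le_mul' le_rfl h3
        _ = S * (S⁻¹ * y⁻¹ * S * x) := by group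
        _ ≤ S * S ^ n := mul_le_mul' le_rfl hDS'
    have h9 : S * S * (S ^ (n - 2) * S * S) = S * (S * S ^ n) := by
      have : S ^ n = S ^ (n - 2) * S * S := by
        rw [← zpow_add_one, ← zpow_add_one]; congr 1; ring
      rw [← this]; group
    rw [h9] at h8
    calc S = S⁻¹ * (S * (S * S ^ n)) * (S ^ n)⁻¹ := by group
      _ ≤ S⁻¹ * (S * S ^ n) * (S ^ n)⁻¹ := mul_le_mul' (mul_le_mul' le_rfl h8) le_rfl
      _ = 1 := by group

end main

section pt
variable {G X : Type*} [Group G] [LinearOrder X] [MulAction G X]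

/-- `w` moves no point in the direction opposite to `μ` and fixes the fixed points of `μ`. -/
def WX (X : Type*) [LinearOrder X] [MulAction G X] (μ w : G) : Prop :=
  ∀ v : X, (v < μ • v → v ≤ w • v) ∧ (μ • v < v → w • v ≤ v) ∧ (μ • v = v → w • v = v)

/-- `w` and `μ` move all points in the same direction. -/
def VX (X : Type*) [LinearOrder X] [MulAction G X] (μ w : G) : Prop :=
  ∀ v : X, (v < μ • v → v < w • v) ∧ (μ • v < v → w • v < v) ∧ (μ • v = v → w • v = v)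

theorem WX.dual {μ w : G} (h : WX X μ w) : WX Xᵒᵈ μ w :=
  fun v => ⟨(h v).2.1, (h v).1, (h v).2.2⟩

theorem VX.dual {μ w : G} (h : VX X μ w) : VX Xᵒᵈ μ w :=
  fun v => ⟨(h v).2.1, (h v).1, (h v).2.2⟩

theorem WX.conj (hm : Mono G X) {μ w : G} (h : WX X μ w) (g : G) :
    WX X (g * μ * g⁻¹) (g * w * g⁻¹) := by
  intro v
  have key : ∀ k : G, (g * k * g⁻¹) • v = g • k • g⁻¹ • v := fun k => by
    rw [mul_smul, mul_smul]
  obtain ⟨h1, h2, h3⟩ := h (g⁻¹ • v)
  rw [key, key]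
  have e : v = g • g⁻¹ • v := (smul_inv_smul g v).symm
  set u := g⁻¹ • v with hu
  rw [e, hm.lt, hm.lt, hm.le, hm.le]
  exact ⟨h1, h2, fun h => by rw [h3 (smul_left_cancel g h)]⟩

theorem VX.conj (hm : Mono G X) {μ w : G} (h : VX X μ w) (g : G) :
    VX X (g * μ * g⁻¹) (g * w * g⁻¹) := by
  intro v
  have key : ∀ k : G, (g * k * g⁻¹) • v = g • k • g⁻¹ • v := fun k => by
    rw [mul_smul, mul_smul]
  obtain ⟨h1, h2, h3⟩ := h (g⁻¹ • v)
  rw [key, key]
  have e : v = g • g⁻¹ • v := (smul_inv_smul g v).symm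
  set u := g⁻¹ • v with hu
  rw [e, hm.lt, hm.lt, hm.lt, hm.lt]
  exact ⟨h1, h2, fun h => by rw [h3 (smul_left_cancel g h)]⟩

theorem inv_lt_iff (hm : Mono G X) (k : G) (v : X) : v < k⁻¹ • v ↔ k • v < v := by
  rw [← hm.lt k, smul_inv_smul]

theorem inv_gt_iff (hm : Mono G X) (k : G) (v : X) : k⁻¹ • v < v ↔ v < k • v := by
  rw [← hm.lt k, smul_inv_smul]

theorem VX.inv (hm : Mono G X) {μ w : G} (h : VX X μ w) : VX X μ⁻¹ w⁻¹ := by
  intro v
  obtain ⟨h1, h2, h3⟩ := h v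
  rw [inv_lt_iff hm, inv_gt_iff hm, inv_lt_iff hm, inv_gt_iff hm]
  refine ⟨h2, h1, fun h => ?_⟩
  have := inv_fix h
  rw [inv_inv] at this
  exact inv_fix (h3 this)

theorem VX.lt_iff {μ w : G} (h : VX X μ w) (v : X) : v < μ • v ↔ v < w • v := by
  obtain ⟨h1, h2, h3⟩ := h v
  refine ⟨h1, fun h => ?_⟩
  rcases lt_trichotomy v (μ • v) with h4 | h4 | h4
  · exact h4
  · exact absurd h (by rw [h3 h4.symm]; exact lt_irrefl _)
  · exact absurd h (not_lt.mpr (h2 h4).le)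

theorem VX.gt_iff {μ w : G} (h : VX X μ w) (v : X) : μ • v < v ↔ w • v < v :=
  VX.lt_iff (X := Xᵒᵈ) h.dual v

theorem VX.fix_iff {μ w : G} (h : VX X μ w) (v : X) : μ • v = v ↔ w • v = v := by
  refine ⟨(h v).2.2, fun h1 => ?_⟩
  rcases lt_trichotomy v (μ • v) with h4 | h4 | h4
  · exact absurd ((h v).1 h4) (by rw [h1]; exact lt_irrefl _)
  · exact h4.symm
  · exact absurd ((h v).2.1 h4) (by rw [h1]; exact lt_irrefl _)

theorem WX.le_of (hm : Mono G X) {μ l : G} (hc : Commute μ l) (h : WX X μ (μ * l⁻¹)) {v : X}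
    (hv : v ≤ μ • v) : l • v ≤ μ • v := by
  have h1 : v ≤ (μ * l⁻¹) • v := by
    rcases eq_or_lt_of_le hv with h2 | h2
    · exact ((h v).2.2 h2.symm).ge
    · exact (h v).1 h2
  rw [hc.inv_right.eq, mul_smul] at h1
  have h3 := (hm.le l).mpr h1
  rwa [smul_inv_smul] at h3

theorem WX.fix_of {μ l : G} (h : WX X μ (μ * l⁻¹)) {v : X} (hc : Commute μ l)
    (hv : μ • v = v) : l • v = v := by
  have h1 := (h v).2.2 hv
  rw [hc.inv_right.eq, mul_smul, hv] at h1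
  have := inv_fix h1
  rwa [inv_inv] at this

theorem FConds.dual {x T y S : G} (c : FConds (WX X) (VX X) x T y S) :
    FConds (WX Xᵒᵈ) (VX Xᵒᵈ) x T y S :=
  ⟨c.lnk, c.wx.dual, c.wy.dual, c.sT.dual, c.sS.dual,
    c.alt.imp (fun h => ⟨h.1.dual, h.2.dual⟩) (fun h => h.dual)⟩

theorem Alt.dual {x T y S : G} (c : Alt (WX X) x T y S) : Alt (WX Xᵒᵈ) x T y S := by
  rcases c with ⟨h0, h2⟩ | ⟨P, Q, hP, hQ, h0, h1, h2⟩ | ⟨h1, h3⟩ | ⟨n, hn, h1, h2, h3⟩
  · exact .a h0.dual h2.dual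
  · exact .b P Q hP hQ h0.dual h1.dual h2.dual
  · exact .c h1.dual h3.dual
  · exact .d n hn h1.dual h2.dual h3.dual

theorem Conds.dual {x T y S : G} (c : Conds (WX X) (VX X) x T y S) :
    Conds (WX Xᵒᵈ) (VX Xᵒᵈ) x T y S :=
  ⟨c.lnk, c.wx.dual, c.wy.dual, c.sT.dual, c.sS.dual, c.alt.dual⟩

theorem lnk_swap {x T y S : G} (h : Lnk x T y S) : Lnk y (y * T * y⁻¹) x S⁻¹ := by
  have := Rel.swap h
  have e : (fun i : Fin 4 => ![(0 : ℤ), 0, 0, 0] i) = fun _ => 0 := by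
    funext i; fin_cases i <;> rfl
  rw [e] at this
  exact this

theorem FConds.swap (hm : Mono G X) {x T y S : G} (c : FConds (WX X) (VX X) x T y S) :
    FConds (WX X) (VX X) y (y * T * y⁻¹) x S⁻¹ := by
  have hT' := c.lnk.T'
  have e1 : x * (y * T * y⁻¹) * x⁻¹ * S⁻¹ = T * S⁻¹ := by rw [← hT']; group
  have e2 : (y * T * y⁻¹)⁻¹ * x⁻¹ * (y * T * y⁻¹) * y = (T⁻¹ * y⁻¹ * T * x)⁻¹ := by
    calc (y * T * y⁻¹)⁻¹ * x⁻¹ * (y * T * y⁻¹) * y
        = (x⁻¹ * T * x)⁻¹ * x⁻¹ * (y * T * y⁻¹) * y := by rw [hT']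
      _ = (T⁻¹ * y⁻¹ * T * x)⁻¹ := by group
  have e3 : y * T * y⁻¹ * S⁻¹⁻¹ = y * T * y⁻¹ * S := by rw [inv_inv]
  have e4 : y * x = y * (x * y) * y⁻¹ := by group
  have e5 : y * T * y⁻¹ * (y * x)⁻¹ = y * (T * (x * y)⁻¹) * y⁻¹ := by group
  refine ⟨lnk_swap c.lnk, ?_, ?_, ?_, ?_, ?_⟩
  · rw [e1]; exact c.wy
  · rw [e3]; exact c.wx
  · rw [e4]; exact c.sT.conj hm y
  · rw [e2]; exact c.sS.inv hm
  · rw [e1, e3, e5]
    rcases c.alt with ⟨h1, h2⟩ | h1
    · exact Or.inl ⟨h2, h1⟩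
    · exact Or.inr (h1.conj hm y)

end pt

section comp
variable {G X : Type*} [Group G] [CompleteLinearOrder X] [MulAction G X]
variable {x T y S : G}

/-- A fixed point of `y` is not moved up by `x`. -/
theorem nofix (hm : Mono G X) (c : FConds (WX X) (VX X) x T y S) {f : X}
    (hy : y • f = f) (hx : f < x • f) : False := by
  have h := c.lnk
  have hz : f < (x * y) • f := by rw [mul_smul, hy]; exact hx
  have hT : f < T • f := (c.sT.lt_iff f).mpr hz
  have hmf : (T * S⁻¹) • f = f := c.wy.fix_of h.cy hy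
  have hST : S⁻¹ • f = T⁻¹ • f := by
    have h1 : S⁻¹ • f = T⁻¹ • (T * S⁻¹) • f := by rw [← mul_smul]; congr 1; group
    rw [h1, hmf]
  have hTf : T⁻¹ • f < f := by
    rw [← hm.lt T, smul_inv_smul]; exact hT
  have hyi : y⁻¹ • f = f := inv_fix hy
  have hT' : f < (y * T * y⁻¹) • f := by
    rw [mul_smul, mul_smul, hyi]
    have := (hm.lt y).mpr hT
    rwa [hy] at this
  rcases c.alt with ⟨c0, -⟩ | c1
  · have hS : f < S • f := by
      have := (hm.lt S).mpr (hST ▸ hTf)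
      rwa [smul_inv_smul] at this
    have hl : (y * T * y⁻¹ * S) • f ≤ f := by
      have h1 := (c0 f).1 hx
      have h2 := (hm.le (y * T * y⁻¹ * S)).mpr h1
      rwa [smul_inv_smul] at h2
    have : f < (y * T * y⁻¹ * S) • f := by
      rw [mul_smul]
      exact hT'.trans ((hm.lt _).mpr hS)
    exact absurd hl (not_le.mpr this)
  · have hTz : (x * y) • f ≤ T • f := WX.le_of hm h.cT c1 hT.le
    have hl : (y * T * y⁻¹ * S) • f ≤ x • f := WX.le_of hm h.cx c.wx hx.le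
    rw [mul_smul, hy] at hTz
    -- `l (S⁻¹ f) = T' f > f`
    have hlg : (y * T * y⁻¹ * S) • S⁻¹ • f = (y * T * y⁻¹) • f := by
      rw [mul_smul (y * T * y⁻¹), smul_inv_smul]
    have hlg2 : (y * T * y⁻¹) • f < T • f := by
      rw [← hlg, hST]
      exact lt_of_lt_of_le ((hm.lt _).mpr hTf) (hl.trans hTz)
    -- `x⁻¹ f ≤ l⁻¹ f`
    have hxl : x⁻¹ • f ≤ (y * T * y⁻¹ * S)⁻¹ • f := by
      have hc : Commute x (y * T * y⁻¹ * S) := h.cx
      generalize y * T * y⁻¹ * S = l at hc hl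
      rw [← hm.le l, smul_inv_smul, ← hm.le x, ← mul_smul, ← mul_smul, hc.eq]
      rw [mul_inv_cancel_right]; exact hl
    have step : ∀ u : X, x⁻¹ • f < u → x⁻¹ • f < S⁻¹ • u := by
      intro u hu
      have h1 : f < x • u := by rw [← hm.lt x⁻¹, inv_smul_smul]; exact hu
      have h2 : x • f < T • x • u := lt_of_le_of_lt hTz ((hm.lt T).mpr h1)
      have h3 : f < x⁻¹ • T • x • u := by rw [← hm.lt x, smul_inv_smul]; exact h2
      have h4 : S⁻¹ • u = (y * T * y⁻¹ * S)⁻¹ • x⁻¹ • T • x • u := by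
        rw [← mul_smul, ← mul_smul, ← mul_smul, ← h.T']; congr 1; group
      rw [h4]
      exact lt_of_le_of_lt hxl ((hm.lt _).mpr h3)
    have iter : ∀ k : ℕ, x⁻¹ • f < (S⁻¹) ^ k • f := by
      intro k
      induction k with
      | zero =>
        rw [pow_zero, one_smul, ← hm.lt x, smul_inv_smul]; exact hx
      | succ k ih =>
        rw [pow_succ', mul_smul]; exact step _ ih
    -- `D⁻¹ f < x⁻¹ f`
    have hD : (T⁻¹ * y⁻¹ * T * x)⁻¹ • f < x⁻¹ • f := by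
      have h1 : (T⁻¹ * y⁻¹ * T * x)⁻¹ • f = x⁻¹ • T⁻¹ • (y * T * y⁻¹) • f := by
        rw [mul_smul (y * T), hyi, ← mul_smul, ← mul_smul]; congr 1; group
      rw [h1, hm.lt, ← hm.lt T, smul_inv_smul]
      exact hlg2
    have hV := c.sS
    generalize T⁻¹ * y⁻¹ * T * x = D at hD hV
    -- the infimum of the orbit of `f` under `S⁻¹` is a fixed point of `S`
    set φ : X := ⨅ k : ℕ, (S⁻¹) ^ k • f with hφ
    have h1 : x⁻¹ • f ≤ φ := le_iInf fun k => (iter k).le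
    have h2 : φ ≤ f := by
      have h3 : φ ≤ (S⁻¹) ^ 0 • f := iInf_le (fun k : ℕ => (S⁻¹) ^ k • f) 0
      rwa [pow_zero, one_smul] at h3
    have hSf : S⁻¹ • φ = φ := by
      have e1 : S⁻¹ • φ = ⨅ k : ℕ, (S⁻¹) ^ (k + 1) • f := by
        rw [← iso_apply hm, hφ, (iso hm S⁻¹).map_iInf]
        refine iInf_congr fun k => ?_
        rw [iso_apply, ← mul_smul, ← pow_succ']
      have hdec : S⁻¹ • f ≤ f := by rw [hST]; exact hTf.le
      apply le_antisymm
      · rw [e1, hφ]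
        refine le_iInf fun k => ?_
        refine (iInf_le (fun k : ℕ => (S⁻¹) ^ (k + 1) • f) k).trans ?_
        rw [pow_succ, mul_smul, hm.le]
        exact hdec
      · rw [e1]
        exact le_iInf fun k => iInf_le (fun k : ℕ => (S⁻¹) ^ k • f) (k + 1)
    have hSf' : S • φ = φ := by
      have := inv_fix hSf
      rwa [inv_inv] at this
    have hDf : D • φ = φ := (hV φ).2.2 hSf'
    have h3 : φ ≤ D⁻¹ • f := by
      rw [← hm.le D, smul_inv_smul, hDf]; exact h2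
    exact absurd (lt_of_lt_of_le hD (h1.trans h3)) (lt_irrefl _)

/-- A fixed point of `y` is a fixed point of `x`. -/
theorem fix_x (hm : Mono G X) (c : FConds (WX X) (VX X) x T y S) {f : X}
    (hy : y • f = f) : x • f = f := by
  rcases lt_trichotomy (x • f) f with h1 | h1 | h1
  · exact (nofix (X := Xᵒᵈ) hm.dual c.dual (f := f) hy h1).elim
  · exact h1
  · exact (nofix hm c hy h1).elim

theorem fix_y (hm : Mono G X) (c : FConds (WX X) (VX X) x T y S) {f : X}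
    (hx : x • f = f) : y • f = f :=
  fix_x hm (c.swap hm) hx

theorem fix_T (hm : Mono G X) (c : FConds (WX X) (VX X) x T y S) {f : X}
    (hx : x • f = f) : T • f = f := by
  refine (c.sT.fix_iff f).mpr ?_
  rw [mul_smul, fix_y hm c hx, hx]

theorem fix_S (hm : Mono G X) (c : FConds (WX X) (VX X) x T y S) {f : X}
    (hx : x • f = f) : S • f = f := by
  have h1 := c.wx.fix_of c.lnk.cx hx
  have hy := fix_y hm c hx
  have hT := fix_T hm c hx
  have h2 : S • f = (y * T * y⁻¹)⁻¹ • (y * T * y⁻¹ * S) • f := by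
    rw [← mul_smul]; congr 1; group
  rw [h2, h1]
  refine inv_fix ?_
  rw [mul_smul, mul_smul, inv_fix hy, hT, hy]

open Pool.Agent.W705.Borr in
/-- No point is moved up by `x`. -/
theorem not_up (hm : Mono G X) (c : Conds (WX X) (VX X) x T y S) {s : X}
    (hx : s < x • s) : False := by
  classical
  have h := c.lnk
  -- component of the complement of the set of fixed points
  set A : Set X := {f | f ≤ s ∧ x • f = f} with hA
  set B : Set X := {f | s ≤ f ∧ x • f = f} with hB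
  set α := sSup A with hα
  set β := sInf B with hβ
  have xα : x • α = α := by
    apply le_antisymm
    · rw [← iso_apply hm, hα, (iso hm x).map_sSup]
      refine iSup₂_le fun v hv => ?_
      rw [iso_apply, hv.2]; exact le_sSup hv
    · refine sSup_le fun v hv => ?_
      rw [← hv.2]; exact (hm.le x).mpr (le_sSup hv)
  have xβ : x • β = β := by
    apply le_antisymm
    · refine le_sInf fun v hv => ?_
      rw [← hv.2]; exact (hm.le x).mpr (sInf_le hv)
    · rw [← iso_apply hm, hβ, (iso hm x).map_sInf]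
      refine le_iInf₂ fun v hv => ?_
      rw [iso_apply, hv.2]; exact sInf_le hv
  have hsx : x • s ≠ s := ne_of_gt hx
  have hαs : α < s := by
    refine lt_of_le_of_ne (sSup_le fun v hv => hv.1) ?_
    intro e; rw [e] at xα; exact hsx xα
  have hsβ : s < β := by
    refine lt_of_le_of_ne (le_sInf fun v hv => hv.1) ?_
    intro e; rw [← e] at xβ; exact hsx xβ
  let J : Set X := {v | α < v ∧ v < β}
  have hJs : s ∈ J := ⟨hαs, hsβ⟩
  have hJx : ∀ v ∈ J, x • v ≠ v := by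
    rintro v ⟨h1, h2⟩ e
    rcases le_total v s with h3 | h3
    · exact absurd (le_sSup (show v ∈ A from ⟨h3, e⟩)) (not_le.mpr h1)
    · exact absurd (sInf_le (show v ∈ B from ⟨h3, e⟩)) (not_le.mpr h2)
  have hJy : ∀ v ∈ J, y • v ≠ v := fun v hv e => hJx v hv (fix_x hm c.f e)
  -- signs on `J`
  have pos : ∀ g : G, (∀ v ∈ J, g • v ≠ v) → s < g • s → ∀ v ∈ J, v < g • v := by
    intro g hg hgs v hv
    by_contra hcon
    rw [not_lt] at hcon
    rcases le_total v s with h3 | h3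
    · obtain ⟨t, t1, t2, t3⟩ := ivt (iso hm g) h3 hcon hgs
      exact hg t ⟨lt_of_lt_of_le hv.1 t1, t2.trans hsβ⟩ t3
    · obtain ⟨t, t1, t2, t3⟩ := ivt' (iso hm g) h3 hcon hgs
      exact hg t ⟨hαs.trans t1, lt_of_le_of_lt t2 hv.2⟩ t3
  have px := pos x hJx hx
  -- the stabilizer of the component
  let K : Subgroup G := MulAction.stabilizer G α ⊓ MulAction.stabilizer G β
  have mem : ∀ g : G, g • α = α → g • β = β → g ∈ K := fun g h1 h2 => ⟨h1, h2⟩
  have stab : ∀ g : K, ∀ v ∈ J, (g : G) • v ∈ J := by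
    rintro ⟨g, h1, h2⟩ v hv
    have h1' : g • α = α := h1
    have h2' : g • β = β := h2
    refine ⟨?_, ?_⟩
    · show α < g • v
      rw [← h1']; exact (hm.lt g).mpr hv.1
    · show g • v < β
      rw [← h2']; exact (hm.lt g).mpr hv.2
  let x' : K := ⟨x, mem x xα xβ⟩
  let y' : K := ⟨y, mem y (fix_y hm c.f xα) (fix_y hm c.f xβ)⟩
  let T' : K := ⟨T, mem T (fix_T hm c.f xα) (fix_T hm c.f xβ)⟩
  let S' : K := ⟨S, mem S (fix_S hm c.f xα) (fix_S hm c.f xβ)⟩
  have h' : Lnk x' T' y' S' :=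
    ⟨Subtype.ext h.cT, Subtype.ext h.cx, Subtype.ext h.cy, Subtype.ext h.cS,
      Subtype.ext h.sx, Subtype.ext h.sT, Subtype.ext h.sy, Subtype.ext h.sS⟩
  let _ : Preorder K :=
    { le := fun g k => ∀ v ∈ J, (g : G) • v ≤ (k : G) • v
      le_refl := fun g v _ => le_rfl
      le_trans := fun a b d h1 h2 v hv => (h1 v hv).trans (h2 v hv) }
  have : MulLeftMono K := ⟨fun a g k hgk v hv => by
    show ((a * g : K) : G) • v ≤ ((a * k : K) : G) • v
    rw [Subgroup.coe_mul, Subgroup.coe_mul, mul_smul, mul_smul, hm.le]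
    exact hgk v hv⟩
  have : MulRightMono K := ⟨fun a g k hgk v hv => by
    show ((g * a : K) : G) • v ≤ ((k * a : K) : G) • v
    rw [Subgroup.coe_mul, Subgroup.coe_mul, mul_smul, mul_smul]
    exact hgk _ (stab a v hv)⟩
  have hR : Root K := by
    intro g n hn hgn v hv
    have h1 : ((1 : K) : G) • v ≤ ((g ^ n : K) : G) • v := hgn v hv
    rw [Subgroup.coe_one, one_smul, Subgroup.coe_pow] at h1
    show ((1 : K) : G) • v ≤ (g : G) • v
    rw [Subgroup.coe_one, one_smul]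
    exact hm.root_le hn h1
  have one_le : ∀ g : K, 1 ≤ g ↔ ∀ v ∈ J, v ≤ (g : G) • v := by
    intro g
    refine ⟨fun h v hv => ?_, fun h v hv => ?_⟩
    · have h1 : ((1 : K) : G) • v ≤ (g : G) • v := h v hv
      rwa [Subgroup.coe_one, one_smul] at h1
    · show ((1 : K) : G) • v ≤ (g : G) • v
      rw [Subgroup.coe_one, one_smul]; exact h v hv
  have le_one : ∀ g : K, g ≤ 1 ↔ ∀ v ∈ J, (g : G) • v ≤ v := by
    intro g
    refine ⟨fun h v hv => ?_, fun h v hv => ?_⟩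
    · have h1 : (g : G) • v ≤ ((1 : K) : G) • v := h v hv
      rwa [Subgroup.coe_one, one_smul] at h1
    · show (g : G) • v ≤ ((1 : K) : G) • v
      rw [Subgroup.coe_one, one_smul]; exact h v hv
  have hW : ∀ μ w : K, WX X (μ : G) (w : G) → WK μ w := by
    intro μ w hw
    refine ⟨fun h1 => (one_le w).mpr fun v hv => ?_, fun h1 => (le_one w).mpr fun v hv => ?_⟩
    · rcases eq_or_lt_of_le ((one_le μ).mp h1 v hv) with h2 | h2
      · exact ((hw v).2.2 h2.symm).ge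
      · exact (hw v).1 h2
    · rcases eq_or_lt_of_le ((le_one μ).mp h1 v hv) with h2 | h2
      · exact ((hw v).2.2 h2).le
      · exact (hw v).2.1 h2
  have hV : ∀ μ w : K, VX X (μ : G) (w : G) → VK μ w := by
    intro μ w hw
    have k1 : ∀ v : X, v ≤ (μ : G) • v ↔ v ≤ (w : G) • v := fun v => by
      rw [← not_lt, ← not_lt, hw.gt_iff]
    have k2 : ∀ v : X, (μ : G) • v ≤ v ↔ (w : G) • v ≤ v := fun v => by
      rw [← not_lt, ← not_lt, hw.lt_iff]
    refine ⟨?_, ?_⟩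
    · rw [one_le, one_le]
      exact ⟨fun h v hv => (k1 v).mp (h v hv), fun h v hv => (k1 v).mpr (h v hv)⟩
    · rw [le_one, le_one]
      exact ⟨fun h v hv => (k2 v).mp (h v hv), fun h v hv => (k2 v).mpr (h v hv)⟩
  have c' : Conds WK VK x' T' y' S' := by
    refine ⟨h', hW _ _ c.wx, hW _ _ c.wy, hV _ _ c.sT, hV _ _ c.sS, ?_⟩
    rcases c.alt with ⟨h0, h2⟩ | ⟨P, Q, hP, hQ, h0, h1, h2⟩ | ⟨h1, h3⟩ | ⟨n, hn, h1, h2, h3⟩
    · exact .a (hW _ _ h0) (hW _ _ h2)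
    · refine .b P Q hP hQ (hW _ _ ?_) (hW _ _ h1) (hW _ _ ?_)
      · rw [Subgroup.coe_mul, Subgroup.coe_zpow, Subgroup.coe_zpow]; exact h0
      · rw [Subgroup.coe_mul, Subgroup.coe_zpow, Subgroup.coe_zpow]; exact h2
    · exact .c (hW _ _ h1) (hW _ _ h3)
    · refine .d n hn (hW _ _ h1) (hW _ _ ?_) (hW _ _ ?_)
      · rw [Subgroup.coe_mul, Subgroup.coe_zpow]; exact h2
      · rw [Subgroup.coe_mul, Subgroup.coe_zpow]; exact h3
  have hx1 : (1 : K) ≤ x' := (one_le x').mpr fun v hv => (px v hv).le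
  have hx2 : ¬ x' ≤ (1 : K) := fun hle => absurd hx (not_lt.mpr ((le_one x').mp hle s hJs))
  rcases lt_or_gt_of_ne (hJy s hJs) with hys | hys
  · -- `y` moves down
    have ny : ∀ v ∈ J, y • v < v := by
      have hyi : ∀ v ∈ J, y⁻¹ • v ≠ v := by
        intro v hv e
        exact hJy v hv (by have := inv_fix e; rwa [inv_inv] at this)
      have h1 := pos y⁻¹ hyi (by rw [← hm.lt y, smul_inv_smul]; exact hys)
      intro v hv
      have := h1 v hv
      rwa [← hm.lt y, smul_inv_smul] at this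
    exact updown hR c' hx1 ((le_one y').mpr fun v hv => (ny v hv).le) hx2
  · -- `y` moves up
    have py := pos y hJy hys
    exact upup c' hx1 ((one_le y').mpr fun v hv => (py v hv).le) hx2
      fun hle => absurd hys (not_lt.mpr ((le_one y').mp hle s hJs))

/-- Everything acts trivially. -/
theorem all_fix (hm : Mono G X) (c : Conds (WX X) (VX X) x T y S) (s : X) :
    x • s = s ∧ T • s = s ∧ y • s = s ∧ S • s = s := by
  have hx : x • s = s := by
    rcases lt_trichotomy (x • s) s with h1 | h1 | h1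
    · exact (not_up (X := Xᵒᵈ) hm.dual c.dual (s := s) h1).elim
    · exact h1
    · exact (not_up hm c h1).elim
  exact ⟨hx, fix_T hm c.f hx, fix_y hm c.f hx, fix_S hm c.f hx⟩

end comp

end Pool.Agent.Q138.LO.Four
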