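import Pool.Agent.Q138.LO.Seif

set_option autoImplicit false

/-!
# Gluing pieces to the boundary tori of a 3-manifold, on the level of fundamental groups
-/

namespace Pool.Agent.Q138.LO

open Pool.Agent.Y479.LS

/-- A left-orderable group acts faithfully on a complete linear order. -/
theorem exists_act {H : Type} [Group H] (hH : LeftOrderable H) :
    ∃ (X : Type) (_ : CompleteLinearOrder X) (ρ : H →* (X ≃o X)), ∀ g, (∀ x, ρ g x = x) → g = 1 := by
  classical
  obtain ⟨_, lt, hlt, hinv⟩ := hH
  let _ : LinearOrder H := linearOrderOfSTO lt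
  have hinv' : ∀ a b c : H, a ≤ b ↔ c * a ≤ c * b := by
    intro a b c
    show (a = b ∨ lt a b) ↔ (c * a = c * b ∨ lt (c * a) (c * b))
    rw [mul_right_inj, ← hinv]
  refine ⟨LowerSet H, inferInstance,
    { toFun := Pool.Agent.W705.Borr.act hinv'
      map_one' := by
        refine DFunLike.ext _ _ fun x => ?_
        exact Pool.Agent.W705.Borr.act_one hinv' x
      map_mul' := fun a b => by
        refine DFunLike.ext _ _ fun x => ?_
        exact Pool.Agent.W705.Borr.act_mul hinv' a b x }, ?_⟩
  intro g hg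
  exact Pool.Agent.W705.Borr.eq_one_of_act hinv' g hg

section glue

variable {Γ : Type} (R : Set (FreeGroup Γ)) {C : Type} (P : C → Piece) (U V : C → FreeGroup Γ)

/-- An element of the base, as a word in all generators. -/
def baseWord (P : C → Piece) : FreeGroup Γ →* FreeGroup (Γ ⊕ (Σ c, (P c).K)) :=
  FreeGroup.map Sum.inl

/-- The generator that belongs to an element of a piece. -/
def pieceGen (P : C → Piece) (c : C) (k : (P c).K) : FreeGroup (Γ ⊕ (Σ c, (P c).K)) :=
  FreeGroup.of (Sum.inr ⟨c, k⟩)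

/-- The relators: those of the base, the multiplication tables of the pieces, and the identification
of `u`, `v` with the basis `U c`, `V c` of the fundamental group of the boundary torus `c`. -/
def glueRel : Set (FreeGroup (Γ ⊕ (Σ c, (P c).K))) :=
  {r | (∃ w ∈ R, r = baseWord P w) ∨
    (∃ c k k', r = pieceGen P c k * pieceGen P c k' * (pieceGen P c (k * k'))⁻¹) ∨
    (∃ c, r = (pieceGen P c (P c).u)⁻¹ * baseWord P (U c)) ∨
    (∃ c, r = (pieceGen P c (P c).v)⁻¹ * baseWord P (V c))}

/-- The fundamental group of the manifold obtained from a manifold with fundamental group `⟨Γ | R⟩`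
by gluing the piece `P c` to the boundary torus with the basis `U c`, `V c`, for all `c`. -/
abbrev GlueGroup : Type := PresentedGroup (glueRel R P U V)

variable {R P U V} {H : Type} [Group H]

theorem glue_maps (f : GlueGroup R P U V →* H) :
    ∃ (b : FreeGroup Γ →* H) (φ : ∀ c, (P c).K →* H), (∀ r ∈ R, b r = 1) ∧
      (∀ c, φ c (P c).u = b (U c)) ∧ (∀ c, φ c (P c).v = b (V c)) ∧
      ((∀ γ, b (FreeGroup.of γ) = 1) → (∀ c k, φ c k = 1) → ∀ g, f g = 1) := by
  set F : FreeGroup (Γ ⊕ (Σ c, (P c).K)) →* H := f.comp (PresentedGroup.mk _) with hF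
  have hrel : ∀ r ∈ glueRel R P U V, F r = 1 := by
    intro r hr
    show f (PresentedGroup.mk (glueRel R P U V) r) = 1
    rw [show PresentedGroup.mk (glueRel R P U V) r = 1 from PresentedGroup.one_of_mem hr, map_one]
  have hmul : ∀ c (k k' : (P c).K), F (pieceGen P c (k * k')) =
      F (pieceGen P c k) * F (pieceGen P c k') := by
    intro c k k'
    have := hrel _ (Or.inr (Or.inl ⟨c, k, k', rfl⟩))
    rw [map_mul, map_mul, map_inv, mul_inv_eq_one] at this
    exact this.symm
  refine ⟨F.comp (baseWord P), fun c => MonoidHom.mk' (fun k => F (pieceGen P c k)) (hmul c),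
    ?_, ?_, ?_, ?_⟩
  · intro r hr
    exact hrel _ (Or.inl ⟨r, hr, rfl⟩)
  · intro c
    have := hrel _ (Or.inr (Or.inr (Or.inl ⟨c, rfl⟩)))
    rw [map_mul, map_inv, inv_mul_eq_one] at this
    exact this
  · intro c
    have := hrel _ (Or.inr (Or.inr (Or.inr ⟨c, rfl⟩)))
    rw [map_mul, map_inv, inv_mul_eq_one] at this
    exact this
  · intro h1 h2 g
    have h3 : f = 1 := by
      apply PresentedGroup.ext
      rintro (γ | ⟨c, k⟩)
      · exact h1 γ
      · exact h2 c k
    rw [h3]; rfl

/-- The reduction to actions of the base. `Q c` is a property of `u`, `v` in all actions of the piece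
`P c`. -/
theorem glue_trivial
    (Q : C → ∀ (X : Type) [LinearOrder X], (X ≃o X) → (X ≃o X) → Prop)
    (hQ : ∀ (c : C) (X : Type) [LinearOrder X] (φ : (P c).K →* (X ≃o X)),
      Q c X (φ (P c).u) (φ (P c).v))
    (hfix : ∀ (c : C) (X : Type) [LinearOrder X] (φ : (P c).K →* (X ≃o X)) (x : X),
      φ (P c).u x = x → φ (P c).v x = x → ∀ k, φ k x = x)
    (key : ∀ (X : Type) [CompleteLinearOrder X] (β : FreeGroup Γ →* (X ≃o X)),
      (∀ r ∈ R, β r = 1) → (∀ c, Q c X (β (U c)) (β (V c))) → ∀ x γ, β (FreeGroup.of γ) x = x) :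
    (∀ (H : Type) [Group H], LeftOrderable H → ∀ (f : GlueGroup R P U V →* H) g, f g = 1) ∧
      ¬ LeftOrderable (GlueGroup R P U V) := by
  have main : ∀ (H : Type) [Group H], LeftOrderable H →
      ∀ (f : GlueGroup R P U V →* H) g, f g = 1 := by
    intro H _ hH f
    obtain ⟨X, hX, ρ, hρ⟩ := exists_act hH
    obtain ⟨b, φ, h1, h2, h3, h4⟩ := glue_maps f
    have k1 := key X (ρ.comp b) (fun r hr => by
      rw [MonoidHom.comp_apply, h1 r hr, map_one]) (fun c => by
      have := hQ c X (ρ.comp (φ c))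
      rwa [MonoidHom.comp_apply, MonoidHom.comp_apply, h2, h3] at this)
    have k2 : ∀ (w : FreeGroup Γ) x, ρ (b w) x = x := by
      intro w x
      refine fix_of_gen (ρ.comp b) x (Set.range FreeGroup.of) (FreeGroup.closure_range_of Γ) ?_ w
      rintro _ ⟨γ, rfl⟩
      exact k1 x γ
    refine h4 (fun γ => hρ _ (k1 · γ)) fun c k => hρ _ fun x => ?_
    have := hfix c X (ρ.comp (φ c)) x (by rw [MonoidHom.comp_apply, h2]; exact k2 _ x)
      (by rw [MonoidHom.comp_apply, h3]; exact k2 _ x) k
    exact this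
  refine ⟨main, fun hG => ?_⟩
  obtain ⟨a, b, hab⟩ := hG.1
  have key' := main _ hG (MonoidHom.id _)
  exact hab (by
    have h1 := key' a
    have h2 := key' b
    simp only [MonoidHom.id_apply] at h1 h2
    rw [h1, h2])

end glue

/-! ### Standard pieces -/

/-- Solid tori, twisted interval bundles over the Klein bottle, and Seifert fibred spaces over the
disc, with a pair of peripheral elements. -/
inductive Filling
  /-- the `p`-th and `q`-th power of the core of the solid torus -/
  | solid (p q : ℕ)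
  /-- `y ^ i * x ^ (2 * j)`, `y ^ k * x ^ (2 * l)` in `⟨x, y | x y x⁻¹ = y⁻¹⟩` -/
  | klein (i j k l : ℤ)
  /-- `c ^ i * h ^ j`, `c ^ k * h ^ l`, where `c = c 0 ⋯ c (n-1)` and `c s ^ α s = h ^ β s` -/
  | seifert (n : ℕ) (α β : Fin n → ℕ) (i j k l : ℤ)

/-- The fundamental group with the two peripheral elements. -/
def Filling.piece : Filling → Piece
  | solid p q => ⟨Multiplicative ℤ, Multiplicative.ofAdd (p : ℤ), Multiplicative.ofAdd (q : ℤ)⟩
  | klein i j k l => ⟨KleinGroup, ky ^ i * kx ^ (2 * j), ky ^ k * kx ^ (2 * l)⟩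
  | seifert n α β i j k l => ⟨SeifGroup n α β, sc n α β ^ i * sh n α β ^ j,
      sc n α β ^ k * sh n α β ^ l⟩

/-- The two peripheral elements are on the same side of all slopes that can be seen by orders. -/
def Filling.Positive : Filling → Prop
  | solid p q => 1 ≤ p ∧ 1 ≤ q
  | klein _ j _ l => 1 ≤ j ∧ 1 ≤ l
  | seifert n α β i j k l => 2 ≤ n ∧ (∀ s, 0 < β s) ∧ (∀ s, β s < α s) ∧ InCone α β i j ∧
      InCone α β k l

theorem Filling.Positive.good {F : Filling} (hF : F.Positive) : Good F.piece.u F.piece.v := by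
  cases F with
  | solid p q => exact solid_good hF.1 hF.2
  | klein i j k l => exact klein_good i k hF.1 hF.2
  | seifert n α β i j k l => exact seif_good hF.1 hF.2.1 hF.2.2.1 hF.2.2.2.1 hF.2.2.2.2

end Pool.Agent.Q138.LO
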