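import Pool.Agent.Q138.LO.Glue

set_option autoImplicit false

/-!
# Marked pieces

A marked piece is a piece together with the elements `u`, `v` to which the meridian and the longitude
of a boundary torus are glued.
-/

namespace Pool.Agent.Q138.LO

/-- In every action on a linear order `w` moves no point in the direction opposite to `u`, and the
fixed points of `u` are fixed by the group. -/
def WeakPair {K : Type} [Group K] (u w : K) : Prop :=
  ∀ (X : Type) [LinearOrder X] (φ : K →* (X ≃o X)) (x : X),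
    (x < φ u x → x ≤ φ w x) ∧ (φ u x < x → φ w x ≤ x) ∧ (φ u x = x → ∀ k, φ k x = x)

/-- In every action on a linear order `w` moves every point that is moved by `u`, in the direction of
`u`, and the fixed points of `u` are fixed by the group. -/
def StrictPair {K : Type} [Group K] (u w : K) : Prop :=
  ∀ (X : Type) [LinearOrder X] (φ : K →* (X ≃o X)) (x : X),
    (x < φ u x → x < φ w x) ∧ (φ u x < x → φ w x < x) ∧ (φ u x = x → ∀ k, φ k x = x)

/-- In every action of the group of the piece on a linear order `u ^ a * v ^ b` moves no point in the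
direction opposite to `u`, and the fixed points of `u` are fixed by the group. -/
def Weak (P : Piece) (a b : ℤ) : Prop := WeakPair P.u (P.u ^ a * P.v ^ b)

/-- In every action of the group of the piece on a linear order `u ^ a * v ^ b` moves every point that
is moved by `u`, in the direction of `u`, and the fixed points of `u` are fixed by the group. -/
def Strict (P : Piece) (a b : ℤ) : Prop := StrictPair P.u (P.u ^ a * P.v ^ b)

theorem Strict.weak {P : Piece} {a b : ℤ} (h : Strict P a b) : Weak P a b := by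
  intro X _ φ x
  obtain ⟨h1, h2, h3⟩ := h X φ x
  exact ⟨fun h => (h1 h).le, fun h => (h2 h).le, h3⟩

/-- Solid tori, twisted interval bundles over the Klein bottle, and Seifert fibred spaces over the
disc, with the images of the meridian and the longitude of the torus to which they are glued. -/
inductive Mark
  /-- the solid torus of slope `p / q`: the meridian and the longitude are the powers `q`, `- p` of
  the core -/
  | solid (p q : ℤ)
  /-- `y ^ i * x ^ (2 * j)`, `y ^ k * x ^ (2 * l)` in `⟨x, y | x y x⁻¹ = y⁻¹⟩` -/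
  | klein (i j k l : ℤ)
  /-- `c ^ i * h ^ j`, `c ^ k * h ^ l`, where `c = c 0 ⋯ c (n-1)` and `c s ^ α s = h ^ β s` -/
  | seifert (n : ℕ) (α β : Fin n → ℕ) (i j k l : ℤ)

/-- The fundamental group with the two peripheral elements. -/
def Mark.piece : Mark → Piece
  | solid p q => ⟨Multiplicative ℤ, Multiplicative.ofAdd q, Multiplicative.ofAdd (-p)⟩
  | klein i j k l => ⟨KleinGroup, ky ^ i * kx ^ (2 * j), ky ^ k * kx ^ (2 * l)⟩
  | seifert n α β i j k l => ⟨SeifGroup n α β, sc n α β ^ i * sh n α β ^ j,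
      sc n α β ^ k * sh n α β ^ l⟩

/-- The parameters are admissible, and the meridian is on the positive side. -/
def Mark.Ok : Mark → Prop
  | solid _ q => 1 ≤ q
  | klein _ j _ _ => 1 ≤ j
  | seifert n α β i j _ _ => 2 ≤ n ∧ (∀ s, 0 < β s) ∧ (∀ s, β s < α s) ∧ InCone α β i j

/-- The product of the `a`-th power of the meridian and the `b`-th power of the longitude is on the
positive side (of all slopes seen by orders). -/
def Mark.Pos (a b : ℤ) : Mark → Prop
  | solid p q => 0 < a * q - b * p
  | klein _ j _ l => 1 ≤ a * j + b * l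
  | seifert _ α β i j k l => InCone α β (a * i + b * k) (a * j + b * l)

/-- The same with the additional possibility that the product is trivial in a solid torus. -/
def Mark.NonNeg (a b : ℤ) : Mark → Prop
  | solid p q => 0 ≤ a * q - b * p
  | klein _ j _ l => 1 ≤ a * j + b * l
  | seifert _ α β i j k l => InCone α β (a * i + b * k) (a * j + b * l)

theorem klein_comm : Commute ky (kx ^ (2 : ℤ)) := by
  have h1 : kx * ky * kx⁻¹ = ky⁻¹ := klein_rel
  have h2 : kx * ky⁻¹ * kx⁻¹ = ky := by
    calc kx * ky⁻¹ * kx⁻¹ = (kx * ky * kx⁻¹)⁻¹ := by group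
      _ = ky := by rw [h1, inv_inv]
  show ky * kx ^ (2 : ℤ) = kx ^ (2 : ℤ) * ky
  rw [zpow_two]
  have h3 : ky * kx = kx * ky⁻¹ := by rw [← mul_inv_eq_iff_eq_mul.mp h2]
  have h4 : ky⁻¹ * kx = kx * ky := by rw [← mul_inv_eq_iff_eq_mul.mp h1]
  rw [← mul_assoc, h3, mul_assoc, h4]
  exact (mul_assoc _ _ _).symm

theorem seif_pcomm (n : ℕ) (α β : Fin n → ℕ) : Commute (sc n α β) (sh n α β) := by
  unfold sc
  refine Commute.list_prod_left _ _ fun g hg => ?_
  obtain ⟨t, rfl⟩ := (List.mem_ofFn' _ g).mp hg
  exact seif_comm t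

/-- Products of powers of two elements of the subgroup generated by commuting `s`, `t`. -/
theorem comm_word {G : Type*} [Group G] {s t : G} (h : Commute s t) (i j k l a b : ℤ) :
    (s ^ i * t ^ j) ^ a * (s ^ k * t ^ l) ^ b = s ^ (a * i + b * k) * t ^ (a * j + b * l) := by
  have h1 : ∀ i j a : ℤ, (s ^ i * t ^ j) ^ a = s ^ (a * i) * t ^ (a * j) := by
    intro i j a
    rw [((h.zpow_zpow i j)).mul_zpow, ← zpow_mul, ← zpow_mul, mul_comm i, mul_comm j]
  rw [h1, h1, zpow_add, zpow_add]
  have h2 : t ^ (a * j) * s ^ (b * k) = s ^ (b * k) * t ^ (a * j) :=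
    ((h.zpow_zpow (b * k) (a * j)).eq).symm
  calc s ^ (a * i) * t ^ (a * j) * (s ^ (b * k) * t ^ (b * l))
      = s ^ (a * i) * (t ^ (a * j) * s ^ (b * k)) * t ^ (b * l) := by group
    _ = s ^ (a * i) * (s ^ (b * k) * t ^ (a * j)) * t ^ (b * l) := by rw [h2]
    _ = _ := by group

theorem strict_of_good {P : Piece} {a b : ℤ} (h : Good P.u (P.u ^ a * P.v ^ b)) :
    Strict P a b := by
  intro X _ φ x
  obtain ⟨h1, h2, h3⟩ := h X φ x
  refine ⟨fun h => ?_, fun h => ?_, h3⟩
  · by_contra hcon
    exact absurd (h1.mpr (not_lt.mp hcon)) (not_le.mpr h)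
  · by_contra hcon
    exact absurd (h2.mpr (not_lt.mp hcon)) (not_le.mpr h)

theorem solid_word (p q a b : ℤ) : (Multiplicative.ofAdd q) ^ a * (Multiplicative.ofAdd (-p)) ^ b =
    Multiplicative.ofAdd (a * q - b * p) := by
  rw [← ofAdd_zsmul, ← ofAdd_zsmul, ← ofAdd_add]
  congr 1
  simp only [smul_eq_mul]
  ring

theorem solid_one {X : Type} [LinearOrder X] (φ : Multiplicative ℤ →* (X ≃o X)) {x : X} {q : ℤ}
    (hq : 1 ≤ q) (h : φ (Multiplicative.ofAdd q) x = x) (k : Multiplicative ℤ) : φ k x = x := by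
  obtain ⟨n, rfl⟩ : ∃ n : ℕ, q = n := ⟨q.toNat, by omega⟩
  rw [ofAdd_nat n, map_pow] at h
  have h1 := eq_of_pow (by omega) h
  refine fix_of_gen φ x {Multiplicative.ofAdd (1 : ℤ)} ?_ ?_ k
  · rw [Subgroup.eq_top_iff']
    intro k
    rw [Subgroup.mem_closure_singleton]
    exact ⟨Multiplicative.toAdd k, by rw [← ofAdd_zsmul]; simp⟩
  · intro s hs
    rw [Set.mem_singleton_iff.mp hs]; exact h1

theorem Mark.strict {F : Mark} {a b : ℤ} (h0 : F.Ok) (h : F.Pos a b) : Strict F.piece a b := by
  cases F with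
  | solid p q =>
    refine strict_of_good ?_
    have h1 : (1 : ℤ) ≤ a * q - b * p := h
    have hq : (1 : ℤ) ≤ q := h0
    obtain ⟨n, hn⟩ : ∃ n : ℕ, q = n := ⟨q.toNat, by omega⟩
    obtain ⟨m, hm⟩ : ∃ m : ℕ, a * q - b * p = m := ⟨(a * q - b * p).toNat, by omega⟩
    show Good (Multiplicative.ofAdd q) ((Multiplicative.ofAdd q) ^ a *
      (Multiplicative.ofAdd (-p)) ^ b)
    rw [solid_word, hm, hn]
    exact solid_good (by omega) (by omega)
  | klein i j k l =>
    refine strict_of_good ?_
    show Good (ky ^ i * kx ^ (2 * j)) ((ky ^ i * kx ^ (2 * j)) ^ a * (ky ^ k * kx ^ (2 * l)) ^ b)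
    have e : (ky ^ i * kx ^ (2 * j)) ^ a * (ky ^ k * kx ^ (2 * l)) ^ b =
        ky ^ (a * i + b * k) * kx ^ (2 * (a * j + b * l)) := by
      have := comm_word klein_comm i j k l a b
      rwa [← zpow_mul, ← zpow_mul, ← zpow_mul] at this
    rw [e]
    exact klein_good i _ h0 h
  | seifert n α β i j k l =>
    refine strict_of_good ?_
    obtain ⟨hn, h1, h2, h3⟩ := h0
    show Good (sc n α β ^ i * sh n α β ^ j) ((sc n α β ^ i * sh n α β ^ j) ^ a *
      (sc n α β ^ k * sh n α β ^ l) ^ b)
    rw [comm_word (seif_pcomm n α β)]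
    exact seif_good hn h1 h2 h3 h

theorem Mark.weak {F : Mark} {a b : ℤ} (h0 : F.Ok) (h : F.NonNeg a b) : Weak F.piece a b := by
  cases F with
  | solid p q =>
    have h1 : 0 ≤ a * q - b * p := h
    rcases lt_or_eq_of_le h1 with h2 | h2
    · exact (Mark.strict (F := .solid p q) h0 h2).weak
    · intro X _ φ x
      have e : (Multiplicative.ofAdd q) ^ a * (Multiplicative.ofAdd (-p)) ^ b =
          (1 : Multiplicative ℤ) := by
        rw [solid_word, ← h2]; rfl
      have e1 : φ ((Mark.solid p q).piece.u ^ a * (Mark.solid p q).piece.v ^ b) = 1 := by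
        show φ ((Multiplicative.ofAdd q) ^ a * (Multiplicative.ofAdd (-p)) ^ b) = 1
        rw [e]; exact MonoidHom.map_one φ
      rw [e1]
      exact ⟨fun _ => le_rfl, fun _ => le_rfl, fun h => solid_one φ h0 h⟩
  | klein i j k l => exact (Mark.strict (F := .klein i j k l) h0 h).weak
  | seifert n α β i j k l => exact (Mark.strict (F := .seifert n α β i j k l) h0 h).weak

end Pool.Agent.Q138.LO
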