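import Pool.Agent.Y479.LS.Aut

set_option autoImplicit false

/-!
# Pieces with torus boundary whose orders see only positive slopes
-/

namespace Pool.Agent.Q138.LO

open Pool.Agent.Y479.LS Aut

/-- A group `K` with two elements `u`, `v`: the fundamental group of a compact orientable 3-manifold
whose boundary is a torus, and the images of a basis of the fundamental group of the torus. -/
structure Piece where
  K : Type
  [grp : Group K]
  u : K
  v : K

attribute [instance] Piece.grp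

/-- In every action of `K` by order automorphisms of a linear order `u` and `v` move every point in
the same direction, and the points fixed by `u` are fixed by `K`. -/
def Good {K : Type} [Group K] (u v : K) : Prop :=
  ∀ (X : Type) [LinearOrder X] (φ : K →* (X ≃o X)) (x : X),
    (φ u x ≤ x ↔ φ v x ≤ x) ∧ (x ≤ φ u x ↔ x ≤ φ v x) ∧ (φ u x = x → ∀ k, φ k x = x)

section basics

variable {X : Type*} [LinearOrder X]

theorem mul_ap (f g : X ≃o X) (x : X) : (f * g) x = f (g x) := rfl
theorem one_ap (x : X) : (1 : X ≃o X) x = x := rfl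
theorem inv_self' (f : X ≃o X) (x : X) : f⁻¹ (f x) = x := by
  rw [← mul_ap, inv_mul_cancel, one_ap]
theorem self_inv' (f : X ≃o X) (x : X) : f (f⁻¹ x) = x := by
  rw [← mul_ap, mul_inv_cancel, one_ap]

theorem pow_le' {g : X ≃o X} {r : X} (h : g r ≤ r) (n : ℕ) : (g ^ n) r ≤ r := by
  induction n with
  | zero => rw [pow_zero, one_ap]
  | succ n ih => rw [pow_succ', mul_ap]; exact (g.monotone ih).trans h

theorem le_pow' {g : X ≃o X} {r : X} (h : r ≤ g r) (n : ℕ) : r ≤ (g ^ n) r := by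
  induction n with
  | zero => rw [pow_zero, one_ap]
  | succ n ih => rw [pow_succ', mul_ap]; exact h.trans (g.monotone ih)

theorem lt_pow' {g : X ≃o X} {r : X} (h : r < g r) {n : ℕ} (hn : 1 ≤ n) : r < (g ^ n) r := by
  obtain ⟨k, rfl⟩ := Nat.exists_eq_add_of_le' hn
  rw [pow_succ', mul_ap]
  exact lt_of_lt_of_le h (g.monotone (le_pow' h.le k))

theorem pow_lt' {g : X ≃o X} {r : X} (h : g r < r) {n : ℕ} (hn : 1 ≤ n) : (g ^ n) r < r := by
  obtain ⟨k, rfl⟩ := Nat.exists_eq_add_of_le' hn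
  rw [pow_succ', mul_ap]
  exact lt_of_le_of_lt (g.monotone (pow_le' h.le k)) h

theorem eq_of_pow {g : X ≃o X} {r : X} {n : ℕ} (hn : 1 ≤ n) (h : (g ^ n) r = r) : g r = r := by
  rcases lt_trichotomy (g r) r with h1 | h1 | h1
  · exact absurd h (ne_of_lt (pow_lt' h1 hn))
  · exact h1
  · exact absurd h (ne_of_gt (lt_pow' h1 hn))

theorem pow_fix {g : X ≃o X} {r : X} (h : g r = r) (n : ℕ) : (g ^ n) r = r :=
  le_antisymm (pow_le' h.le n) (le_pow' h.ge n)

/-- The action on the reversed order. -/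
def dualHom {K : Type*} [Group K] (φ : K →* (X ≃o X)) : K →* (Xᵒᵈ ≃o Xᵒᵈ) where
  toFun k := (φ k).dual
  map_one' := by rw [map_one]; rfl
  map_mul' k l := by rw [map_mul]; rfl

theorem fix_of_gen {K : Type*} [Group K] (φ : K →* (X ≃o X)) (x : X) (S : Set K)
    (hS : Subgroup.closure S = ⊤) (h : ∀ s ∈ S, φ s x = x) (k : K) : φ k x = x := by
  have hk : k ∈ Subgroup.closure S := by rw [hS]; exact Subgroup.mem_top k
  induction hk using Subgroup.closure_induction with
  | mem s hs => exact h s hs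
  | one => rw [map_one]; rfl
  | mul a b _ _ ha hb => rw [map_mul, mul_ap, hb, ha]
  | inv a _ ha =>
    rw [map_inv]
    have := congrArg ((φ a)⁻¹ : X ≃o X) ha
    rw [inv_self'] at this
    exact this.symm

end basics

/-- If the points moved up by `g` are moved up by `u` and `v` and the fixed points of `g` are fixed by
all of `K` then the pair is good. -/
theorem good_of {K : Type} [Group K] {u v : K} (g : K)
    (h1 : ∀ (X : Type) [LinearOrder X] (φ : K →* (X ≃o X)) (x : X), x < φ g x →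
      x < φ u x ∧ x < φ v x)
    (h2 : ∀ (X : Type) [LinearOrder X] (φ : K →* (X ≃o X)) (x : X), φ g x = x →
      ∀ k, φ k x = x) : Good u v := by
  intro X _ φ x
  rcases lt_trichotomy (φ g x) x with h | h | h
  · obtain ⟨a, b⟩ := h1 Xᵒᵈ (dualHom φ) (OrderDual.toDual x) h
    have a' : φ u x < x := a
    have b' : φ v x < x := b
    exact ⟨⟨fun _ => b'.le, fun _ => a'.le⟩, ⟨fun h => absurd h (not_le.mpr a'),
      fun h => absurd h (not_le.mpr b')⟩, fun h => absurd h (ne_of_lt a')⟩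
  · have h3 := h2 X φ x h
    rw [h3 u, h3 v]
    exact ⟨Iff.rfl, Iff.rfl, fun _ => h3⟩
  · obtain ⟨a, b⟩ := h1 X φ x h
    exact ⟨⟨fun h => absurd h (not_le.mpr a), fun h => absurd h (not_le.mpr b)⟩,
      ⟨fun _ => b.le, fun _ => a.le⟩, fun h => absurd h (ne_of_gt a)⟩

/-! ### Solid tori -/

theorem ofAdd_nat (n : ℕ) : Multiplicative.ofAdd (n : ℤ) = (Multiplicative.ofAdd (1 : ℤ)) ^ n := by
  rw [← ofAdd_nsmul]; simp

/-- The solid torus: `u`, `v` are the `p`-th and `q`-th power of the core. -/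
theorem solid_good {p q : ℕ} (hp : 1 ≤ p) (hq : 1 ≤ q) :
    Good (Multiplicative.ofAdd (p : ℤ)) (Multiplicative.ofAdd (q : ℤ)) := by
  refine good_of (Multiplicative.ofAdd (1 : ℤ)) ?_ ?_
  · intro X _ φ x hx
    rw [ofAdd_nat p, ofAdd_nat q, map_pow, map_pow]
    exact ⟨lt_pow' hx hp, lt_pow' hx hq⟩
  · intro X _ φ x hx
    refine fix_of_gen φ x {Multiplicative.ofAdd (1 : ℤ)} ?_ ?_
    · rw [Subgroup.eq_top_iff']
      intro k
      rw [Subgroup.mem_closure_singleton]
      exact ⟨Multiplicative.toAdd k, by rw [← ofAdd_zsmul]; simp⟩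
    · intro s hs
      rw [Set.mem_singleton_iff.mp hs]; exact hx

/-! ### The twisted interval bundle over the Klein bottle -/

/-- The fundamental group `⟨x, y | x y x⁻¹ = y⁻¹⟩` of the Klein bottle. -/
abbrev KleinGroup : Type :=
  PresentedGroup ({FreeGroup.of 0 * FreeGroup.of 1 * (FreeGroup.of 0)⁻¹ * FreeGroup.of 1} :
    Set (FreeGroup (Fin 2)))

def kx : KleinGroup := PresentedGroup.of 0
def ky : KleinGroup := PresentedGroup.of 1

theorem klein_rel : kx * ky * kx⁻¹ = ky⁻¹ := by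
  have h : (PresentedGroup.mk ({FreeGroup.of 0 * FreeGroup.of 1 * (FreeGroup.of 0)⁻¹ *
      FreeGroup.of 1} : Set (FreeGroup (Fin 2)))) (FreeGroup.of 0 * FreeGroup.of 1 *
      (FreeGroup.of 0)⁻¹ * FreeGroup.of 1) = 1 := PresentedGroup.one_of_mem (Set.mem_singleton _)
  rw [map_mul, map_mul, map_mul, map_inv] at h
  exact eq_inv_of_mul_eq_one_left h

section klein

variable {X : Type*} [LinearOrder X] {x y : X ≃o X}

theorem klein_conj (h : x * y * x⁻¹ = y⁻¹) (n : ℤ) : x * y ^ n = y ^ (-n) * x := by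
  have h1 : x * y ^ n * x⁻¹ = (x * y * x⁻¹) ^ n := by rw [conj_zpow]
  rw [h] at h1
  rw [zpow_neg, ← inv_zpow, ← h1]; group

theorem klein_conj' (h : x * y * x⁻¹ = y⁻¹) (n : ℤ) : x⁻¹ * y ^ n = y ^ (-n) * x⁻¹ := by
  have h5 := klein_conj h (-n)
  rw [neg_neg] at h5
  calc x⁻¹ * y ^ n = x⁻¹ * (y ^ n * x) * x⁻¹ := by group
    _ = x⁻¹ * (x * y ^ (-n)) * x⁻¹ := by rw [h5]
    _ = y ^ (-n) * x⁻¹ := by group

/-- Where `x` moves a point up, all powers of `y` move it less than `x`. -/
theorem klein_small (h : x * y * x⁻¹ = y⁻¹) {p : X} (hp : p < x p) (n : ℤ) :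
    (y ^ n) p < x p := by
  by_contra hcon
  rw [not_lt] at hcon
  have h3 : x⁻¹ p < p := by
    have := (x⁻¹ : X ≃o X).strictMono hp
    rwa [inv_self'] at this
  have h5 : p ≤ (y ^ (-n)) (x⁻¹ p) := by
    rw [← mul_ap, ← klein_conj' h, mul_ap]
    have := (x⁻¹ : X ≃o X).monotone hcon
    rwa [inv_self'] at this
  have h6 : (y ^ n) p ≤ x⁻¹ p := by
    have := (y ^ n).monotone h5
    rwa [zpow_neg, self_inv'] at this
  exact absurd (hp.trans_le (hcon.trans (h6.trans h3.le))) (lt_irrefl _)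

theorem klein_up (h : x * y * x⁻¹ = y⁻¹) {p : X} (hp : p < x p) (i : ℤ) {j : ℤ} (hj : 1 ≤ j) :
    p < (y ^ i * x ^ (2 * j)) p := by
  obtain ⟨m, rfl⟩ : ∃ m : ℕ, j = m + 1 := ⟨(j - 1).toNat, by omega⟩
  have e : x ^ (2 * ((m : ℤ) + 1)) = x * x ^ (2 * m + 1) := by
    rw [← pow_succ', ← zpow_natCast]
    congr 1
  set q := (x ^ (2 * m + 1)) p with hq
  have h1 : p < q := lt_pow' hp (by omega)
  have h2 : q < x q := by
    have h3 : x q = (x ^ (2 * m + 1)) (x p) := by
      rw [hq, ← mul_ap, ← mul_ap, ← pow_succ', ← pow_succ]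
    rw [h3]
    exact (x ^ (2 * m + 1)).strictMono hp
  rw [e, mul_ap, mul_ap, ← hq]
  -- `q < y ^ i (x q)`
  have h3 : q < (y ^ i) (x q) := by
    have h4 : (y ^ (-i)) q < x q := klein_small h h2 (-i)
    have := (y ^ i).strictMono h4
    rwa [zpow_neg, self_inv'] at this
  exact h1.trans h3

theorem klein_fix (h : x * y * x⁻¹ = y⁻¹) {p : X} (hp : x p = p) : y p = p := by
  have h1 : x (y p) = y⁻¹ p := by
    rw [← h, mul_ap, mul_ap]
    have : x⁻¹ p = p := by
      have := congrArg (x⁻¹ : X ≃o X) hp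
      rwa [inv_self', eq_comm] at this
    rw [this]
  rcases lt_trichotomy (y p) p with h2 | h2 | h2
  · have h3 : x (y p) < p := by
      have := x.strictMono h2
      rwa [hp] at this
    rw [h1] at h3
    have h4 := y.strictMono h3
    rw [self_inv'] at h4
    exact absurd (h2.trans h4) (lt_irrefl _)
  · exact h2
  · have h3 : p < x (y p) := by
      have := x.strictMono h2
      rwa [hp] at this
    rw [h1] at h3
    have h4 := y.strictMono h3
    rw [self_inv'] at h4
    exact absurd (h2.trans h4) (lt_irrefl _)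

end klein

/-- The twisted interval bundle over the Klein bottle. The fundamental group of its boundary is
generated by `y` and `x ^ 2`. -/
theorem klein_good (i k : ℤ) {j l : ℤ} (hj : 1 ≤ j) (hl : 1 ≤ l) :
    Good (ky ^ i * kx ^ (2 * j)) (ky ^ k * kx ^ (2 * l)) := by
  have hmap : ∀ (X : Type) [LinearOrder X] (φ : KleinGroup →* (X ≃o X)),
      φ kx * φ ky * (φ kx)⁻¹ = (φ ky)⁻¹ := by
    intro X _ φ
    rw [← map_inv, ← map_inv, ← map_mul, ← map_mul, klein_rel]
  refine good_of kx ?_ ?_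
  · intro X _ φ p hp
    rw [map_mul, map_mul, map_zpow, map_zpow, map_zpow, map_zpow]
    exact ⟨klein_up (hmap X φ) hp i hj, klein_up (hmap X φ) hp k hl⟩
  · intro X _ φ p hp
    refine fix_of_gen φ p (Set.range PresentedGroup.of) (PresentedGroup.closure_range_of _) ?_
    rintro _ ⟨a, rfl⟩
    fin_cases a
    · exact hp
    · exact klein_fix (hmap X φ) hp

end Pool.Agent.Q138.LO
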