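import Pool.Agent.Q138.LO.Piece

set_option autoImplicit false

/-!
# Seifert fibred pieces over the disc
-/

namespace Pool.Agent.Q138.LO

section lists

variable {X : Type*} [LinearOrder X] {h : X ≃o X}

/-- `f < g` at all points moved up by `h`. -/
def SL (h f g : X ≃o X) : Prop := ∀ p, p < h p → f p < g p

theorem up_map {f : X ≃o X} (hf : Commute f h) {p : X} (hp : p < h p) : f p < h (f p) := by
  have h1 := f.strictMono hp
  rwa [← mul_ap, hf.eq, mul_ap] at h1

theorem SL.pow {f g : X ≃o X} (hfg : SL h f g) (hg : Commute g h) {m : ℕ} (hm : 1 ≤ m) :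
    SL h (f ^ m) (g ^ m) := by
  induction m, hm using Nat.le_induction with
  | base => simpa using hfg
  | succ m _ ih =>
    intro p hp
    rw [pow_succ, pow_succ, mul_ap, mul_ap]
    exact ((f ^ m).strictMono (hfg p hp)).trans (ih _ (up_map hg hp))

/-- The elements of the list commute with `h` and lie between `1` and `h`. -/
def Between (h : X ≃o X) (l : List (X ≃o X)) : Prop :=
  ∀ g ∈ l, Commute g h ∧ SL h 1 g ∧ SL h g h

theorem Between.comm {l : List (X ≃o X)} (hl : Between h l) : Commute l.prod h :=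
  Commute.list_prod_left _ _ fun g hg => (hl g hg).1

theorem Between.lower {l : List (X ≃o X)} (hl : Between h l) {p : X} (hp : p < h p) :
    p ≤ l.prod p ∧ (l ≠ [] → p < l.prod p) := by
  induction l with
  | nil => exact ⟨le_rfl, fun h => absurd rfl h⟩
  | cons g l ih =>
    have hl' : Between h l := fun g' hg' => hl g' (List.mem_cons_of_mem _ hg')
    obtain ⟨g1, g2, g3⟩ := hl g List.mem_cons_self
    have h1 : l.prod p < g (l.prod p) := g2 _ (up_map hl'.comm hp)
    have h2 : p < (g :: l).prod p := by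
      rw [List.prod_cons, mul_ap]
      exact lt_of_le_of_lt (ih hl').1 h1
    exact ⟨h2.le, fun _ => h2⟩

theorem Between.upper {l : List (X ≃o X)} (hl : Between h l) {p : X} (hp : p < h p) :
    l.prod p ≤ (h ^ l.length) p ∧ (l ≠ [] → l.prod p < (h ^ l.length) p) := by
  induction l with
  | nil => exact ⟨le_rfl, fun h => absurd rfl h⟩
  | cons g l ih =>
    have hl' : Between h l := fun g' hg' => hl g' (List.mem_cons_of_mem _ hg')
    obtain ⟨g1, g2, g3⟩ := hl g List.mem_cons_self
    have h1 : g (l.prod p) < h (l.prod p) := g3 _ (up_map hl'.comm hp)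
    have h2 : (g :: l).prod p < (h ^ (g :: l).length) p := by
      rw [List.prod_cons, mul_ap, List.length_cons, pow_succ', mul_ap]
      exact h1.trans_le (h.monotone (ih hl').1)
    exact ⟨h2.le, fun _ => h2⟩

/-- The product of at least two elements between `1` and `h` is larger than each of them and smaller
than `h ^ (n - 1)` times each of them. -/
theorem Between.mem {l : List (X ≃o X)} (hl : Between h l) (hn : 2 ≤ l.length) {g : X ≃o X}
    (hg : g ∈ l) : SL h g l.prod ∧ SL h l.prod (h ^ (l.length - 1) * g) := by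
  obtain ⟨A, B, rfl⟩ := List.append_of_mem hg
  have hA : Between h A := fun g' hg' => hl g' (by simp [hg'])
  have hB : Between h B := fun g' hg' => hl g' (by simp [hg'])
  obtain ⟨g1, g2, g3⟩ := hl g (by simp)
  have hlen : (A ++ g :: B).length - 1 = A.length + B.length := by simp
  have hlen2 : 1 ≤ A.length + B.length := by
    have : (A ++ g :: B).length = A.length + B.length + 1 := by simp; ring
    omega
  rw [hlen]
  have hprod : (A ++ g :: B).prod = A.prod * (g * B.prod) := by
    rw [List.prod_append, List.prod_cons]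
  rw [hprod]
  have hne : A ≠ [] ∨ B ≠ [] := by
    by_contra hcon
    push Not at hcon
    rw [hcon.1, hcon.2] at hlen2
    simp at hlen2
  constructor
  · intro p hp
    rw [mul_ap, mul_ap]
    have b1 := hB.lower hp
    have u1 : B.prod p < h (B.prod p) := up_map hB.comm hp
    have u2 : g (B.prod p) < h (g (B.prod p)) := up_map g1 u1
    have a1 := hA.lower u2
    rcases hne with h1 | h1
    · exact lt_of_le_of_lt (g.monotone b1.1) (a1.2 h1)
    · exact lt_of_lt_of_le (g.strictMono (b1.2 h1)) a1.1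
  · intro p hp
    rw [mul_ap, mul_ap, mul_ap]
    have b1 := hB.upper hp
    have u1 : B.prod p < h (B.prod p) := up_map hB.comm hp
    have u2 : g (B.prod p) < h (g (B.prod p)) := up_map g1 u1
    have a1 := hA.upper u2
    have e : (h ^ (A.length + B.length)) (g p) = (h ^ A.length) (g ((h ^ B.length) p)) := by
      rw [pow_add, mul_ap]
      congr 1
      rw [← mul_ap, ← mul_ap, (g1.pow_right B.length).eq]
    rw [e]
    rcases hne with h1 | h1
    · exact lt_of_lt_of_le (a1.2 h1) ((h ^ A.length).monotone (g.monotone b1.1))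
    · exact lt_of_le_of_lt a1.1 ((h ^ A.length).strictMono (g.strictMono (b1.2 h1)))

/-- An element whose `α`-th power is `h ^ β`, `0 < β < α`, lies between `1` and `h`. -/
theorem between_root {g : X ≃o X} (hg : Commute g h) {α β : ℕ} (h0 : 0 < β) (h1 : β < α)
    (e : g ^ α = h ^ β) : SL h 1 g ∧ SL h g h := by
  constructor
  · intro p hp
    rw [one_ap]
    by_contra hcon
    rw [not_lt] at hcon
    have h2 := pow_le' hcon α
    rw [e] at h2
    exact absurd (lt_pow' hp h0) (not_lt.mpr h2)
  · intro p hp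
    by_contra hcon
    rw [not_lt] at hcon
    have h2 : p ≤ (h⁻¹ * g) p := by
      have := (h⁻¹ : X ≃o X).monotone hcon
      rw [inv_self'] at this
      exact this
    have h3 := le_pow' h2 α
    rw [(hg.inv_right.symm).mul_pow, e] at h3
    have h4 : h⁻¹ ^ α * h ^ β = (h ^ (α - β))⁻¹ := by
      have : h ^ α = h ^ (α - β) * h ^ β := by rw [← pow_add]; congr 1; omega
      rw [inv_pow, this, mul_inv_rev]
      group
    rw [h4] at h3
    have h5 := (h ^ (α - β)).monotone h3
    rw [self_inv'] at h5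
    exact absurd (lt_pow' hp (show 1 ≤ α - β by omega)) (not_lt.mpr h5)

end lists

/-- Generators of the fundamental group of a Seifert fibred space over the disc with `n` exceptional
fibres: `none` is the regular fibre `h`, `some s` the loop `c s` around the exceptional fibre `s`. -/
abbrev SGen (n : ℕ) : Type := Option (Fin n)

/-- The relators: `h` is central and `c s ^ α s = h ^ β s`. -/
def seifRel (n : ℕ) (α β : Fin n → ℕ) : Set (FreeGroup (SGen n)) :=
  {r | (∃ s, r = FreeGroup.of (some s) * FreeGroup.of none * (FreeGroup.of (some s))⁻¹ *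
      (FreeGroup.of none)⁻¹) ∨
    (∃ s, r = FreeGroup.of (some s) ^ α s * (FreeGroup.of none ^ β s)⁻¹)}

/-- The fundamental group of the Seifert fibred space over the disc. -/
abbrev SeifGroup (n : ℕ) (α β : Fin n → ℕ) : Type := PresentedGroup (seifRel n α β)

/-- The regular fibre. -/
def sh (n : ℕ) (α β : Fin n → ℕ) : SeifGroup n α β := PresentedGroup.of none

/-- The product `c 0 ⋯ c (n-1)`: with the regular fibre it generates the fundamental group of the
boundary. -/
def sc (n : ℕ) (α β : Fin n → ℕ) : SeifGroup n α β :=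
  (List.ofFn fun s => (PresentedGroup.of (some s) : SeifGroup n α β)).prod

/-- The element `c ^ i * h ^ j` lies in the cone of the slopes `- j / i` outside of the open interval
`(max (β s / α s), n - 1 + min (β s / α s))`. -/
def InCone {n : ℕ} (α β : Fin n → ℕ) (i j : ℤ) : Prop :=
  (0 < i ∧ ∃ s, -j * α s ≤ i * β s) ∨ (i = 0 ∧ 0 < j) ∨
    (i < 0 ∧ ∃ s, -i * (((n : ℤ) - 1) * α s + β s) ≤ j * α s)

section seif

variable {n : ℕ} {α β : Fin n → ℕ}

theorem seif_comm (s : Fin n) : Commute (PresentedGroup.of (some s) : SeifGroup n α β)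
    (sh n α β) := by
  have h : (PresentedGroup.mk (seifRel n α β)) (FreeGroup.of (some s) * FreeGroup.of none *
      (FreeGroup.of (some s))⁻¹ * (FreeGroup.of none)⁻¹) = 1 :=
    PresentedGroup.one_of_mem (Or.inl ⟨s, rfl⟩)
  simp only [map_mul, map_inv] at h
  have h2 := mul_inv_eq_one.mp h
  exact mul_inv_eq_iff_eq_mul.mp h2

theorem seif_root (s : Fin n) : (PresentedGroup.of (some s) : SeifGroup n α β) ^ α s =
    sh n α β ^ β s := by
  have h : (PresentedGroup.mk (seifRel n α β)) (FreeGroup.of (some s) ^ α s *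
      (FreeGroup.of none ^ β s)⁻¹) = 1 := PresentedGroup.one_of_mem (Or.inr ⟨s, rfl⟩)
  simp only [map_mul, map_inv, map_pow] at h
  exact mul_inv_eq_one.mp h

theorem cone_up {X : Type*} [LinearOrder X] (hn : 2 ≤ n) (h : X ≃o X) (c : Fin n → (X ≃o X))
    (hc : ∀ s, Commute (c s) h) (hβ : ∀ s, 0 < β s) (hαβ : ∀ s, β s < α s)
    (e : ∀ s, c s ^ α s = h ^ β s) {i j : ℤ} (hij : InCone α β i j) {p : X} (hp : p < h p) :
    p < ((List.ofFn c).prod ^ i * h ^ j) p := by
  have hl : Between h (List.ofFn c) := by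
    intro g hg
    obtain ⟨s, rfl⟩ := (List.mem_ofFn' c g).mp hg
    exact ⟨hc s, between_root (hc s) (hβ s) (hαβ s) (e s)⟩
  have hlen : (List.ofFn c).length = n := List.length_ofFn
  set C := (List.ofFn c).prod with hC
  have hcomm : Commute C h := hl.comm
  have hcm : Commute (C ^ i) (h ^ j) := (hcomm.zpow_left i).zpow_right j
  have powle : ∀ {a b : ℕ}, a ≤ b → (h ^ a) p ≤ (h ^ b) p := by
    intro a b hab
    obtain ⟨k, rfl⟩ := Nat.exists_eq_add_of_le hab
    rw [pow_add, mul_ap]
    exact (h ^ a).monotone (le_pow' hp.le k)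
  rcases hij with ⟨hi, s, hs⟩ | ⟨hi, hj⟩ | ⟨hi, s, hs⟩
  · -- positive exponent
    have hα : 0 < α s := (Nat.zero_le _).trans_lt (hαβ s)
    by_contra hcon
    rw [not_lt] at hcon
    have h1 := pow_le' hcon (α s)
    rw [hcm.mul_pow] at h1
    obtain ⟨m, rfl⟩ : ∃ m : ℕ, i = m := ⟨i.toNat, by omega⟩
    have hm : 1 ≤ m := by omega
    have hmem := (hl.mem (by omega) ((List.mem_ofFn' c (c s)).mpr ⟨s, rfl⟩)).1
    have h2 := (hmem.pow hcomm (Nat.mul_pos hm hα)) p hp
    -- `c s ^ (m α) = h ^ (m β)`
    have h3 : c s ^ (m * α s) = h ^ (m * β s) := by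
      rw [mul_comm, pow_mul, e s, ← pow_mul, mul_comm]
    rw [h3] at h2
    have h4 : (C ^ (m : ℤ)) ^ α s * (h ^ j) ^ α s = h ^ (j * α s) * C ^ (m * α s) := by
      rw [zpow_natCast, ← pow_mul, ← zpow_natCast (h ^ j), ← zpow_mul]
      exact ((hcomm.pow_left _).zpow_right _).eq
    rw [h4, mul_ap] at h1
    have h5 := (h ^ (j * (α s : ℤ))).strictMono h2
    have h6 : p ≤ (h ^ (j * (α s : ℤ))) ((h ^ (m * β s)) p) := by
      rw [← mul_ap, ← zpow_natCast, ← zpow_add]
      obtain ⟨k, hk⟩ : ∃ k : ℕ, j * α s + ((m * β s : ℕ) : ℤ) = k :=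
        ⟨(j * α s + ((m * β s : ℕ) : ℤ)).toNat, by push_cast; rw [Int.toNat_of_nonneg]; linarith⟩
      rw [hk, zpow_natCast]
      exact le_pow' hp.le k
    exact absurd (lt_of_le_of_lt h6 h5) (not_lt.mpr h1)
  · subst hi
    obtain ⟨m, rfl⟩ : ∃ m : ℕ, j = m := ⟨j.toNat, by omega⟩
    rw [zpow_zero, one_mul, zpow_natCast]
    exact lt_pow' hp (by omega)
  · have hα : 0 < α s := (Nat.zero_le _).trans_lt (hαβ s)
    by_contra hcon
    rw [not_lt] at hcon
    have h1 := pow_le' hcon (α s)
    rw [hcm.mul_pow] at h1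
    obtain ⟨m, rfl⟩ : ∃ m : ℕ, i = -m := ⟨(-i).toNat, by omega⟩
    have hm : 1 ≤ m := by omega
    have hmem := (hl.mem (by omega) ((List.mem_ofFn' c (c s)).mpr ⟨s, rfl⟩)).2
    rw [hlen] at hmem
    have hcc : Commute (h ^ (n - 1) * c s) h :=
      ((Commute.refl h).pow_left _).mul_left (hc s)
    have h2 := (hmem.pow hcc (Nat.mul_pos hm hα)) p hp
    have h3 : (h ^ (n - 1) * c s) ^ (m * α s) = h ^ (m * ((n - 1) * α s + β s)) := by
      rw [((hc s).symm.pow_left (n - 1)).mul_pow, ← pow_mul,
        show m * α s = α s * m by ring, pow_mul (c s), e s, ← pow_mul, ← pow_add]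
      congr 1
      ring
    rw [h3] at h2
    have h4 : (C ^ (-(m : ℤ))) ^ α s * (h ^ j) ^ α s = (C ^ (m * α s))⁻¹ * h ^ (j * α s) := by
      rw [zpow_neg, zpow_natCast, inv_pow, ← pow_mul, ← zpow_natCast (h ^ j), ← zpow_mul]
    rw [h4, mul_ap] at h1
    have h5 : (h ^ (j * (α s : ℤ))) p ≤ (C ^ (m * α s)) p := by
      have := (C ^ (m * α s)).monotone h1
      rwa [self_inv'] at this
    have h6 : (h ^ (m * ((n - 1) * α s + β s))) p ≤ (h ^ (j * (α s : ℤ))) p := by
      have hn1 : ((n - 1 : ℕ) : ℤ) = (n : ℤ) - 1 := by omega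
      obtain ⟨k, hk⟩ : ∃ k : ℕ, j * α s = k :=
        ⟨(j * α s).toNat, by
          rw [Int.toNat_of_nonneg]
          refine le_trans ?_ hs
          rw [← hn1, neg_neg]
          positivity⟩
      rw [hk, zpow_natCast]
      refine powle ?_
      have : ((m * ((n - 1) * α s + β s) : ℕ) : ℤ) ≤ k := by
        rw [← hk]
        refine le_trans (le_of_eq ?_) hs
        push_cast
        rw [hn1]
        ring
      exact_mod_cast this
    exact absurd (h2.trans_le (h6.trans h5)) (lt_irrefl _)

end seif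

/-- Seifert fibred spaces over the disc with at least two exceptional fibres. -/
theorem seif_good {n : ℕ} {α β : Fin n → ℕ} (hn : 2 ≤ n) (hβ : ∀ s, 0 < β s)
    (hαβ : ∀ s, β s < α s) {i j k l : ℤ} (hu : InCone α β i j) (hv : InCone α β k l) :
    Good (sc n α β ^ i * sh n α β ^ j) (sc n α β ^ k * sh n α β ^ l) := by
  refine good_of (sh n α β) ?_ ?_
  · intro X _ φ p hp
    have hc : ∀ s, Commute (φ (PresentedGroup.of (some s))) (φ (sh n α β)) :=
      fun s => (seif_comm s).map φ
    have he : ∀ s, φ (PresentedGroup.of (some s)) ^ α s = φ (sh n α β) ^ β s := fun s => by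
      rw [← map_pow, ← map_pow, seif_root]
    have e : φ (sc n α β) = (List.ofFn fun s => φ (PresentedGroup.of (some s))).prod := by
      unfold sc
      rw [map_list_prod, List.map_ofFn]
      rfl
    rw [map_mul, map_mul, map_zpow, map_zpow, map_zpow, map_zpow, e]
    exact ⟨cone_up hn _ _ hc hβ hαβ he hu hp, cone_up hn _ _ hc hβ hαβ he hv hp⟩
  · intro X _ φ p hp
    refine fix_of_gen φ p (Set.range PresentedGroup.of) (PresentedGroup.closure_range_of _) ?_
    rintro _ ⟨a, rfl⟩
    cases a with
    | none => exact hp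
    | some s =>
      refine eq_of_pow (n := α s) ((Nat.zero_le _).trans_lt (hαβ s)) ?_
      rw [← map_pow, seif_root, map_pow]
      exact pow_fix hp _

end Pool.Agent.Q138.LO
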