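import Pool.Agent.Q138.LO.Glue
import Pool.Agent.TH335.LS.Net
import Pool.Agent.Y479.LS.Tangle

set_option autoImplicit false

/-!
# Alternating diagrams in a strip with pieces at the crossings
-/

namespace Pool.Agent.Q138.LO

open Relation Pool.Agent.Y479.LS Pool.Agent.TH335.LS

/-- In each action on a linear order no point is moved in the same direction by `t` and `t₁`, and the
points fixed by both are fixed by `K`. -/
def Anti {K : Type} [Group K] (t t₁ : K) : Prop :=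
  ∀ (X : Type) [LinearOrder X] (φ : K →* (X ≃o X)) (x : X),
    ¬ (x < φ t x ∧ x < φ t₁ x) ∧ ¬ (φ t x < x ∧ φ t₁ x < x) ∧
      (φ t x = x → φ t₁ x = x → ∀ k, φ k x = x)

theorem Good.anti {K : Type} [Group K] {u v : K} (h : Good u v) : Anti u v⁻¹ := by
  intro X _ φ x
  obtain ⟨h1, h2, h3⟩ := h X φ x
  have e1 : x < φ v⁻¹ x → φ v x < x := by
    intro h4
    have := (φ v).strictMono h4
    rwa [map_inv, self_inv'] at this
  have e2 : φ v⁻¹ x < x → x < φ v x := by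
    intro h4
    have := (φ v).strictMono h4
    rwa [map_inv, self_inv'] at this
  refine ⟨fun h4 => ?_, fun h4 => ?_, fun h4 _ => h3 h4⟩
  · exact absurd (h1.mpr (e1 h4.2).le) (not_le.mpr h4.1)
  · exact absurd (h2.mpr (e2 h4.2).le) (not_le.mpr h4.1)

/-- The solid torus with `t ^ a * t₁ ^ b = 1`: `t`, `t₁` are the powers `b`, `- a` of the core. -/
theorem solid_anti {a b : ℕ} (hab : (a, b) ≠ (0, 0)) :
    Anti (Multiplicative.ofAdd (b : ℤ)) (Multiplicative.ofAdd (-(a : ℤ))) := by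
  intro X _ φ x
  have e1 : φ (Multiplicative.ofAdd (b : ℤ)) = φ (Multiplicative.ofAdd (1 : ℤ)) ^ b := by
    rw [ofAdd_nat b, map_pow]
  have e2 : φ (Multiplicative.ofAdd (-(a : ℤ))) = (φ (Multiplicative.ofAdd (1 : ℤ)) ^ a)⁻¹ := by
    rw [ofAdd_neg, ofAdd_nat a, map_inv, map_pow]
  rw [e1, e2]
  set s := φ (Multiplicative.ofAdd (1 : ℤ)) with hs
  refine ⟨fun h => ?_, fun h => ?_, fun h1 h2 => ?_⟩
  · have h3 := (s ^ a).strictMono h.2
    rw [self_inv'] at h3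
    rcases le_total (s x) x with h4 | h4
    · exact absurd h.1 (not_lt.mpr (pow_le' h4 b))
    · exact absurd h3 (not_lt.mpr (le_pow' h4 a))
  · have h3 := (s ^ a).strictMono h.2
    rw [self_inv'] at h3
    rcases le_total (s x) x with h4 | h4
    · exact absurd h3 (not_lt.mpr (pow_le' h4 a))
    · exact absurd h.1 (not_lt.mpr (le_pow' h4 b))
  · have h3 : s x = x := by
      rcases Nat.eq_zero_or_pos b with rfl | hb
      · rcases Nat.eq_zero_or_pos a with rfl | ha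
        · exact absurd rfl hab
        · have h4 := congrArg (s ^ a) h2
          rw [self_inv'] at h4
          exact eq_of_pow ha h4.symm
      · exact eq_of_pow hb h1
    refine fix_of_gen φ x {Multiplicative.ofAdd (1 : ℤ)} ?_ ?_
    · rw [Subgroup.eq_top_iff']
      intro k
      rw [Subgroup.mem_closure_singleton]
      exact ⟨Multiplicative.toAdd k, by rw [← ofAdd_zsmul]; simp⟩
    · intro s' hs'
      rw [Set.mem_singleton_iff.mp hs']; exact h3

/-- The order automorphisms of `X` act on `X`. -/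
def taut (X : Type) [CompleteLinearOrder X] : Act (X ≃o X) X where
  f g := g
  one _ := rfl
  mul _ _ _ := rfl

/-- One colour of the diagram in a strip. `g` is the region along the top (or bottom) side of the
strip, `vL`, `vR` are the regions of this colour at the left and right side, `eg, eL, eR` are the
corresponding regions of the other colour. `star v` is the list of the corners of the region `v` as
they are met along its boundary (clockwise for the white regions, counterclockwise for the black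
ones). -/
structure Colour {V E C : Type} (v₁ v₂ : C → V) (e₁ e₂ : C → E) (g vL vR : V) (eg eL eR : E)
    (star : V → List (C × Bool)) : Prop where
  mem : ∀ v k, k ∈ star v ↔ cAt v₁ v₂ k = v
  nodup : ∀ v, (star v).Nodup
  inner : ∀ v, v ≠ g → v ≠ vL → v ≠ vR → ∃ a, Path e₁ e₂ a (star v) a
  ground : Path e₁ e₂ eR (star g) eL
  left : Path e₁ e₂ eL (star vL) eg
  right : Path e₁ e₂ eg (star vR) eR
  /-- the checkerboard graph is connected -/
  conn : ∀ v, ReflTransGen (Adj v₁ v₂) v g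
  /-- no arc in the strip from top to bottom crosses only one strand -/
  link : ReflTransGen (fun a b => Adj v₁ v₂ a b ∧ a ≠ g ∧ b ≠ g) vL vR

/-- A checkerboard coloured alternating diagram in a strip with three strands at the left side and
three strands at the right side. -/
structure Strip where
  /-- white regions -/
  W : Type
  /-- black regions -/
  B : Type
  /-- crossings -/
  C : Type
  finW : Finite W
  finB : Finite B
  /-- the corners of a crossing are `w₁, b₁, w₂, b₂`, in counterclockwise order -/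
  w₁ : C → W
  b₁ : C → B
  w₂ : C → W
  b₂ : C → B
  /-- the regions at the sides of the strip -/
  top : W
  bL : B
  wL : W
  bot : B
  bR : B
  wR : W
  starW : W → List (C × Bool)
  starB : B → List (C × Bool)
  white : Colour w₁ w₂ b₁ b₂ top wL wR bot bL bR starW
  black : Colour b₁ b₂ w₁ w₂ bot bL bR top wL wR starB

section proof

/-- `f` and `g` move the point `r` in the same direction. -/
def Same {X : Type*} {H : Type*} [Group H] [CompleteLinearOrder X] (ρ : Act H X) (f g : H)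
    (r : X) : Prop := (ρ.f f r ≤ r ↔ ρ.f g r ≤ r) ∧ (r ≤ ρ.f f r ↔ r ≤ ρ.f g r)

theorem Same.inv {X : Type*} {H : Type*} [Group H] [CompleteLinearOrder X] {ρ : Act H X} {f g : H}
    {r : X} (h : Same ρ f g r) : Same ρ f⁻¹ g⁻¹ r := by
  unfold Same
  rw [ρ.inv_le, ρ.inv_le, ρ.le_inv, ρ.le_inv]
  exact ⟨h.2, h.1⟩

theorem Same.symm {X : Type*} {H : Type*} [Group H] [CompleteLinearOrder X] {ρ : Act H X} {f g : H}
    {r : X} (h : Same ρ f g r) : Same ρ g f r := ⟨h.1.symm, h.2.symm⟩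

/-- One colour at one point. -/
theorem colour_ports {X : Type*} {H : Type*} [Group H] [CompleteLinearOrder X] (ρ : Act H X)
    {V E C : Type} [Finite V] {v₁ v₂ : C → V} {e₁ e₂ : C → E} {g vL vR : V} {eg eL eR : E}
    {star : V → List (C × Bool)} (hc : Colour v₁ v₂ e₁ e₂ g vL vR eg eL eR star)
    (ev : V → H) (ee : E → H) (r : X)
    (hrel : ∀ c, Same ρ ((ee (e₂ c))⁻¹ * ee (e₁ c)) ((ev (v₁ c))⁻¹ * ev (v₂ c)) r) :
    (ρ.f (ev g) r ≤ ρ.f (ev vL) r → r ≤ ρ.f ((ee eL)⁻¹ * ee eg) r →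
      ρ.f (ev g) r ≤ ρ.f (ev vR) r) ∧
    (ρ.f (ev g) r ≤ ρ.f (ev vR) r → r ≤ ρ.f ((ee eg)⁻¹ * ee eR) r →
      ρ.f (ev g) r ≤ ρ.f (ev vL) r) ∧
    (ρ.f (ev vL) r ≤ ρ.f (ev g) r → ρ.f (ev vR) r ≤ ρ.f (ev g) r → ∀ n,
      ρ.f (ev n) r ≤ ρ.f (ev g) r) := by
  have hk : ∀ k : C × Bool, Same ρ ((ee (cOpp e₁ e₂ k))⁻¹ * ee (cAt e₁ e₂ k))
      ((ev (cAt v₁ v₂ k))⁻¹ * ev (cOpp v₁ v₂ k)) r := by
    rintro ⟨c, s⟩
    cases s
    · exact hrel c
    · have h1 := (hrel c).inv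
      simp only [mul_inv_rev, inv_inv] at h1
      exact h1
  have net : Net ρ star (cOpp v₁ v₂)
      (fun k => (ee (cOpp e₁ e₂ k))⁻¹ * ee (cAt e₁ e₂ k)) (fun n => ρ.f (ev n) r) r := by
    refine ⟨fun n k hkn h => ?_, fun n k hkn h => ?_, fun n k hkn h => ?_⟩
    · have hat := (hc.mem n k).mp hkn
      refine (hk k).1.mpr ?_
      rw [ρ.inv_mul_le, hat]; exact h
    · have hat := (hc.mem n k).mp hkn
      refine (hk k).2.mpr ?_
      rw [ρ.le_inv_mul, hat]; exact h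
    · have hat := (hc.mem n k).mp hkn
      have h1 := le_antisymm ((hk k).1.mp h.le) ((hk k).2.mp h.ge)
      rw [ρ.inv_mul_eq, hat] at h1
      exact h1
  have hstep : ∀ a b, Adj v₁ v₂ a b → ∃ k ∈ star a, cOpp v₁ v₂ k = b := by
    rintro a b ⟨k, h1, h2⟩
    exact ⟨k, (hc.mem a k).mpr h1, h2⟩
  have conn : ∀ n, ReflTransGen (fun a b => ∃ k ∈ star a, cOpp v₁ v₂ k = b) n g :=
    fun n => ReflTransGen.mono (fun a b h => hstep a b h) _ _ (hc.conn n)
  have inner : ∀ n, n ≠ g → n ≠ vL → n ≠ vR →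
      ((star n).map fun k => (ee (cOpp e₁ e₂ k))⁻¹ * ee (cAt e₁ e₂ k)).prod = 1 := by
    intro n h1 h2 h3
    obtain ⟨a, ha⟩ := hc.inner n h1 h2 h3
    rw [path_prod ee _ _ _ ha, inv_mul_cancel]
  have adj_symm : ∀ a b, Adj v₁ v₂ a b → Adj v₁ v₂ b a := by
    rintro a b ⟨⟨c, s⟩, h1, h2⟩
    refine ⟨(c, !s), ?_, ?_⟩ <;> cases s <;> simp_all [cAt, cOpp]
  refine ⟨fun h1 h2 => ?_, fun h1 h2 => ?_, fun h1 h2 n => ?_⟩
  · refine net.port (p := vL) (q := vR) ρ inner conn ?_ ?_ h1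
    · exact ReflTransGen.mono (fun a b h => ⟨hstep a b h.1, h.2.2⟩) _ _ hc.link
    · rw [path_prod ee _ _ _ hc.left]; exact h2
  · refine net.port (p := vR) (q := vL) ρ (fun n h3 h4 h5 => inner n h3 h5 h4) conn ?_ ?_ h1
    · have h3 : ReflTransGen (fun a b => Adj v₁ v₂ a b ∧ a ≠ g ∧ b ≠ g) vR vL := by
        have h4 := ReflTransGen.swap _ _ hc.link
        exact ReflTransGen.mono (fun a b h => ⟨adj_symm _ _ h.1, h.2.2, h.2.1⟩) _ _ h4
      exact ReflTransGen.mono (fun a b h => ⟨hstep a b h.1, h.2.2⟩) _ _ h3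
    · rw [path_prod ee _ _ _ hc.right]; exact h2
  · exact net.le_ground ρ inner conn h1 h2 n

/-- The pointwise statements, from the relations in a group acting on a complete linear order. -/
theorem sys_of_strip {X H : Type*} [Group H] [CompleteLinearOrder X] (ρ : Act H X)
    (D : Strip) (W : D.W → H) (B : D.B → H) (m : H)
    (hrel : ∀ c r, Same ρ ((B (D.b₂ c))⁻¹ * B (D.b₁ c)) ((W (D.w₁ c))⁻¹ * W (D.w₂ c)) r)
    (hx : m * ((W D.top)⁻¹ * W D.wL) * m⁻¹ * ((W D.top)⁻¹ * W D.wR) = 1)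
    (hy : m * ((B D.bL)⁻¹ * B D.bot) * m⁻¹ * ((B D.bR)⁻¹ * B D.bot) = 1)
    (ht : ∀ r, ¬ (r < ρ.f (((B D.bR)⁻¹ * B D.bot)⁻¹ * ((W D.top)⁻¹ * W D.wR) * m) r ∧
      r < ρ.f (((W D.top)⁻¹ * W D.wR) * ((B D.bR)⁻¹ * B D.bot)⁻¹ * m) r))
    (ht' : ∀ r, ¬ (ρ.f (((B D.bR)⁻¹ * B D.bot)⁻¹ * ((W D.top)⁻¹ * W D.wR) * m) r < r ∧
      ρ.f (((W D.top)⁻¹ * W D.wR) * ((B D.bR)⁻¹ * B D.bot)⁻¹ * m) r < r)) (r : X) :
    ρ.f m r = r ∧ (∀ n, ρ.f (W n) r = ρ.f (W D.top) r) ∧
      (∀ n, ρ.f (B n) r = ρ.f (B D.bot) r) := by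
  have := D.finW
  have := D.finB
  have hrelB : ∀ c r, Same ρ ((W (D.w₂ c))⁻¹ * W (D.w₁ c)) ((B (D.b₁ c))⁻¹ * B (D.b₂ c)) r := by
    intro c r
    have h1 := (hrel c r).symm.inv
    simp only [mul_inv_rev, inv_inv] at h1
    exact h1
  have hrel' : ∀ c (r : Xᵒᵈ), Same ρ.dual ((B (D.b₂ c))⁻¹ * B (D.b₁ c))
      ((W (D.w₁ c))⁻¹ * W (D.w₂ c)) r := fun c r => ⟨(hrel c r).2, (hrel c r).1⟩
  have hrelB' : ∀ c (r : Xᵒᵈ), Same ρ.dual ((W (D.w₂ c))⁻¹ * W (D.w₁ c))
      ((B (D.b₁ c))⁻¹ * B (D.b₂ c)) r := fun c r => ⟨(hrelB c r).2, (hrelB c r).1⟩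
  have cW := fun r => colour_ports ρ D.white W B r (fun c => hrel c r)
  have cB := fun r => colour_ports ρ D.black B W r (fun c => hrelB c r)
  have cW' := fun r : Xᵒᵈ => colour_ports ρ.dual D.white W B r (fun c => hrel' c r)
  have cB' := fun r : Xᵒᵈ => colour_ports ρ.dual D.black B W r (fun c => hrelB' c r)
  set xL := (W D.top)⁻¹ * W D.wL with hxL
  set yL := (B D.bL)⁻¹ * B D.bot with hyL
  set xR := (W D.top)⁻¹ * W D.wR with hxR
  set yR := (B D.bR)⁻¹ * B D.bot with hyR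
  set t := yR⁻¹ * xR * m with htt
  set t₁ := xR * yR⁻¹ * m with htt1
  -- reformulations
  have eW1 : (W D.wL)⁻¹ * W D.top = xL⁻¹ := by rw [hxL]; group
  have eW2 : (B D.bot)⁻¹ * B D.bR = yR⁻¹ := by rw [hyR]; group
  have hmx : xR * (m * xL) = m := by
    have h2 : m * xL * m⁻¹ = xR⁻¹ := mul_eq_one_iff_eq_inv.mp hx
    have h3 : m * xL = xR⁻¹ * m := by rw [← h2]; group
    rw [h3]; group
  have hmy : yR * (m * yL) = m := by
    have h2 : m * yL * m⁻¹ = yR⁻¹ := mul_eq_one_iff_eq_inv.mp hy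
    have h3 : m * yL = yR⁻¹ * m := by rw [← h2]; group
    rw [h3]; group
  have sys : Sys (ρ.f xL) (ρ.f yL) (ρ.f xR) (ρ.f yR) (ρ.f m) (ρ.f t) (ρ.f t₁) := by
    refine ⟨?_, ?_, ?_, ?_, ?_, ?_, ?_, ?_, ?_, ?_⟩
    · intro r
      rw [← ρ.mul, ← ρ.mul, mul_assoc, hmx]
    · intro r
      rw [← ρ.mul, ← ρ.mul, mul_assoc, hmy]
    · intro r h1 h2
      constructor
      · exact (ρ.le_inv_mul _ _ _).mpr ((cW r).1 ((ρ.le_inv_mul _ _ _).mp h1) h2)
      · refine (ρ.le_inv_mul _ _ _).mpr ((cB' r).1 ((ρ.le_inv_mul _ _ _).mp h2) ?_)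
        show ρ.f ((W D.wL)⁻¹ * W D.top) r ≤ r
        rw [eW1, ρ.inv_le]; exact h1
    · intro r h1 h2
      constructor
      · exact (ρ.inv_mul_le _ _ _).mpr ((cW' r).1 ((ρ.inv_mul_le _ _ _).mp h1) h2)
      · refine (ρ.inv_mul_le _ _ _).mpr ((cB r).1 ((ρ.inv_mul_le _ _ _).mp h2) ?_)
        rw [eW1, ρ.le_inv]; exact h1
    · intro r h1 h2
      constructor
      · refine (ρ.le_inv_mul _ _ _).mpr ((cW r).2.1 ((ρ.le_inv_mul _ _ _).mp h1) ?_)
        rw [eW2, ρ.le_inv]; exact h2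
      · exact (ρ.inv_mul_le _ _ _).mpr ((cB r).2.1 ((ρ.inv_mul_le _ _ _).mp h2) h1)
    · intro r h1 h2
      constructor
      · refine (ρ.inv_mul_le _ _ _).mpr ((cW' r).2.1 ((ρ.inv_mul_le _ _ _).mp h1) ?_)
        show ρ.f ((B D.bot)⁻¹ * B D.bR) r ≤ r
        rw [eW2, ρ.inv_le]; exact h2
      · exact (ρ.le_inv_mul _ _ _).mpr ((cB' r).2.1 ((ρ.le_inv_mul _ _ _).mp h2) h1)
    · intro r
      rw [← ρ.mul, ← ρ.mul]
      congr 2
      rw [htt]; group
    · intro r s hs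
      rw [htt1, ρ.mul, ρ.mul, ← hs, ρ.inv_self]
    · exact fun r h => ht r h
    · exact fun r h => ht' r h
  have triv : ∀ r, ρ.f xL r = r ∧ ρ.f yL r = r ∧ ρ.f m r = r := sys.trivial
  obtain ⟨t1, t2, t3⟩ := triv r
  have t4 : ρ.f xR r = r := by
    have h1 := sys.rx r
    rwa [t1, t3] at h1
  have t5 : ρ.f yR r = r := by
    have h1 := sys.ry r
    rwa [t2, t3] at h1
  rw [hxL, ρ.inv_mul_eq] at t1
  rw [hyL, ρ.inv_mul_eq] at t2
  rw [hxR, ρ.inv_mul_eq] at t4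
  rw [hyR, ρ.inv_mul_eq] at t5
  refine ⟨t3, fun n => le_antisymm ?_ ?_, fun n => le_antisymm ?_ ?_⟩
  · exact (cW r).2.2 t1.le t4.le n
  · exact (cW' r).2.2 t1.ge t4.ge n
  · exact (cB r).2.2 t2.ge t5.ge n
  · exact (cB' r).2.2 t2.le t5.le n

end proof

end Pool.Agent.Q138.LO
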