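import Pool.Agent.Y479.LS.Farey
import Pool.Agent.Q138.LO.Mark

set_option autoImplicit false
set_option linter.unusedSectionVars false

/-!
# Alternating tangles with pieces at the crossings

As in `Pool.Agent.Y479.LS.Tangle`, but the equation `b₂⁻¹ b₁ = w₁⁻¹ w₂` of a crossing is replaced by the
condition that both sides move every point in the same direction.
-/

namespace Pool.Agent.Q138.LO.Tan

open Relation Pool.Agent.Y479.LS Aut

/-- The two automorphisms move every point in the same direction. -/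
def Same {X : Type*} [LinearOrder X] (g h : Aut X) : Prop :=
  ∀ x, (g x ≤ x ↔ h x ≤ x) ∧ (x ≤ g x ↔ x ≤ h x)

/-- `g` moves no point further than `h`, in the direction of `h`. -/
def Dom {X : Type*} [LinearOrder X] (g h : Aut X) : Prop :=
  ∀ x, (x ≤ h x → g x ≤ h x) ∧ (h x ≤ x → h x ≤ g x)

section same

variable {X : Type*} [LinearOrder X] {g h : Aut X}

theorem le_inv_ap (g : Aut X) (x : X) : x ≤ g⁻¹ x ↔ g x ≤ x := by
  rw [← le_iff g (x := x), self_inv]

theorem inv_ap_le (g : Aut X) (x : X) : g⁻¹ x ≤ x ↔ x ≤ g x := by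
  rw [← le_iff g (y := x), self_inv]

theorem Same.inv (s : Same g h) : Same g⁻¹ h⁻¹ := fun x =>
  ⟨by rw [inv_ap_le, inv_ap_le]; exact (s x).2, by rw [le_inv_ap, le_inv_ap]; exact (s x).1⟩

theorem Same.symm (s : Same g h) : Same h g := fun x => ⟨(s x).1.symm, (s x).2.symm⟩

theorem Same.dual (s : Same g h) : Same (Aut.dual g) (Aut.dual h) := fun x =>
  ⟨(s (OrderDual.ofDual x)).2, (s (OrderDual.ofDual x)).1⟩

theorem Dom.inv (d : Dom g h) : Dom g⁻¹ h⁻¹ := by
  intro x
  constructor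
  · intro hx
    have h1 : h (h⁻¹ x) ≤ h⁻¹ x := by rw [self_inv]; exact hx
    have h2 := (d (h⁻¹ x)).2 h1
    rw [self_inv] at h2
    rw [← le_iff g, self_inv]; exact h2
  · intro hx
    have h1 : h⁻¹ x ≤ h (h⁻¹ x) := by rw [self_inv]; exact hx
    have h2 := (d (h⁻¹ x)).1 h1
    rw [self_inv] at h2
    rw [← le_iff g, self_inv]; exact h2

end same

/-- The relations at the corners, seen from a colour: the product over the neighbours and the quotient
of the opposite regions move every point in the same direction. -/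
def Dir {V E C : Type} {X : Type*} [LinearOrder X] (v₁ v₂ : C → V) (e₁ e₂ : C → E) (f : V → Aut X)
    (h : E → Aut X) : Prop :=
  ∀ k, Same ((h (cOpp e₁ e₂ k))⁻¹ * h (cAt e₁ e₂ k)) ((f (cAt v₁ v₂ k))⁻¹ * f (cOpp v₁ v₂ k))

/-- At the crossings in `K` the quotient of the opposite regions is dominated. -/
def DomIn {V E C : Type} {X : Type*} [LinearOrder X] (K : C → Prop) (v₁ v₂ : C → V) (e₁ e₂ : C → E)
    (f : V → Aut X) (h : E → Aut X) : Prop :=
  ∀ k : C × Bool, K k.1 →
    Dom ((f (cAt v₁ v₂ k))⁻¹ * f (cOpp v₁ v₂ k)) ((h (cOpp e₁ e₂ k))⁻¹ * h (cAt e₁ e₂ k))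

/-- A walk of length `n` in the checkerboard graph of one colour, through crossings in `K`. -/
def WalkIn {V C : Type} (K : C → Prop) (v₁ v₂ : C → V) : ℕ → V → V → Prop
  | 0, a, b => a = b
  | n + 1, a, b => ∃ k : C × Bool, K k.1 ∧ cAt v₁ v₂ k = a ∧ WalkIn K v₁ v₂ n (cOpp v₁ v₂ k) b

open Classical in
/-- The number of corners in a list, at crossings in `K`, at which `v` is the region on the opposite
side. -/
noncomputable def facingIn {V C : Type} (K : C → Prop) (v₁ v₂ : C → V) (l : List (C × Bool))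
    (v : V) : ℕ :=
  l.countP fun k => decide (cOpp v₁ v₂ k = v ∧ K k.1)

theorem Dir.dual {V E C : Type} {X : Type*} [LinearOrder X] {v₁ v₂ : C → V} {e₁ e₂ : C → E}
    {f : V → Aut X} {h : E → Aut X} (hr : Dir v₁ v₂ e₁ e₂ f h) :
    Dir v₁ v₂ e₁ e₂ (fun v => Aut.dual (f v)) (fun e => Aut.dual (h e)) := by
  intro k
  have := (hr k).dual
  rwa [map_mul, map_mul, map_inv, map_inv] at this

section point

variable {V E C : Type} {v₁ v₂ : C → V} {e₁ e₂ : C → E} {p q : V} {a b : E}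
  {star : V → List (C × Bool)} (S : Side v₁ v₂ e₁ e₂ p q a b star)

variable {X : Type*} [LinearOrder X] {f : V → Aut X} {h : E → Aut X}
  (hr : Dir v₁ v₂ e₁ e₂ f h) (x : X)

include S hr

theorem corner {v : V} {k : C × Bool} (hk : k ∈ star v) :
    Same ((h (cOpp e₁ e₂ k))⁻¹ * h (cAt e₁ e₂ k)) ((f v)⁻¹ * f (cOpp v₁ v₂ k)) := by
  have := hr k
  rwa [(S.mem v k).mp hk] at this

theorem local_max {v : V} (hp : v ≠ p) (hq : v ≠ q)
    (hm : ∀ k ∈ star v, f (cOpp v₁ v₂ k) x ≤ f v x) :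
    ∀ k ∈ star v, f (cOpp v₁ v₂ k) x = f v x := by
  obtain ⟨e, he⟩ := S.inner v hp hq
  have h1 := path_prod h _ _ _ he
  rw [inv_mul_cancel] at h1
  have h3 := list_eq (x := x) ((star v).map fun k => (h (cOpp e₁ e₂ k))⁻¹ * h (cAt e₁ e₂ k)) ?_ ?_
  · intro k hk
    have h4 := h3 _ (List.mem_map_of_mem hk)
    have h5 := corner S hr hk x
    rw [← inv_mul_eq]
    exact le_antisymm (h5.1.mp h4.le) (h5.2.mp h4.ge)
  · intro g hg
    obtain ⟨k, hk, rfl⟩ := List.mem_map.mp hg
    rw [(corner S hr hk x).1, inv_mul_le]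
    exact hm k hk
  · rw [h1, one_apply]

theorem le_second [Finite V] (hpq : f p x ≤ f q x) (v : V) : f v x ≤ f q x := by
  obtain ⟨M, hM⟩ : ∃ M, ∀ n, f n x ≤ f M x := by
    have : Nonempty V := ⟨p⟩
    exact Finite.exists_max fun n => f n x
  refine (hM v).trans ?_
  by_cases hMp : M = p
  · rw [hMp]; exact hpq
  have : ∀ u, ReflTransGen (fun x y => Adj v₁ v₂ x y ∧ y ≠ p) u q → u ≠ p → f u x = f M x →
      f M x ≤ f q x := by
    intro u hu
    induction hu using ReflTransGen.head_induction_on with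
    | refl => intro _ h1; exact h1.ge
    | @head u c huc _ ih =>
      intro hup h1
      by_cases huq : u = q
      · rw [← huq]; exact h1.ge
      obtain ⟨⟨k, hk1, hk2⟩, hc⟩ := huc
      have h2 := local_max S hr x hup huq (fun k _ => h1 ▸ hM _) k ((S.mem u k).mpr hk1)
      rw [hk2] at h2
      exact ih hc (h2.trans h1)
  exact this M (S.toSecond M hMp) hMp rfl

theorem lt_second [Finite V] (hpq : f p x < f q x) {v : V} (hv : v ≠ q) : f v x < f q x := by
  have hM := le_second S hr x hpq.le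
  refine lt_of_le_of_ne (hM v) fun hcon => ?_
  have : ∀ u, ReflTransGen (fun x y => Adj v₁ v₂ x y ∧ y ≠ q) u p → u ≠ q → f u x = f q x →
      False := by
    intro u hu
    induction hu using ReflTransGen.head_induction_on with
    | refl => intro _ h1; exact hpq.ne h1
    | @head u c huc _ ih =>
      intro huq h1
      by_cases hup : u = p
      · rw [hup] at h1; exact hpq.ne h1
      obtain ⟨⟨k, hk1, hk2⟩, hc⟩ := huc
      have h2 := local_max S hr x hup huq (fun k _ => h1 ▸ hM _) k ((S.mem u k).mpr hk1)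
      rw [hk2] at h2
      exact ih hc (h2.trans h1)
  exact this v (S.toFirst v hv) hv hcon

theorem first_le [Finite V] (hpq : f p x ≤ f q x) (v : V) : f p x ≤ f v x :=
  le_second S.symm (X := Xᵒᵈ) hr.dual (OrderDual.toDual x) hpq v

theorem first_lt [Finite V] (hpq : f p x < f q x) {v : V} (hv : v ≠ p) : f p x < f v x :=
  lt_second S.symm (X := Xᵒᵈ) hr.dual (OrderDual.toDual x) hpq hv

theorem current_aux [Finite V] (hpq : f q x ≤ f p x) : h b x ≤ h a x := by
  rw [← inv_mul_le, ← path_prod h _ _ _ S.first]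
  refine list_le _ fun g hg => ?_
  obtain ⟨k, hk, rfl⟩ := List.mem_map.mp hg
  rw [(corner S hr hk x).1, inv_mul_le]
  exact le_second S.symm hr x hpq _

theorem current [Finite V] (hpq : f p x ≤ f q x) : h a x ≤ h b x :=
  current_aux S.symm hr x hpq

theorem eq_of_eq [Finite V] (hpq : f p x = f q x) : (∀ v, f v x = f p x) ∧ h b x = h a x := by
  refine ⟨fun v => le_antisymm ?_ (first_le S hr x hpq.le v), le_antisymm ?_ ?_⟩
  · rw [hpq]; exact le_second S hr x hpq.le v
  · exact current_aux S hr x hpq.ge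
  · exact current S hr x hpq.le

end point

section list

variable {P : Type*} [Group P] [PartialOrder P] [MulLeftMono P] [MulRightMono P]

theorem prod_le_pow' {K : Type*} (F : K → P) (D : K → Bool) (g : P) :
    ∀ (l : List K), (∀ k ∈ l, F k ≤ 1) → (∀ k ∈ l, D k = true → F k ≤ g) →
      (l.map F).prod ≤ g ^ l.countP D
  | [], _, _ => by simp
  | k :: l, h1, h2 => by
    have ih := prod_le_pow' F D g l (fun x hx => h1 x (List.mem_cons_of_mem _ hx))
      (fun x hx => h2 x (List.mem_cons_of_mem _ hx))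
    rw [List.map_cons, List.prod_cons]
    by_cases hk : D k = true
    · rw [List.countP_cons_of_pos hk, pow_succ']
      exact mul_le_mul' (h2 k List.mem_cons_self hk) ih
    · rw [List.countP_cons_of_neg hk]
      exact (mul_le_of_le_one_left' (h1 k List.mem_cons_self)).trans ih

end list

section bounds

variable {V E C : Type} {v₁ v₂ : C → V} {e₁ e₂ : C → E} {p q : V} {a b : E}
  {star : V → List (C × Bool)} (S : Side v₁ v₂ e₁ e₂ p q a b star)

variable {X : Type*} [LinearOrder X] {f : V → Aut X} {h : E → Aut X}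
  (hr : Dir v₁ v₂ e₁ e₂ f h) (hf : Bounds f p q) (hh : Bounds h a b) {K : C → Prop}
  (hK : DomIn K v₁ v₂ e₁ e₂ f h)

include hr hh hK in
theorem step_le {k : C × Bool} (hk : K k.1) :
    (f (cAt v₁ v₂ k))⁻¹ * f (cOpp v₁ v₂ k) ≤ h b := by
  have h1 : (h (cOpp e₁ e₂ k))⁻¹ * h (cAt e₁ e₂ k) ≤ h b :=
    (mul_le_of_le_one_left' (inv_le_one'.mpr (hh.one_le _))).trans (hh.le _)
  intro x
  rcases le_total x (((h (cOpp e₁ e₂ k))⁻¹ * h (cAt e₁ e₂ k)) x) with h2 | h2
  · exact ((hK k hk x).1 h2).trans (h1 x)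
  · exact ((hr k x).1.mp h2).trans (hh.one_le b x)

include hr hh hK in
theorem walk_le : ∀ (n : ℕ) (u v : V), WalkIn K v₁ v₂ n u v → (f u)⁻¹ * f v ≤ h b ^ n
  | 0, u, v, hw => by
    have hw' : u = v := hw
    rw [hw', inv_mul_cancel, pow_zero]
  | n + 1, u, v, hw => by
    obtain ⟨k, h1, h2, h3⟩ := hw
    have h4 := walk_le n _ v h3
    have h5 := step_le hr hh hK h1
    rw [h2] at h5
    calc (f u)⁻¹ * f v = ((f u)⁻¹ * f (cOpp v₁ v₂ k)) * ((f (cOpp v₁ v₂ k))⁻¹ * f v) := by group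
      _ ≤ h b * h b ^ n := mul_le_mul' h5 h4
      _ = h b ^ (n + 1) := (pow_succ' _ _).symm

open Classical in
include S hr hf hh hK in
/-- the certificate of a contained rational tangle -/
theorem contains_le {m s : ℕ} {v : V} (hw : WalkIn K v₁ v₂ m p v)
    (hs : s ≤ facingIn K v₁ v₂ (star q) v) : ((h b ^ m)⁻¹ * f q) ^ s ≤ h b := by
  have h1 := walk_le hr hh hK m p v hw
  rw [hf.base, inv_one, one_mul] at h1
  have h2 := path_prod h _ _ _ S.second
  rw [hh.base, mul_one] at h2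
  have hneg : ∀ k ∈ star q, (f q)⁻¹ * f (cOpp v₁ v₂ k) ≤ 1 := by
    intro k _
    have := mul_le_mul_right (hf.le (cOpp v₁ v₂ k)) (f q)⁻¹
    rwa [inv_mul_cancel] at this
  have hneg' : ∀ k ∈ star q, (h (cOpp e₁ e₂ k))⁻¹ * h (cAt e₁ e₂ k) ≤ 1 := fun k hk x =>
    (corner S hr hk x).1.mpr (hneg k hk x)
  have h3 := prod_le_pow' (fun k => (h (cOpp e₁ e₂ k))⁻¹ * h (cAt e₁ e₂ k))
    (fun k => decide (cOpp v₁ v₂ k = v ∧ K k.1)) ((f q)⁻¹ * f v) (star q) hneg' (by
      intro k hk hd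
      obtain ⟨hd1, hd2⟩ := of_decide_eq_true hd
      have h4 := hK k hd2
      rw [(S.mem q k).mp hk, hd1] at h4
      exact fun x => (h4 x).2 (hneg' k hk x))
  rw [h2] at h3
  have h4 : ((f v)⁻¹ * f q) ^ facingIn K v₁ v₂ (star q) v ≤ h b := by
    have h5 := inv_le_inv_iff.mpr h3
    rw [inv_inv, ← inv_pow, mul_inv_rev, inv_inv] at h5
    exact h5
  have h6 : 1 ≤ (f v)⁻¹ * f q := by
    have := mul_le_mul_right (hf.le v) (f v)⁻¹
    rwa [inv_mul_cancel] at this
  calc ((h b ^ m)⁻¹ * f q) ^ s ≤ ((f v)⁻¹ * f q) ^ s :=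
        pow_le_pow_of_le (mul_le_mul_left (inv_le_inv_iff.mpr h1) _) s
    _ ≤ ((f v)⁻¹ * f q) ^ facingIn K v₁ v₂ (star q) v := pow_le_pow_right' h6 hs
    _ ≤ h b := h4

end bounds

section tangle

variable {T : Tangle} {X : Type*} [LinearOrder X] {w : T.W → Aut X} {b : T.B → Aut X}

/-- At each crossing `b₂⁻¹ b₁` and `w₁⁻¹ w₂` move every point in the same direction. -/
def SameT (T : Tangle) {X : Type*} [LinearOrder X] (w : T.W → Aut X) (b : T.B → Aut X) : Prop :=
  ∀ c, Same ((b (T.b₂ c))⁻¹ * b (T.b₁ c)) ((w (T.w₁ c))⁻¹ * w (T.w₂ c))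

theorem SameT.white (h : SameT T w b) : Dir T.w₁ T.w₂ T.b₁ T.b₂ w b := by
  rintro ⟨c, s⟩
  cases s
  · exact h c
  · have h1 := (h c).inv
    simp only [mul_inv_rev, inv_inv] at h1
    exact h1

theorem SameT.black (h : SameT T w b) : Dir T.b₁ T.b₂ T.w₁ T.w₂ b w := by
  rintro ⟨c, s⟩
  cases s
  · have h1 := (h c).inv.symm
    simp only [mul_inv_rev, inv_inv] at h1
    exact h1
  · exact (h c).symm

theorem dom_white {K : T.C → Prop}
    (h : ∀ c, K c → Dom ((w (T.w₁ c))⁻¹ * w (T.w₂ c)) ((b (T.b₂ c))⁻¹ * b (T.b₁ c))) :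
    DomIn K T.w₁ T.w₂ T.b₁ T.b₂ w b := by
  rintro ⟨c, s⟩ hk
  cases s
  · exact h c hk
  · have h1 := (h c hk).inv
    simp only [mul_inv_rev, inv_inv] at h1
    exact h1

theorem dom_black {K : T.C → Prop}
    (h : ∀ c, K c → Dom ((b (T.b₂ c))⁻¹ * b (T.b₁ c)) ((w (T.w₁ c))⁻¹ * w (T.w₂ c))) :
    DomIn K T.b₁ T.b₂ T.w₁ T.w₂ b w := by
  rintro ⟨c, s⟩ hk
  cases s
  · have h1 := (h c hk).inv
    simp only [mul_inv_rev, inv_inv] at h1
    exact h1
  · exact h c hk

/-- Where `west` and `east` agree, all regions of a colour agree. -/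
theorem fix (h : SameT T w b) {x : X} (hx : w T.west x = w T.east x) :
    (∀ v, w v x = w T.west x) ∧ ∀ v, b v x = b T.north x := by
  have := T.finW
  have := T.finB
  obtain ⟨h1, h2⟩ := eq_of_eq T.white h.white x hx
  exact ⟨h1, (eq_of_eq T.black h.black x h2.symm).1⟩

theorem bounds [Nonempty X] (h : SameT T w b) (hw : w T.west = 1) (hb : b T.north = 1)
    (hpos : ∀ x, x < w T.east x) :
    Bounds w T.west T.east ∧ Bounds b T.north T.south := by
  have := T.finW
  have := T.finB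
  have h1 : ∀ x, w T.west x < w T.east x := fun x => by rw [hw]; exact hpos x
  have h2 : ∀ x, b T.north x < b T.south x := fun x => by
    refine lt_of_le_of_ne (current T.white h.white x (h1 x).le) fun hcon => ?_
    exact (h1 x).ne (eq_of_eq T.black h.black x hcon).2.symm
  refine ⟨⟨hw, fun v hv => ?_, fun v hv => ?_⟩, ⟨hb, fun v hv => ?_, fun v hv => ?_⟩⟩
  · rw [← hw]; exact Aut.lt_of fun x => first_lt T.white h.white x (h1 x) hv
  · exact Aut.lt_of fun x => lt_second T.white h.white x (h1 x) hv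
  · rw [← hb]; exact Aut.lt_of fun x => first_lt T.black h.black x (h2 x) hv
  · exact Aut.lt_of fun x => lt_second T.black h.black x (h2 x) hv

end tangle

end Pool.Agent.Q138.LO.Tan
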