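import Pool.Agent.Q138.LO.TanG

set_option autoImplicit false
set_option linter.unusedSectionVars false

/-!
# Two disjoint paths of length two, in tangles with pieces
-/

namespace Pool.Agent.Q138.LO.Tan

open Relation Pool.Agent.Y479.LS Aut

section algebra
variable {P : Type*} [Group P] [PartialOrder P] [MulLeftMono P] [MulRightMono P]

/-- The cyclic chain of inequalities: all of them are equalities. -/
theorem chain {g A X X' U Y Y' Z H0 H3 f1 f2 : P} {n n1 n2 n3 m1 m3 : ℕ}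
    (hn : n = n1 + n2 + n3) (hm : n = m1 + n2 + m3)
    (e1 : H0 * f1 ≤ X) (e2 : X' * f2 ≤ U) (e3 : Y' ≤ H3 * (g⁻¹ * f2)) (e4 : Z ≤ Y * (g⁻¹ * f1))
    (i1 : g ^ n1 ≤ H0) (i2 : X * g ^ n2 ≤ X') (i3 : U * g ^ n3 ≤ A) (i4 : H3 * g ^ m3 ≤ A)
    (i5 : Y * g ^ n2 ≤ Y') (i6 : g ^ m1 ≤ Z) (i7 : A ≤ g ^ (n + 1)) :
    g ^ n1 = H0 ∧ X * g ^ n2 = X' ∧ U * g ^ n3 = A ∧ H3 * g ^ m3 = A ∧ Y * g ^ n2 = Y' ∧
      g ^ m1 = Z ∧ A = g ^ (n + 1) := by
  have t1 : X' ≤ U * Y'⁻¹ * H3 * g⁻¹ := by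
    have a1 : X' ≤ U * f2⁻¹ := le_mul_inv_iff_mul_le.mpr e2
    have a2 : f2⁻¹ ≤ Y'⁻¹ * (H3 * g⁻¹) := by
      have := inv_le_inv_iff.mpr e3
      calc f2⁻¹ = (H3 * (g⁻¹ * f2))⁻¹ * (H3 * g⁻¹) := by group
        _ ≤ Y'⁻¹ * (H3 * g⁻¹) := mul_le_mul_left this _
    calc X' ≤ U * f2⁻¹ := a1
      _ ≤ U * (Y'⁻¹ * (H3 * g⁻¹)) := mul_le_mul_right a2 _
      _ = _ := by group
  have t3 : (Y * g ^ n2)⁻¹ ≤ (g ^ n2)⁻¹ * g⁻¹ * H0⁻¹ * X * Z⁻¹ := by
    have a1 : f1 ≤ H0⁻¹ * X := le_inv_mul_iff_mul_le.mpr e1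
    have a2 : Z ≤ Y * (g⁻¹ * (H0⁻¹ * X)) := e4.trans (mul_le_mul_right (mul_le_mul_right a1 _) _)
    have a3 : Y⁻¹ ≤ g⁻¹ * (H0⁻¹ * X) * Z⁻¹ :=
      le_mul_inv_iff_mul_le.mpr (inv_mul_le_iff_le_mul.mpr a2)
    calc (Y * g ^ n2)⁻¹ = (g ^ n2)⁻¹ * Y⁻¹ := by group
      _ ≤ (g ^ n2)⁻¹ * (g⁻¹ * (H0⁻¹ * X) * Z⁻¹) := mul_le_mul_right a3 _
      _ = _ := by group
  have j1 : H0⁻¹ ≤ (g ^ n1)⁻¹ := inv_le_inv_iff.mpr i1
  have j3 : U ≤ A * (g ^ n3)⁻¹ := le_mul_inv_iff_mul_le.mpr i3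
  have j4 : H3 ≤ A * (g ^ m3)⁻¹ := le_mul_inv_iff_mul_le.mpr i4
  have j5 : Y'⁻¹ ≤ (Y * g ^ n2)⁻¹ := inv_le_inv_iff.mpr i5
  have j6 : Z⁻¹ ≤ (g ^ m1)⁻¹ := inv_le_inv_iff.mpr i6
  have s0 : U * Y'⁻¹ * H3 * g⁻¹ ≤ U * (Y * g ^ n2)⁻¹ * H3 * g⁻¹ :=
    mul_le_mul_left (mul_le_mul_left (mul_le_mul_right j5 _) _) _
  have s1 : U * (Y * g ^ n2)⁻¹ * H3 * g⁻¹ ≤ (A * (g ^ n3)⁻¹) * (Y * g ^ n2)⁻¹ * H3 * g⁻¹ :=
    mul_le_mul_left (mul_le_mul_left (mul_le_mul_left j3 _) _) _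
  have s2 : (A * (g ^ n3)⁻¹) * (Y * g ^ n2)⁻¹ * H3 * g⁻¹ ≤
      (A * (g ^ n3)⁻¹) * (Y * g ^ n2)⁻¹ * (A * (g ^ m3)⁻¹) * g⁻¹ :=
    mul_le_mul_left (mul_le_mul_right j4 _) _
  have s3 : (A * (g ^ n3)⁻¹) * (Y * g ^ n2)⁻¹ * (A * (g ^ m3)⁻¹) * g⁻¹ ≤
      (g ^ (n + 1) * (g ^ n3)⁻¹) * (Y * g ^ n2)⁻¹ * (A * (g ^ m3)⁻¹) * g⁻¹ :=
    mul_le_mul_left (mul_le_mul_left (mul_le_mul_left (mul_le_mul_left i7 _) _) _) _
  have s4 : (g ^ (n + 1) * (g ^ n3)⁻¹) * (Y * g ^ n2)⁻¹ * (A * (g ^ m3)⁻¹) * g⁻¹ ≤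
      (g ^ (n + 1) * (g ^ n3)⁻¹) * (Y * g ^ n2)⁻¹ * (g ^ (n + 1) * (g ^ m3)⁻¹) * g⁻¹ :=
    mul_le_mul_left (mul_le_mul_right (mul_le_mul_left i7 _) _) _
  have s5 : (g ^ (n + 1) * (g ^ n3)⁻¹) * (Y * g ^ n2)⁻¹ * (g ^ (n + 1) * (g ^ m3)⁻¹) * g⁻¹ ≤
      g ^ n1 * H0⁻¹ * X * Z⁻¹ * (g ^ m1 * g ^ n2) := by
    refine (mul_le_mul_left (mul_le_mul_left (mul_le_mul_right t3 _) _) _).trans (le_of_eq ?_)
    rw [show n + 1 = (n1 + 1 + n2) + n3 by omega, pow_add g (n1 + 1 + n2) n3,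
      mul_inv_cancel_right]
    have : g ^ (n1 + 1 + n2 + n3) = g ^ (m1 + n2) * g * g ^ m3 := by
      rw [← pow_succ, ← pow_add]; congr 1; omega
    rw [← pow_add g (n1 + 1 + n2) n3, this, pow_add, pow_succ, pow_add]
    group
  have s6 : g ^ n1 * H0⁻¹ * X * Z⁻¹ * (g ^ m1 * g ^ n2) ≤
      g ^ n1 * (g ^ n1)⁻¹ * X * Z⁻¹ * (g ^ m1 * g ^ n2) :=
    mul_le_mul_left (mul_le_mul_left (mul_le_mul_left (mul_le_mul_right j1 _) _) _) _
  have s7 : g ^ n1 * (g ^ n1)⁻¹ * X * Z⁻¹ * (g ^ m1 * g ^ n2) ≤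
      g ^ n1 * (g ^ n1)⁻¹ * X * (g ^ m1)⁻¹ * (g ^ m1 * g ^ n2) :=
    mul_le_mul_left (mul_le_mul_right j6 _) _
  have s8 : g ^ n1 * (g ^ n1)⁻¹ * X * (g ^ m1)⁻¹ * (g ^ m1 * g ^ n2) = X * g ^ n2 := by group
  rw [s8] at s7
  -- closing the chain
  have b0 := i2.trans t1
  have b1 := b0.trans s0
  have b2 := b1.trans s1
  have b3 := b2.trans s2
  have b4 := b3.trans s3
  have b5 := b4.trans s4
  have b6 := b5.trans s5
  have b7 := b6.trans s6
  have d6 := s6.trans s7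
  have d5 := s5.trans d6
  have d4 := s4.trans d5
  have d3 := s3.trans d4
  have d2 := s2.trans d3
  have d1 := s1.trans d2
  have d0 := s0.trans d1
  have q7 := le_antisymm s7 b7
  have q6 := le_antisymm s6 (s7.trans b6)
  have q3 := le_antisymm s3 (d4.trans b3)
  have q2 := le_antisymm s2 (d3.trans b2)
  have q1 := le_antisymm s1 (d2.trans b1)
  have q0 := le_antisymm s0 (d1.trans b0)
  have qi := le_antisymm i2 (t1.trans d0)
  have r1 : g ^ n1 = H0 := by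
    have := mul_right_cancel (mul_right_cancel (mul_right_cancel q6))
    exact (inv_injective (mul_left_cancel this)).symm
  have r3 : U * g ^ n3 = A := by
    have := mul_right_cancel (mul_right_cancel (mul_right_cancel q1))
    rw [this, inv_mul_cancel_right]
  have r4 : H3 * g ^ m3 = A := by
    have := mul_left_cancel (mul_right_cancel q2)
    rw [this, inv_mul_cancel_right]
  have r5 : Y * g ^ n2 = Y' := by
    have := mul_left_cancel (mul_right_cancel (mul_right_cancel q0))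
    exact (inv_injective this).symm
  have r6 : g ^ m1 = Z := by
    rw [← s8] at q7
    have := mul_left_cancel (mul_right_cancel q7)
    exact (inv_injective this).symm
  have r7 : A = g ^ (n + 1) :=
    mul_right_cancel (mul_right_cancel (mul_right_cancel (mul_right_cancel q3)))
  exact ⟨r1, qi, r3, r4, r5, r6, r7⟩

theorem pow_le_prod' {K : Type*} (F : K → P) (D : K → Bool) (g : P) :
    ∀ (l : List K), (∀ k ∈ l, 1 ≤ F k) → (∀ k ∈ l, D k = true → g ≤ F k) →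
      g ^ l.countP D ≤ (l.map F).prod
  | [], _, _ => by simp
  | k :: l, h1, h2 => by
    have ih := pow_le_prod' F D g l (fun x hx => h1 x (List.mem_cons_of_mem _ hx))
      (fun x hx => h2 x (List.mem_cons_of_mem _ hx))
    rw [List.map_cons, List.prod_cons]
    by_cases hk : D k = true
    · rw [List.countP_cons_of_pos hk, pow_succ']
      exact mul_le_mul' (h2 k List.mem_cons_self hk) ih
    · rw [List.countP_cons_of_neg hk]
      exact ih.trans (le_mul_of_one_le_left' (h1 k List.mem_cons_self))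

theorem pow_lt_prod' {K : Type*} (F : K → P) (D : K → Bool) (g : P) :
    ∀ (l : List K), (∀ k ∈ l, 1 < F k) → (∀ k ∈ l, D k = true → g ≤ F k) →
      l.countP D < l.length → g ^ l.countP D < (l.map F).prod
  | [], _, _, h => by simp at h
  | k :: l, h1, h2, h3 => by
    have h1' : ∀ x ∈ l, 1 < F x := fun x hx => h1 x (List.mem_cons_of_mem _ hx)
    have h2' : ∀ x ∈ l, D x = true → g ≤ F x := fun x hx => h2 x (List.mem_cons_of_mem _ hx)
    rw [List.map_cons, List.prod_cons]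
    by_cases hk : D k = true
    · rw [List.countP_cons_of_pos hk, pow_succ']
      rw [List.countP_cons_of_pos hk, List.length_cons] at h3
      exact (mul_le_mul_left (h2 k List.mem_cons_self hk) _).trans_lt
        (mul_lt_mul_right (pow_lt_prod' F D g l h1' h2' (by omega)) _)
    · rw [List.countP_cons_of_neg hk]
      exact lt_of_le_of_lt (pow_le_prod' F D g l (fun x hx => (h1' x hx).le) h2')
        (lt_mul_of_one_lt_left' _ (h1 k List.mem_cons_self))

theorem prod_le_inv_pow' {K : Type*} (F : K → P) (D : K → Bool) (g : P) :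
    ∀ (l : List K), (∀ k ∈ l, F k ≤ 1) → (∀ k ∈ l, D k = true → F k ≤ g⁻¹) →
      (l.map F).prod ≤ (g ^ l.countP D)⁻¹
  | [], _, _ => by simp
  | k :: l, h1, h2 => by
    have ih := prod_le_inv_pow' F D g l (fun x hx => h1 x (List.mem_cons_of_mem _ hx))
      (fun x hx => h2 x (List.mem_cons_of_mem _ hx))
    rw [List.map_cons, List.prod_cons]
    by_cases hk : D k = true
    · rw [List.countP_cons_of_pos hk, pow_succ, mul_inv_rev]
      exact mul_le_mul' (h2 k List.mem_cons_self hk) ih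
    · rw [List.countP_cons_of_neg hk]
      exact (mul_le_of_le_one_left' (h1 k List.mem_cons_self)).trans ih

theorem prod_lt_inv_pow' {K : Type*} (F : K → P) (D : K → Bool) (g : P) :
    ∀ (l : List K), (∀ k ∈ l, F k < 1) → (∀ k ∈ l, D k = true → F k ≤ g⁻¹) →
      l.countP D < l.length → (l.map F).prod < (g ^ l.countP D)⁻¹
  | [], _, _, h => by simp at h
  | k :: l, h1, h2, h3 => by
    have h1' : ∀ x ∈ l, F x < 1 := fun x hx => h1 x (List.mem_cons_of_mem _ hx)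
    have h2' : ∀ x ∈ l, D x = true → F x ≤ g⁻¹ := fun x hx => h2 x (List.mem_cons_of_mem _ hx)
    rw [List.map_cons, List.prod_cons]
    by_cases hk : D k = true
    · rw [List.countP_cons_of_pos hk, pow_succ, mul_inv_rev]
      rw [List.countP_cons_of_pos hk, List.length_cons] at h3
      exact (mul_le_mul_left (h2 k List.mem_cons_self hk) _).trans_lt
        (mul_lt_mul_right (prod_lt_inv_pow' F D g l h1' h2' (by omega)) _)
    · rw [List.countP_cons_of_neg hk]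
      exact lt_of_lt_of_le (mul_lt_of_lt_one_left' _ (h1 k List.mem_cons_self))
        (prod_le_inv_pow' F D g l (fun x hx => (h1' x hx).le) h2')

end algebra

/-- Two internally disjoint paths of length two from `p` to `q`, the first one passing to the side of
`a` and the second one to the side of `b`, through crossings in `K`, and `n` crossings in `K` that are
adjacent to both `p` and `q`, equally many of which are met between the two paths at both ends. -/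
structure TwoPathsIn {V C : Type} (K : C → Prop) (v₁ v₂ : C → V) (p q : V)
    (star : V → List (C × Bool)) (n : ℕ) where
  A : List (C × Bool)
  B : List (C × Bool)
  D : List (C × Bool)
  A' : List (C × Bool)
  B' : List (C × Bool)
  D' : List (C × Bool)
  k₁ : C × Bool
  k₂ : C × Bool
  l₁ : C × Bool
  l₂ : C × Bool
  /-- the corners of `p` -/
  atFirst : star p = A ++ k₁ :: (B ++ k₂ :: D)
  /-- the corners of `q` -/
  atSecond : star q = D' ++ l₂ :: (B' ++ l₁ :: A')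
  mem : K k₁.1 ∧ K k₂.1 ∧ K l₁.1 ∧ K l₂.1
  path₁ : cOpp v₁ v₂ k₁ = cOpp v₁ v₂ l₁
  path₂ : cOpp v₁ v₂ k₂ = cOpp v₁ v₂ l₂
  between : facingIn K v₁ v₂ B q = facingIn K v₁ v₂ B' p
  count : facingIn K v₁ v₂ (star p) q = n
  count' : facingIn K v₁ v₂ (star q) p = n

section count

variable {V C : Type} {K : C → Prop} {v₁ v₂ : C → V}

theorem facingIn_append (l m : List (C × Bool)) (v : V) :
    facingIn K v₁ v₂ (l ++ m) v = facingIn K v₁ v₂ l v + facingIn K v₁ v₂ m v := by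
  classical
  unfold facingIn
  exact List.countP_append

theorem facingIn_cons {k : C × Bool} (l : List (C × Bool)) {v : V} (hk : cOpp v₁ v₂ k ≠ v) :
    facingIn K v₁ v₂ (k :: l) v = facingIn K v₁ v₂ l v := by
  classical
  unfold facingIn
  exact List.countP_cons_of_neg (by simp [hk])

theorem facingIn_le (l : List (C × Bool)) (v : V) : facingIn K v₁ v₂ l v ≤ l.length := by
  classical
  exact List.countP_le_length

end count

section strict

variable {X : Type*} [LinearOrder X] {g h : Aut X}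

theorem Same.eq_one (s : Same g h) (hg : g = 1) : h = 1 := by
  apply Aut.ext'
  intro x
  have h1 : g x = x := by rw [hg]; rfl
  exact le_antisymm ((s x).1.mp h1.le) ((s x).2.mp h1.ge)

theorem Same.one_lt (s : Same g h) (hh : 1 < h) : 1 < g :=
  lt_of_le_of_ne (fun x => (s x).2.mpr (hh.le x)) fun e => hh.ne (s.eq_one e.symm).symm

theorem Same.lt_one (s : Same g h) (hh : h < 1) : g < 1 :=
  lt_of_le_of_ne (fun x => (s x).1.mpr (hh.le x)) fun e => hh.ne (s.eq_one e)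

theorem Dom.le (d : Dom g h) (hh : 1 ≤ h) : g ≤ h := fun x => (d x).1 (hh x)

theorem Dom.ge (d : Dom g h) (hh : h ≤ 1) : h ≤ g := fun x => (d x).2 (hh x)

end strict

section paths

variable {V E C : Type} {v₁ v₂ : C → V} {e₁ e₂ : C → E} {p q : V} {a b : E}
  {star : V → List (C × Bool)} (S : Side v₁ v₂ e₁ e₂ p q a b star)

variable {X : Type*} [LinearOrder X] {f : V → Aut X} {h : E → Aut X}
  (hr : Dir v₁ v₂ e₁ e₂ f h) (hf : Bounds f p q) (hh : Bounds h a b) {K : C → Prop}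
  (hK : DomIn K v₁ v₂ e₁ e₂ f h)

include S hr hf

theorem first_pos {k : C × Bool} (hk : k ∈ star p) :
    1 < (h (cOpp e₁ e₂ k))⁻¹ * h (cAt e₁ e₂ k) := by
  refine (corner S hr hk).one_lt ?_
  rw [hf.base, inv_one, one_mul]
  exact hf.pos _ (S.opp_ne hk)

theorem second_neg {k : C × Bool} (hk : k ∈ star q) :
    (h (cOpp e₁ e₂ k))⁻¹ * h (cAt e₁ e₂ k) < 1 := by
  refine (corner S hr hk).lt_one ?_
  have := mul_lt_mul_right (hf.lt _ (S.opp_ne hk)) (f q)⁻¹
  rwa [inv_mul_cancel] at this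

include hK

theorem first_dom {k : C × Bool} (hk : k ∈ star p) (hkK : K k.1) :
    f (cOpp v₁ v₂ k) ≤ (h (cOpp e₁ e₂ k))⁻¹ * h (cAt e₁ e₂ k) := by
  have h1 := hK k hkK
  rw [(S.mem p k).mp hk, hf.base, inv_one, one_mul] at h1
  exact h1.le (first_pos S hr hf hk).le

theorem second_dom {k : C × Bool} (hk : k ∈ star q) (hkK : K k.1) :
    (h (cOpp e₁ e₂ k))⁻¹ * h (cAt e₁ e₂ k) ≤ (f q)⁻¹ * f (cOpp v₁ v₂ k) := by
  have h1 := hK k hkK
  rw [(S.mem q k).mp hk] at h1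
  exact h1.ge (second_neg S hr hf hk).le

open Classical in
/-- a part of the path around `p` -/
theorem seg_first {l : List (C × Bool)} (hl : ∀ k ∈ l, k ∈ star p) {c d : E}
    (hp : Path e₁ e₂ c l d) :
    f q ^ facingIn K v₁ v₂ l q ≤ (h c)⁻¹ * h d ∧
      (facingIn K v₁ v₂ l q < l.length → f q ^ facingIn K v₁ v₂ l q < (h c)⁻¹ * h d) := by
  rw [← path_prod h l c d hp]
  have h2 : ∀ k ∈ l, decide (cOpp v₁ v₂ k = q ∧ K k.1) = true →
      f q ≤ (h (cOpp e₁ e₂ k))⁻¹ * h (cAt e₁ e₂ k) := by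
    intro k hk hd
    obtain ⟨hd1, hd2⟩ := of_decide_eq_true hd
    rw [← hd1]
    exact first_dom S hr hf hK (hl k hk) hd2
  constructor
  · exact pow_le_prod' _ _ _ l (fun k hk => (first_pos S hr hf (hl k hk)).le) h2
  · exact pow_lt_prod' _ _ _ l (fun k hk => first_pos S hr hf (hl k hk)) h2

open Classical in
/-- a part of the path around `q` -/
theorem seg_second {l : List (C × Bool)} (hl : ∀ k ∈ l, k ∈ star q) {c d : E}
    (hp : Path e₁ e₂ c l d) :
    (h c)⁻¹ * h d ≤ (f q ^ facingIn K v₁ v₂ l p)⁻¹ ∧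
      (facingIn K v₁ v₂ l p < l.length →
        (h c)⁻¹ * h d < (f q ^ facingIn K v₁ v₂ l p)⁻¹) := by
  rw [← path_prod h l c d hp]
  have h2 : ∀ k ∈ l, decide (cOpp v₁ v₂ k = p ∧ K k.1) = true →
      (h (cOpp e₁ e₂ k))⁻¹ * h (cAt e₁ e₂ k) ≤ (f q)⁻¹ := by
    intro k hk hd
    obtain ⟨hd1, hd2⟩ := of_decide_eq_true hd
    have := second_dom S hr hf hK (hl k hk) hd2
    rwa [hd1, hf.base, mul_one] at this
  constructor
  · exact prod_le_inv_pow' _ _ _ l (fun k hk => (second_neg S hr hf (hl k hk)).le) h2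
  · exact prod_lt_inv_pow' _ _ _ l (fun k hk => second_neg S hr hf (hl k hk)) h2

include hh

/-- A walk of length `n` from `p` to `q` bounds the voltage by the `n`-th power of the current. -/
theorem voltage_le {n : ℕ} (hw : WalkIn K v₁ v₂ n p q) :
    f q ≤ h b ^ n ∧ (2 ≤ (star p).length → f q < h b ^ n) := by
  have h1 := walk_le hr hh hK n p q hw
  rw [hf.base, inv_one, one_mul] at h1
  refine ⟨h1, fun h2 => ?_⟩
  cases n with
  | zero => exact absurd hw S.ne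
  | succ n =>
    obtain ⟨k, hk, h3, h4⟩ := hw
    have hkp : k ∈ star p := (S.mem p k).mpr h3
    have h5 : f (cOpp v₁ v₂ k) < h b := by
      refine (first_dom S hr hf hK hkp hk).trans_lt ?_
      have h3 := path_prod h _ _ _ S.first
      rw [hh.base, inv_one, one_mul] at h3
      rw [← h3]
      refine lt_prod _ ?_ (by simpa using h2) (List.mem_map_of_mem hkp)
      intro g hg
      obtain ⟨k', hk', rfl⟩ := List.mem_map.mp hg
      exact first_pos S hr hf hk'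
    have h6 := walk_le hr hh hK n _ q h4
    calc f q = f (cOpp v₁ v₂ k) * ((f (cOpp v₁ v₂ k))⁻¹ * f q) := by group
      _ < h b * ((f (cOpp v₁ v₂ k))⁻¹ * f q) := mul_lt_mul_left h5 _
      _ ≤ h b * h b ^ n := mul_le_mul_right h6 _
      _ = h b ^ (n + 1) := (pow_succ' _ _).symm

/-- With two paths of length two and `n` direct crossings, a current that is not larger than the
`(n + 1)`-st power of the voltage is equal to it, and there are no further crossings at `p`, `q`. -/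
theorem two_paths {n : ℕ} (T : TwoPathsIn K v₁ v₂ p q star n) (hA : h b ≤ f q ^ (n + 1)) :
    h b = f q ^ (n + 1) ∧ (star p).length = n + 2 ∧ (star q).length = n + 2 := by
  obtain ⟨A, B, D, A', B', D', k₁, k₂, l₁, l₂, atp, atq, ⟨K1, K2, K3, K4⟩, p1, p2, hB, c1, c2⟩ := T
  have P1 := S.first
  have P2 := S.second
  rw [atp] at P1
  rw [atq] at P2
  obtain ⟨u0, A1, A2⟩ := path_append _ _ _ _ P1
  obtain ⟨A3, A4⟩ : cOpp e₁ e₂ k₁ = u0 ∧ Path e₁ e₂ (cAt e₁ e₂ k₁) (B ++ k₂ :: D) b := A2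
  obtain ⟨u1, B1, B2⟩ := path_append _ _ _ _ A4
  obtain ⟨B3, B4⟩ : cOpp e₁ e₂ k₂ = u1 ∧ Path e₁ e₂ (cAt e₁ e₂ k₂) D b := B2
  obtain ⟨u3, D1, D2⟩ := path_append _ _ _ _ P2
  obtain ⟨D3, D4⟩ : cOpp e₁ e₂ l₂ = u3 ∧ Path e₁ e₂ (cAt e₁ e₂ l₂) (B' ++ l₁ :: A') a := D2
  obtain ⟨u4, E1, E2⟩ := path_append _ _ _ _ D4
  obtain ⟨E3, E4⟩ : cOpp e₁ e₂ l₁ = u4 ∧ Path e₁ e₂ (cAt e₁ e₂ l₁) A' a := E2
  -- membership
  have mA : ∀ k ∈ A, k ∈ star p := fun k hk => by rw [atp]; simp [hk]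
  have mk1 : k₁ ∈ star p := by rw [atp]; simp
  have mB : ∀ k ∈ B, k ∈ star p := fun k hk => by rw [atp]; simp [hk]
  have mk2 : k₂ ∈ star p := by rw [atp]; simp
  have mD : ∀ k ∈ D, k ∈ star p := fun k hk => by rw [atp]; simp [hk]
  have mA' : ∀ k ∈ A', k ∈ star q := fun k hk => by rw [atq]; simp [hk]
  have ml1 : l₁ ∈ star q := by rw [atq]; simp
  have mB' : ∀ k ∈ B', k ∈ star q := fun k hk => by rw [atq]; simp [hk]
  have ml2 : l₂ ∈ star q := by rw [atq]; simp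
  have mD' : ∀ k ∈ D', k ∈ star q := fun k hk => by rw [atq]; simp [hk]
  have ne1 : cOpp v₁ v₂ k₁ ≠ q := by rw [p1]; exact S.opp_ne ml1
  have ne2 : cOpp v₁ v₂ k₂ ≠ q := by rw [p2]; exact S.opp_ne ml2
  have ne3 : cOpp v₁ v₂ l₁ ≠ p := by rw [← p1]; exact S.opp_ne mk1
  have ne4 : cOpp v₁ v₂ l₂ ≠ p := by rw [← p2]; exact S.opp_ne mk2
  rw [atp, facingIn_append, facingIn_cons _ ne1, facingIn_append, facingIn_cons _ ne2] at c1
  rw [atq, facingIn_append, facingIn_cons _ ne4, facingIn_append, facingIn_cons _ ne3] at c2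
  -- the inequalities
  obtain ⟨i1, j1⟩ := seg_first S hr hf hK mA A1
  obtain ⟨i2, j2⟩ := seg_first S hr hf hK mB B1
  obtain ⟨i3, j3⟩ := seg_first S hr hf hK mD B4
  obtain ⟨i4, j4⟩ := seg_second S hr hf hK mD' D1
  obtain ⟨i5, j5⟩ := seg_second S hr hf hK mB' E1
  obtain ⟨i6, j6⟩ := seg_second S hr hf hK mA' E4
  rw [hh.base, inv_one, one_mul] at i1 j1
  rw [hh.base, mul_one] at i6 j6
  have e1 := first_dom S hr hf hK mk1 K1
  have e2 := first_dom S hr hf hK mk2 K2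
  have e3 := second_dom S hr hf hK ml2 K4
  have e4 := second_dom S hr hf hK ml1 K3
  rw [A3] at e1
  rw [B3] at e2
  rw [D3, ← p2] at e3
  rw [E3, ← p1] at e4
  set g := f q with hg
  set n1 := facingIn K v₁ v₂ A q with hn1
  set n2 := facingIn K v₁ v₂ B q with hn2
  set n3 := facingIn K v₁ v₂ D q with hn3
  set m1 := facingIn K v₁ v₂ A' p with hm1
  set m3 := facingIn K v₁ v₂ D' p with hm3
  rw [← hB] at c2 i5 j5
  have res := chain (g := g) (A := h b) (X := h (cAt e₁ e₂ k₁)) (X' := h u1)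
    (U := h (cAt e₁ e₂ k₂)) (Y := h u4) (Y' := h (cAt e₁ e₂ l₂)) (Z := h (cAt e₁ e₂ l₁))
    (H0 := h u0) (H3 := h u3) (f1 := f (cOpp v₁ v₂ k₁)) (f2 := f (cOpp v₁ v₂ k₂)) (n := n)
    (n1 := n1) (n2 := n2) (n3 := n3) (m1 := m1) (m3 := m3) (by omega) (by omega)
    (le_inv_mul_iff_mul_le.mp e1) (le_inv_mul_iff_mul_le.mp e2)
    (inv_mul_le_iff_le_mul.mp e3) (inv_mul_le_iff_le_mul.mp e4)
    i1 (le_inv_mul_iff_mul_le.mp i2) (le_inv_mul_iff_mul_le.mp i3)
    (by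
      have := mul_le_mul_right i4 (h b)
      rw [mul_inv_cancel_left] at this
      exact le_mul_inv_iff_mul_le.mp this)
    (by
      have := mul_le_mul_right i5 (h (cAt e₁ e₂ l₂))
      rw [mul_inv_cancel_left] at this
      exact le_mul_inv_iff_mul_le.mp this)
    (inv_le_inv_iff.mp i6) hA
  obtain ⟨r1, r2, r3, r4, r5, r6, r7⟩ := res
  have l1 : n1 = A.length := le_antisymm (facingIn_le A q) (not_lt.mp fun hl => (j1 hl).ne r1)
  have l2 : n2 = B.length := le_antisymm (facingIn_le B q) (not_lt.mp fun hl => (j2 hl).ne (by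
    rw [← r2]; group))
  have l3 : n3 = D.length := le_antisymm (facingIn_le D q) (not_lt.mp fun hl => (j3 hl).ne (by
    rw [← r3]; group))
  have l4 : m3 = D'.length := le_antisymm (facingIn_le D' p) (not_lt.mp fun hl => (j4 hl).ne (by
    rw [← r4]; group))
  have l5 : n2 = B'.length := by
    refine le_antisymm (hB ▸ facingIn_le B' p) (not_lt.mp fun hl => (j5 hl).ne (by
      rw [← r5]; group))
  have l6 : m1 = A'.length := le_antisymm (facingIn_le A' p) (not_lt.mp fun hl => (j6 hl).ne (by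
    rw [← r6]))
  refine ⟨r7, ?_, ?_⟩
  · rw [atp]
    simp only [List.length_append, List.length_cons]
    omega
  · rw [atq]
    simp only [List.length_append, List.length_cons]
    omega

end paths

end Pool.Agent.Q138.LO.Tan
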