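import Pool.Agent.Q138.LO.Tan

set_option autoImplicit false

/-!
# Flat and steep pieces, and actions of glued groups
-/

namespace Pool.Agent.Q138.LO

open Pool.Agent.Y479.LS

/-- In every action on a linear order `v` moves no point further than `u` (in the direction of
`u`). -/
def Less {K : Type} [Group K] (u v : K) : Prop :=
  ∀ (X : Type) [LinearOrder X] (φ : K →* (X ≃o X)) (x : X),
    (x ≤ φ u x → φ v x ≤ φ u x) ∧ (φ u x ≤ x → φ u x ≤ φ v x)

theorem less_of {K : Type} [Group K] {u v : K} (h : Good u v) (h' : Good u (u * v⁻¹)) :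
    Less u v := by
  intro X _ φ x
  have e : ∀ y, φ (u * v⁻¹) (φ v y) = φ u y := by
    intro y
    rw [← mul_ap, ← map_mul, inv_mul_cancel_right]
  constructor
  · intro hx
    have h1 : x ≤ φ v x := (h X φ x).2.1.mp hx
    have h2 : φ v x ≤ φ v (φ v x) := (φ v).monotone h1
    have h3 := (h' X φ (φ v x)).2.1.mp ((h X φ (φ v x)).2.1.mpr h2)
    rwa [e] at h3
  · intro hx
    have h1 : φ v x ≤ x := (h X φ x).1.mp hx
    have h2 : φ v (φ v x) ≤ φ v x := (φ v).monotone h1
    have h3 := (h' X φ (φ v x)).1.mp ((h X φ (φ v x)).1.mpr h2)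
    rwa [e] at h3

theorem good_symm {K : Type} [Group K] {u v : K} (h : Good u v) : Good v u := by
  intro X _ φ x
  obtain ⟨h1, h2, h3⟩ := h X φ x
  exact ⟨h1.symm, h2.symm, fun hx => h3 (le_antisymm (h1.mpr hx.le) (h2.mpr hx.ge))⟩

theorem less_refl {K : Type} [Group K] (u : K) : Less u u := fun _ _ _ _ =>
  ⟨fun _ => le_rfl, fun _ => le_rfl⟩

/-- The second peripheral element moves no point further than the first one. -/
def Flat (P : Piece) : Prop := Less P.u P.v

/-- The first peripheral element moves no point further than the second one. -/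
def Steep (P : Piece) : Prop := Less P.v P.u

/-- The parameters of flat fillings: the quotient `u v⁻¹` is on the positive side. -/
def Filling.IsFlat : Filling → Prop
  | solid p q => q ≤ p
  | klein i j k l => l < j ∨ (k = i ∧ l = j)
  | seifert _ α β i j k l => InCone α β (i - k) (j - l) ∨ (k = i ∧ l = j)

/-- The parameters of steep fillings: the quotient `u⁻¹ v` is on the positive side. -/
def Filling.IsSteep : Filling → Prop
  | solid p q => p ≤ q
  | klein i j k l => j < l ∨ (k = i ∧ l = j)
  | seifert _ α β i j k l => InCone α β (k - i) (l - j) ∨ (k = i ∧ l = j)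

theorem solid_less {p q : ℕ} (hq : 1 ≤ q) (h : q ≤ p) :
    Less (Multiplicative.ofAdd (p : ℤ)) (Multiplicative.ofAdd (q : ℤ)) := by
  rcases h.lt_or_eq with h | h
  · refine less_of (solid_good (by omega) hq) ?_
    have e : Multiplicative.ofAdd (p : ℤ) * (Multiplicative.ofAdd (q : ℤ))⁻¹ =
        Multiplicative.ofAdd ((p - q : ℕ) : ℤ) := by
      rw [← ofAdd_neg, ← ofAdd_add]
      congr 1
      omega
    rw [e]
    exact solid_good (by omega) (by omega)
  · rw [h]; exact less_refl _

theorem klein_less {i j k l : ℤ} (hl : 1 ≤ l) (h : l < j ∨ (k = i ∧ l = j)) :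
    Less (ky ^ i * kx ^ (2 * j)) (ky ^ k * kx ^ (2 * l)) := by
  rcases h with h | ⟨rfl, rfl⟩
  · refine less_of (klein_good i k (by omega) hl) ?_
    have e : ky ^ i * kx ^ (2 * j) * (ky ^ k * kx ^ (2 * l))⁻¹ =
        ky ^ (i - k) * kx ^ (2 * (j - l)) := by
      have := comm_word klein_comm i j k l 1 (-1)
      simp only [← zpow_mul, zpow_one, zpow_neg_one, one_mul, neg_one_mul] at this
      rw [this]
      rfl
    rw [e]
    exact klein_good i _ (by omega) (by omega)
  · exact less_refl _

theorem seif_less {n : ℕ} {α β : Fin n → ℕ} {i j k l : ℤ} (hn : 2 ≤ n) (h1 : ∀ s, 0 < β s)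
    (h2 : ∀ s, β s < α s) (h3 : InCone α β i j) (h4 : InCone α β k l)
    (h : InCone α β (i - k) (j - l) ∨ (k = i ∧ l = j)) :
    Less (sc n α β ^ i * sh n α β ^ j) (sc n α β ^ k * sh n α β ^ l) := by
  rcases h with h | ⟨rfl, rfl⟩
  · refine less_of (seif_good hn h1 h2 h3 h4) ?_
    have e : sc n α β ^ i * sh n α β ^ j * (sc n α β ^ k * sh n α β ^ l)⁻¹ =
        sc n α β ^ (i - k) * sh n α β ^ (j - l) := by
      have := comm_word (seif_pcomm n α β) i j k l 1 (-1)
      simp only [zpow_one, zpow_neg_one, one_mul, neg_one_mul] at this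
      rw [this]
      rfl
    rw [e]
    exact seif_good hn h1 h2 h3 h
  · exact less_refl _

theorem Filling.Positive.flat {F : Filling} (hF : F.Positive) (h : F.IsFlat) : Flat F.piece := by
  cases F with
  | solid p q => exact solid_less hF.2 h
  | klein i j k l => exact klein_less hF.2 h
  | seifert n α β i j k l => exact seif_less hF.1 hF.2.1 hF.2.2.1 hF.2.2.2.1 hF.2.2.2.2 h

theorem Filling.Positive.steep {F : Filling} (hF : F.Positive) (h : F.IsSteep) :
    Steep F.piece := by
  cases F with
  | solid p q => exact solid_less hF.1 h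
  | klein i j k l =>
    refine klein_less hF.1 ?_
    rcases h with h | ⟨rfl, rfl⟩
    · exact Or.inl h
    · exact Or.inr ⟨rfl, rfl⟩
  | seifert n α β i j k l =>
    refine seif_less hF.1 hF.2.1 hF.2.2.1 hF.2.2.2.2 hF.2.2.2.1 ?_
    rcases h with h | ⟨rfl, rfl⟩
    · exact Or.inl h
    · exact Or.inr ⟨rfl, rfl⟩

section glue

variable {Γ : Type} (R : Set (FreeGroup Γ)) {C : Type} (P : C → Piece) (U V : C → FreeGroup Γ)

/-- The map from the words in the generators of the base. -/
def baseHom : FreeGroup Γ →* GlueGroup R P U V := (PresentedGroup.mk _).comp (baseWord P)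

/-- The map from the piece `c`. -/
def pieceHom (c : C) : (P c).K →* GlueGroup R P U V :=
  MonoidHom.mk' (fun k => PresentedGroup.mk _ (pieceGen P c k)) (by
    intro k k'
    have : PresentedGroup.mk (glueRel R P U V) (pieceGen P c k * pieceGen P c k' *
        (pieceGen P c (k * k'))⁻¹) = 1 :=
      PresentedGroup.one_of_mem (Or.inr (Or.inl ⟨c, k, k', rfl⟩))
    rw [map_mul, map_mul, map_inv, mul_inv_eq_one] at this
    exact this.symm)

variable {R P U V}

theorem baseHom_rel {r : FreeGroup Γ} (h : r ∈ R) : baseHom R P U V r = 1 :=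
  PresentedGroup.one_of_mem (Or.inl ⟨r, h, rfl⟩)

theorem pieceHom_u (c : C) : pieceHom R P U V c (P c).u = baseHom R P U V (U c) := by
  have : PresentedGroup.mk (glueRel R P U V) ((pieceGen P c (P c).u)⁻¹ * baseWord P (U c)) = 1 :=
    PresentedGroup.one_of_mem (Or.inr (Or.inr (Or.inl ⟨c, rfl⟩)))
  rw [map_mul, map_inv, inv_mul_eq_one] at this
  exact this

theorem pieceHom_v (c : C) : pieceHom R P U V c (P c).v = baseHom R P U V (V c) := by
  have : PresentedGroup.mk (glueRel R P U V) ((pieceGen P c (P c).v)⁻¹ * baseWord P (V c)) = 1 :=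
    PresentedGroup.one_of_mem (Or.inr (Or.inr (Or.inr ⟨c, rfl⟩)))
  rw [map_mul, map_inv, inv_mul_eq_one] at this
  exact this

/-- A point fixed by the base is fixed by the whole group. -/
theorem glue_fix {X : Type} [LinearOrder X] (hP : ∀ c, Good (P c).u (P c).v)
    (φ : GlueGroup R P U V →* (X ≃o X)) {x : X}
    (h : ∀ γ, φ (baseHom R P U V (FreeGroup.of γ)) x = x) (g : GlueGroup R P U V) : φ g x = x := by
  have h1 : ∀ w : FreeGroup Γ, φ (baseHom R P U V w) x = x := by
    intro w
    refine fix_of_gen (φ.comp (baseHom R P U V)) x (Set.range FreeGroup.of)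
      (FreeGroup.closure_range_of Γ) ?_ w
    rintro _ ⟨γ, rfl⟩
    exact h γ
  refine fix_of_gen φ x (Set.range PresentedGroup.of) (PresentedGroup.closure_range_of _) ?_ g
  rintro _ ⟨γ | ⟨c, k⟩, rfl⟩
  · exact h γ
  · have h2 : φ (pieceHom R P U V c (P c).u) x = x := by rw [pieceHom_u]; exact h1 _
    exact (hP c X (φ.comp (pieceHom R P U V c)) x).2.2 h2 k

end glue

end Pool.Agent.Q138.LO
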